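import Pool.Agent.Helper38.CV.D9

/-!
# MP_e5aeaf_mp: D9 with the constant 1/10 in the clause for `R` (proof of helper38)
-/

set_option autoImplicit false

namespace Pool.Agent.Helper36.CV

noncomputable section

/-- `ST_D9` with `|l| * sqrt |l| / 10` in the clause for `R` -/
def ST_D9s : Prop := ∃ l0 : ℝ, 0 < l0 ∧ ∀ (l E : ℝ) (a b : ℤ) (n c : ℕ), 0 < |l| → |l| ≤ l0 → b ≠ 0 → n ≤ c →
  Real.sqrt (Real.sqrt |l|) ≤ |(b : ℝ)| * gam ^ n →
  |(b : ℝ)| * gam ^ n < phi * Real.sqrt (Real.sqrt |l|) →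
  15 / 100 * Real.sqrt |l| ≤ |(b : ℝ)| * gam ^ c → |(b : ℝ)| * gam ^ c < 15 / 100 * phi * Real.sqrt |l| →
  |mQ l a b n E| ≤ 10 * (|(b : ℝ)| * gam ^ n) ^ 2 → |mR l a b n E| ≤ 30 * |l| →
  |mP l a b n E| ≤ 20 * |l| * Real.sqrt |l| →
  |mQ l a b c E - gam ^ (2 * (c - n)) * mQ l a b n E| ≤ 44 / 1000 * l ^ 2 ∧
  |mR l a b c E| ≤ |mR l a b n E| + |l| * Real.sqrt |l| / 10 ∧ |mP l a b c E| ≤ 4000 * |l| ∧
  (∀ j, n ≤ j → j ≤ c + 12 → |yy l a b j E| ≤ Real.sqrt (Real.sqrt |l|) ∧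
    |tt l a b j E| ≤ Real.sqrt (Real.sqrt |l|)) ∧
  (∀ k, k ≤ 9 → |mP l a b (c + k) E - phi ^ (2 * k) * mP l a b c E| ≤ |l| * Real.sqrt |l| ∧
    |mQ l a b (c + k) E - gam ^ (2 * k) * mQ l a b c E| ≤ |l| * Real.sqrt |l| ∧
    |mR l a b (c + k) E - (-1) ^ k * mR l a b c E| ≤ |l| * Real.sqrt |l|)

/-- the conclusions in terms of `q` -/
theorem d9s_fin {q G : ℝ} {N : ℕ} {P Q R e y t : ℕ → ℝ} (h : D9H q G N P Q R e y t)
    (hN2 : G * gam ^ N < 15 / 100 * phi * q ^ 2) :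
    |Q N - gam ^ (2 * N) * Q 0| ≤ 44 / 1000 * q ^ 8 ∧ |R N| ≤ |R 0| + q ^ 6 / 10 ∧
    |P N| ≤ 4000 * q ^ 4 ∧ (∀ j, j ≤ N + 12 → |y j| ≤ q ∧ |t j| ≤ q) ∧
    (∀ k, k ≤ 9 → |P (N + k) - phi ^ (2 * k) * P N| ≤ q ^ 6 ∧
      |Q (N + k) - gam ^ (2 * k) * Q N| ≤ q ^ 6 ∧ |R (N + k) - (-1) ^ k * R N| ≤ q ^ 6) := by
  have hq := h.q0
  have hq1 := h.q1
  have hg := d9_gam
  have hp := d9_phi
  have hgam0 : 0 < gam := by linarith [hg.1]
  have hphi0 : 0 < phi := by linarith [hp.1]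
  have hph2 := d9_phisq
  have hG : 0 < G := lt_of_lt_of_le hq h.G1
  have hgN : 0 < gam ^ N := pow_pos hgam0 N
  have hs1 : 10 ^ 67 * q ≤ 1 / 10 ^ 13 := by
    calc (10 : ℝ) ^ 67 * q ≤ 10 ^ 67 * (1 / 10 ^ 80) := by gcongr
      _ = 1 / 10 ^ 13 := by norm_num
  have hqle : q ≤ 1 := le_trans hq1 (by norm_num)
  have hq6 : 0 < q ^ 6 := by positivity
  have hs7 : 10 ^ 67 * q ^ 7 ≤ 1 / 10 ^ 13 * q ^ 6 := by
    calc 10 ^ 67 * q ^ 7 = (10 ^ 67 * q) * q ^ 6 := by ring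
      _ ≤ 1 / 10 ^ 13 * q ^ 6 := by gcongr
  have hs8 : 10 ^ 67 * q ^ 8 ≤ 1 / 10 ^ 13 * q ^ 6 := by
    calc 10 ^ 67 * q ^ 8 = (10 ^ 67 * q) * q * q ^ 6 := by ring
      _ ≤ 1 / 10 ^ 13 * 1 * q ^ 6 := by gcongr
      _ = 1 / 10 ^ 13 * q ^ 6 := by ring
  have hH0 : 0 ≤ 10 ^ 67 * q ^ 8 := by positivity
  obtain ⟨i1, i2, i3, i4⟩ := d9_ind h N (by omega)
  refine ⟨?_, ?_, ?_, ?_, ?_⟩
  · have h1 : G * (G * gam ^ N) ≤ 2 * q * (1 * q ^ 2) := by
      have ha : G ≤ 2 * q := by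
        have : phi * q ≤ 2 * q := by gcongr; linarith
        linarith [h.G2]
      have hb : G * gam ^ N ≤ 1 * q ^ 2 := by
        have : 15 / 100 * phi * q ^ 2 ≤ 1 * q ^ 2 := by gcongr; linarith
        linarith
      gcongr
    have h2 : 7 / 5 * (2 * 10 ^ 66 * q ^ 6) * (G * (G * gam ^ N)) ≤ 1 / 10 ^ 10 * q ^ 8 := by
      calc 7 / 5 * (2 * 10 ^ 66 * q ^ 6) * (G * (G * gam ^ N))
          ≤ 7 / 5 * (2 * 10 ^ 66 * q ^ 6) * (2 * q * (1 * q ^ 2)) := by gcongr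
        _ = 56 / 100 * (10 ^ 67 * q) * q ^ 8 := by ring
        _ ≤ 56 / 100 * (1 / 10 ^ 13) * q ^ 8 := by gcongr
        _ ≤ 1 / 10 ^ 10 * q ^ 8 := mul_le_mul_of_nonneg_right (by norm_num) (by positivity)
    have h3 : phi ^ 2 * q ^ 8 / 60 ≤ 4364 / 100000 * q ^ 8 := by
      have h4 : phi ^ 2 / 60 ≤ 4364 / 100000 := by rw [hph2]; linarith
      calc phi ^ 2 * q ^ 8 / 60 = phi ^ 2 / 60 * q ^ 8 := by ring
        _ ≤ 4364 / 100000 * q ^ 8 := by gcongr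
    have h5 : 4364 / 100000 * q ^ 8 + 1 / 10 ^ 10 * q ^ 8 ≤ 44 / 1000 * q ^ 8 := by
      rw [← add_mul]
      exact mul_le_mul_of_nonneg_right (by norm_num) (by positivity)
    linarith
  · have h1 := d9_count h (by omega : N ≤ N + 12)
    have h2 : (N : ℝ) * (10 ^ 67 * q ^ 8 / 5) ≤ q ^ 6 / 10 := by
      calc (N : ℝ) * (10 ^ 67 * q ^ 8 / 5) = ((N : ℝ) * q) * (10 ^ 67 * q) * q ^ 6 / 5 := by ring
        _ ≤ 18 * (1 / 10 ^ 13) * q ^ 6 / 5 := by gcongr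
        _ ≤ q ^ 6 / 10 := by linarith
    linarith
  · have h1 : phi ^ (2 * N) * (G * gam ^ N) ^ 2 = G ^ 2 := by
      have : phi ^ (2 * N) * (gam ^ N) ^ 2 = 1 := by
        rw [← pow_mul, mul_comm N 2, ← mul_pow, mul_comm phi gam, d9_mul, one_pow]
      calc phi ^ (2 * N) * (G * gam ^ N) ^ 2 = G ^ 2 * (phi ^ (2 * N) * (gam ^ N) ^ 2) := by ring
        _ = G ^ 2 := by rw [this, mul_one]
    have h2 : phi ^ (2 * N) * (15 / 100 * q ^ 2) ^ 2 ≤ (phi * q) ^ 2 := by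
      calc phi ^ (2 * N) * (15 / 100 * q ^ 2) ^ 2 ≤ phi ^ (2 * N) * (G * gam ^ N) ^ 2 := by
            have := h.N1
            gcongr
        _ = G ^ 2 := h1
        _ ≤ (phi * q) ^ 2 := by
          have := h.G2.le
          gcongr
    have h3 : phi ^ (2 * N) * q ^ 2 ≤ 117 := by
      have h4 : (phi ^ (2 * N) * q ^ 2) * (225 / 10000 * q ^ 2) ≤ 117 * (225 / 10000 * q ^ 2) := by
        have : (phi * q) ^ 2 ≤ 117 * (225 / 10000 * q ^ 2) := by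
          have h5 : (phi * q) ^ 2 = phi ^ 2 * q ^ 2 := by ring
          rw [h5, hph2]
          have : (1 + phi) * q ^ 2 ≤ 26325 / 10000 * q ^ 2 := by gcongr; linarith
          linarith
        have h6 : (phi ^ (2 * N) * q ^ 2) * (225 / 10000 * q ^ 2) = phi ^ (2 * N) * (15 / 100 * q ^ 2) ^ 2 := by
          ring
        linarith
      exact le_of_mul_le_mul_right h4 (by positivity)
    have h4 : |P N| ≤ phi ^ (2 * N) * (21 * q ^ 6) := by
      have : phi ^ (2 * N) * (20 * q ^ 6 + 10 ^ 67 * q ^ 8) ≤ phi ^ (2 * N) * (21 * q ^ 6) := by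
        have h0 : 0 ≤ phi ^ (2 * N) := pow_nonneg hphi0.le _
        exact mul_le_mul_of_nonneg_left (by linarith) h0
      linarith
    calc |P N| ≤ phi ^ (2 * N) * (21 * q ^ 6) := h4
      _ = (phi ^ (2 * N) * q ^ 2) * (21 * q ^ 4) := by ring
      _ ≤ 117 * (21 * q ^ 4) := by gcongr
      _ = 117 * 21 * q ^ 4 := by ring
      _ ≤ 4000 * q ^ 4 := mul_le_mul_of_nonneg_right (by norm_num) (by positivity)
  · intro j hj
    obtain ⟨j1, j2, j3, -⟩ := d9_ind h j hj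
    obtain ⟨l1, l2, l3, -⟩ := d9_level h hj j1 j2 j3
    have h1 : 11 / 10 * (10 ^ 16 * (G * gam ^ j) ^ 2) ≤ q := by
      calc 11 / 10 * (10 ^ 16 * (G * gam ^ j) ^ 2) ≤ 11 / 10 * (10 ^ 16 * (2619 / 1000 * q ^ 2)) := by
            gcongr
        _ = (11 / 10 * 10 ^ 16 * (2619 / 1000) * q) * q := by ring
        _ ≤ 1 * q := by
          have : 11 / 10 * 10 ^ 16 * (2619 / 1000) * q ≤ 1 := by
            calc 11 / 10 * 10 ^ 16 * (2619 / 1000) * q ≤ 11 / 10 * 10 ^ 16 * (2619 / 1000) * (1 / 10 ^ 80) := by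
                  gcongr
              _ ≤ 1 := by norm_num
          gcongr
        _ = q := one_mul q
    have h2 : 0 ≤ 10 ^ 16 * (G * gam ^ j) ^ 2 := by positivity
    constructor <;> linarith
  · intro k hk
    obtain ⟨p1, p2, p3⟩ := d9_prop h k hk
    refine ⟨le_trans p1 ?_, le_trans p2 ?_, le_trans p3 ?_⟩
    · have h1 : phi ^ (2 * k) ≤ 10 ^ 4 := by
        calc phi ^ (2 * k) ≤ phi ^ 18 := pow_le_pow_right₀ (by linarith) (by omega)
          _ ≤ (161804 / 100000) ^ 18 := by gcongr; exact hp.2.le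
          _ ≤ 10 ^ 4 := by norm_num
      have h2 : (phi ^ (2 * k) - 1) * (10 ^ 67 * q ^ 8) ≤ 10 ^ 4 * (1 / 10 ^ 13 * q ^ 6) := by
        have h3 : phi ^ (2 * k) - 1 ≤ 10 ^ 4 := by linarith
        calc (phi ^ (2 * k) - 1) * (10 ^ 67 * q ^ 8) ≤ 10 ^ 4 * (10 ^ 67 * q ^ 8) :=
              mul_le_mul_of_nonneg_right h3 hH0
          _ ≤ 10 ^ 4 * (1 / 10 ^ 13 * q ^ 6) := by gcongr
      linarith
    · linarith
    · have h1 : (k : ℝ) ≤ 9 := by exact_mod_cast hk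
      calc (k : ℝ) * (10 ^ 67 * q ^ 8 / 5) ≤ 9 * (1 / 10 ^ 13 * q ^ 6 / 5) := by gcongr
        _ ≤ q ^ 6 := by linarith

theorem st_D9s (h6 : ST_D6) (h7 : ST_D7) : ST_D9s := by
  refine ⟨(1 / 10 ^ 80) ^ 4, by positivity, ?_⟩
  intro l E a b n c hl0 hl1 hb hnc hg1 hg2 hc1 hc2 hQ hR hP
  have hg := d9_gam
  have hgam0 : 0 < gam := by linarith [hg.1]
  have hphi0 : 0 < phi := by linarith [d9_phi.1]
  obtain ⟨N, rfl⟩ : ∃ N, c = n + N := ⟨c - n, by omega⟩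
  set q := Real.sqrt (Real.sqrt |l|) with hq
  have hs0 : 0 < Real.sqrt |l| := Real.sqrt_pos.mpr hl0
  have hq0 : 0 < q := Real.sqrt_pos.mpr hs0
  have hq2 : q ^ 2 = Real.sqrt |l| := Real.sq_sqrt hs0.le
  have hq4 : q ^ 4 = |l| := by
    calc q ^ 4 = (q ^ 2) ^ 2 := by ring
      _ = |l| := by rw [hq2]; exact Real.sq_sqrt hl0.le
  have hq8 : l ^ 2 = q ^ 8 := by
    calc l ^ 2 = |l| ^ 2 := (sq_abs l).symm
      _ = q ^ 8 := by rw [← hq4]; ring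
  have hq6 : |l| * Real.sqrt |l| = q ^ 6 := by rw [← hq2, ← hq4]; ring
  have hqle : q ≤ 1 / 10 ^ 80 := by
    by_contra hc
    push Not at hc
    have : (1 / 10 ^ 80 : ℝ) ^ 4 < q ^ 4 := by
      apply pow_lt_pow_left₀ hc (by positivity) (by norm_num)
    rw [hq4] at this
    linarith
  have hGN : |(b : ℝ)| * gam ^ (n + N) = |(b : ℝ)| * gam ^ n * gam ^ N := by rw [pow_add]; ring
  have hinv1 : ∀ x : ℝ, x / (5 * phi) = gam * x / 5 := by
    intro x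
    rw [div_eq_div_iff (by positivity) (by norm_num)]
    linear_combination (-5 * x) * d9_mul
  have hinv2 : ∀ x : ℝ, x / (5 * gam) = phi * x / 5 := by
    intro x
    rw [div_eq_div_iff (by positivity) (by norm_num)]
    linear_combination (-5 * x) * d9_mul
  have H : D9H q (|(b : ℝ)| * gam ^ n) N (fun k => mP l a b (n + k) E) (fun k => mQ l a b (n + k) E)
      (fun k => mR l a b (n + k) E) (fun k => ee l a b (n + k) E) (fun k => yy l a b (n + k) E)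
      (fun k => tt l a b (n + k) E) := by
    refine ⟨hq0, hqle, hg1, hg2, ?_, ?_, ?_, ?_, ?_, ?_, ?_, ?_, ?_, ?_, ?_, ?_⟩
    · rw [← hGN, hq2]; exact hc1
    · exact hQ
    · change |mR l a b n E| ≤ 30 * q ^ 4
      rw [hq4]; exact hR
    · change |mP l a b n E| ≤ 20 * q ^ 6
      rw [← hq6]; linarith
    · intro k; exact (h7 l E a b (n + k)).1
    · intro k; exact (h7 l E a b (n + k)).2.1
    · intro k; exact (h7 l E a b (n + k)).2.2.1
    · intro k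
      have := (h7 l E a b (n + k)).2.2.2.1
      change mP l a b (n + k + 1) E = phi ^ 2 * mP l a b (n + k) E + gam * ee l a b (n + k) E / 5
      rw [← hinv1]; exact this
    · intro k
      have := (h7 l E a b (n + k)).2.2.2.2.1
      change mQ l a b (n + k + 1) E = gam ^ 2 * mQ l a b (n + k) E - phi * ee l a b (n + k) E / 5
      rw [← hinv2]; exact this
    · intro k; exact (h7 l E a b (n + k)).2.2.2.2.2.1
    · intro k; rfl
    · intro k m hm ht1 ht2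
      have hl : |l| ≤ 1 / 100 := le_trans hl1 (by norm_num)
      have := (h6 l E a b (n + k)).2.2 m hm hl ht1 ht2
      rw [hq8] at this
      exact this
  obtain ⟨f1, f2, f3, f4, f5⟩ := d9s_fin H (by rw [← hGN, hq2]; exact hc2)
  refine ⟨?_, ?_, ?_, ?_, ?_⟩
  · rw [hq8, Nat.add_sub_cancel_left]; exact f1
  · rw [hq6]; exact f2
  · rw [← hq4]; exact f3
  · intro j hj1 hj2
    obtain ⟨i, rfl⟩ : ∃ i, j = n + i := ⟨j - n, by omega⟩
    exact f4 i (by omega)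
  · intro k hk
    rw [hq6, add_assoc]
    exact f5 k hk

end

end Pool.Agent.Helper36.CV
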