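import Pool.Agent.Helper57.CV.D8s
import Pool.Agent.Helper57.CV.D9s

/-!
# MP_e5aeaf_mp, block D, module D13: lower bound for the heights of the gaps
-/

set_option autoImplicit false

namespace Pool.Agent.Helper36.CV

open Complex

theorem d13_sqrt5 : (2236 : ℝ) / 1000 < Real.sqrt 5 ∧ Real.sqrt 5 < 22361 / 10000 ∧
    Real.sqrt 5 ^ 2 = 5 := by
  refine ⟨?_, ?_, Real.sq_sqrt (by norm_num)⟩
  · apply Real.lt_sqrt_of_sq_lt
    norm_num
  · rw [Real.sqrt_lt' (by norm_num)]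
    norm_num

theorem d13_gam : (618 : ℝ) / 1000 < gam ∧ gam < 61805 / 100000 ∧ gam ^ 2 = 1 - gam ∧
    gam * phi = 1 ∧ phi = 1 + gam ∧ phi ^ 2 = 1 + phi ∧ (1618 : ℝ) / 1000 < phi ∧
    phi < 161805 / 100000 := by
  obtain ⟨h1, h2, h3⟩ := d13_sqrt5
  refine ⟨?_, ?_, ?_, ?_, ?_, ?_, ?_, ?_⟩
  · unfold gam; linarith
  · unfold gam; linarith
  · unfold gam; nlinarith
  · unfold gam phi; nlinarith
  · unfold gam phi; ring
  · unfold phi; nlinarith
  · unfold phi; linarith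
  · unfold phi; linarith

/-- the level where `|b| gam^n` passes `x` -/
theorem d13_level (b : ℤ) (hb : b ≠ 0) (x : ℝ) (hx : 0 < x) (hx1 : x ≤ 1) :
    ∃ n : ℕ, x ≤ |(b : ℝ)| * gam ^ n ∧ |(b : ℝ)| * gam ^ n < phi * x := by
  obtain ⟨g1, g2, -, g4, -, -, p1, -⟩ := d13_gam
  have hb1 : (1 : ℝ) ≤ |(b : ℝ)| := by
    have := Int.one_le_abs hb
    exact_mod_cast this
  have hbpos : (0 : ℝ) < |(b : ℝ)| := by linarith
  obtain ⟨n, h1, h2⟩ := exists_nat_pow_near_of_lt_one (x := x / |(b : ℝ)|) (y := gam)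
    (div_pos hx hbpos) ((div_le_one hbpos).mpr (by linarith)) (by linarith) (by linarith)
  refine ⟨n, ?_, ?_⟩
  · rw [div_le_iff₀ hbpos] at h2
    linarith
  · rw [lt_div_iff₀ hbpos] at h1
    have h3 : phi * (gam ^ (n + 1) * |(b : ℝ)|) < phi * x :=
      mul_lt_mul_of_pos_left h1 (by linarith)
    have h4 : phi * (gam ^ (n + 1) * |(b : ℝ)|) = |(b : ℝ)| * gam ^ n := by
      rw [pow_succ]
      linear_combination (gam ^ n * |(b : ℝ)|) * g4
    linarith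

theorem d13_pp (a b : ℤ) (n : ℕ) :
    ((pp a b (n + 1) : ℤ) : ℝ) + gam * (pp a b n : ℤ) = phi ^ n * ((a : ℝ) + b * gam) := by
  obtain ⟨-, -, -, g4, g5, -, -, -⟩ := d13_gam
  induction n with
  | zero =>
    simp only [pp, pow_zero, one_mul]
    ring
  | succ k ih =>
    have h1 : pp a b (k + 1 + 1) = pp a b (k + 1) + pp a b k := rfl
    rw [h1, pow_succ]
    push_cast
    linear_combination phi * ih - (pp a b k : ℝ) * g4 + (-(pp a b (k + 1) : ℝ)) * g5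

theorem d13_fib (n : ℕ) : (Nat.fib (n + 1) : ℝ) + gam * (Nat.fib n : ℝ) = phi ^ n := by
  obtain ⟨-, -, -, g4, g5, -, -, -⟩ := d13_gam
  induction n with
  | zero => simp
  | succ k ih =>
    have h1 : Nat.fib (k + 1 + 1) = Nat.fib k + Nat.fib (k + 1) := Nat.fib_add_two
    rw [h1, pow_succ]
    push_cast
    linear_combination phi * ih - (Nat.fib k : ℝ) * g4 + (-(Nat.fib (k + 1) : ℝ)) * g5

/-- existence of an energy with `a_n = 0` -/
theorem d13_a0 (h6 : ST_T6) (h9 : ST_T9) (l : ℝ) (hl : 0 < |l|) (hl1 : |l| ≤ 1 / 100) (a b : ℤ)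
    (n : ℕ) (h0 : 0 < (a : ℝ) + b * gam) (h1 : (a : ℝ) + b * gam < 1) :
    ∃ E : ℝ, aa l a b n E = 0 := by
  obtain ⟨-, -, -, -, -, -, p1, -⟩ := d13_gam
  have hphi : 0 < phi ^ n := pow_pos (by linarith) n
  have hform : ∀ E : ℝ, aa l a b n E =
      (Th l (n + 1) E + gam * Th l n E) / Real.pi - phi ^ n * ((a : ℝ) + b * gam) := by
    intro E
    rw [← d13_pp]
    unfold aa rr
    ring
  have hcont : Continuous (fun E => aa l a b n E) := by
    have h2 := (h6 l hl hl1 (n + 1)).1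
    have h3 := (h6 l hl hl1 n).1
    have : (fun E => aa l a b n E) = fun E =>
        (Th l (n + 1) E + gam * Th l n E) / Real.pi - phi ^ n * ((a : ℝ) + b * gam) := by
      funext E
      exact hform E
    rw [this]
    exact ((h2.add (continuous_const.mul h3)).div_const _).sub continuous_const
  have hpos : 0 ≤ aa l a b n (-(2 + |l|)) := by
    rw [hform, (h9 l hl hl1 (n + 1) _).2.1 le_rfl, (h9 l hl hl1 n _).2.1 le_rfl]
    have h4 : (Real.pi * (Nat.fib (n + 1) : ℝ) + gam * (Real.pi * (Nat.fib n : ℝ))) / Real.pi =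
        phi ^ n := by
      rw [← d13_fib]
      field_simp
    rw [h4]
    nlinarith
  have hneg : aa l a b n (2 + |l|) ≤ 0 := by
    rw [hform, (h9 l hl hl1 (n + 1) _).1 le_rfl, (h9 l hl hl1 n _).1 le_rfl]
    have : 0 < phi ^ n * ((a : ℝ) + b * gam) := mul_pos hphi h0
    simp only [mul_zero, add_zero, zero_div, zero_sub]
    linarith
  obtain ⟨E, hE⟩ := mem_range_of_exists_le_of_exists_ge hcont ⟨_, hneg⟩ ⟨_, hpos⟩
  exact ⟨E, hE⟩

/-- pure numbers, first part -/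
theorem d13_num1 (L K G P Q R S : ℝ) (hL : 0 < L) (hL0 : L ≤ 1 / 10 ^ 24) (hK1 : 986 / 100 ≤ K)
    (hK2 : K ≤ 987 / 100) (hG1 : 225 / 10000 * L ≤ G) (hG2 : G ≤ 59 / 1000 * L)
    (hQ : |Q - G * (K / 2)| ≤ G * (K / 2) * (181 / 10) * L + 44 / 1000 * L ^ 2)
    (hR1 : |R| ≤ L / 100) (hP : |P| ≤ 4000 * L)
    (c1 c2 : ℝ) (hc1 : 0 ≤ c1) (hc1' : c1 ≤ 10473 / 1000) (hc2 : 0 ≤ c2) (hc2' : c2 ≤ 2)
    (hS : S = c1 * P + c2 * Q + R) :
    11 / 100 * L ≤ Q ∧ Q ≤ 3 / 10 * L ∧ |S| ≤ 50000 * L := by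
  have hGpos : 0 < G := by linarith
  have hL2 : L ^ 2 ≤ 1 / 10 ^ 24 * L := by
    have := mul_le_mul_of_nonneg_right hL0 hL.le
    linarith [pow_two L]
  obtain ⟨q1, q2⟩ := abs_le.mp hQ
  have hGK1 : 225 / 10000 * L * (986 / 100) ≤ G * K :=
    mul_le_mul hG1 hK1 (by norm_num) hGpos.le
  have hGK2 : G * K ≤ 59 / 1000 * L * (987 / 100) :=
    mul_le_mul hG2 hK2 (by linarith) (by linarith)
  have hGKL : G * K * L ≤ 1 / 10 ^ 20 * L := by
    have h1 : G * K * L ≤ 59 / 1000 * L * (987 / 100) * L :=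
      mul_le_mul_of_nonneg_right hGK2 hL.le
    have h2 : 59 / 1000 * L * (987 / 100) * L = 59 / 1000 * (987 / 100) * L ^ 2 := by ring
    rw [h2] at h1
    have h3 : (59 : ℝ) / 1000 * (987 / 100) * L ^ 2 ≤ 59 / 1000 * (987 / 100) *
        (1 / 10 ^ 24 * L) := mul_le_mul_of_nonneg_left hL2 (by norm_num)
    norm_num at h1 h3 ⊢
    linarith
  have hQ1 : 11 / 100 * L ≤ Q := by
    norm_num at hGK1 hGKL hL2
    linarith
  have hQ2 : Q ≤ 3 / 10 * L := by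
    norm_num at hGK2 hGKL hL2
    linarith
  obtain ⟨r1, r2⟩ := abs_le.mp hR1
  refine ⟨hQ1, hQ2, ?_⟩
  have h1 : |c1 * P| ≤ 10473 / 1000 * (4000 * L) := by
    rw [abs_mul, abs_of_nonneg hc1]
    exact mul_le_mul hc1' hP (abs_nonneg _) (by norm_num)
  have h2 : |c2 * Q| ≤ 2 * (3 / 10 * L) := by
    rw [abs_mul, abs_of_nonneg hc2, abs_of_nonneg (by linarith : (0 : ℝ) ≤ Q)]
    exact mul_le_mul hc2' hQ2 (by linarith) (by norm_num)
  obtain ⟨a1, a2⟩ := abs_le.mp h1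
  obtain ⟨a3, a4⟩ := abs_le.mp h2
  rw [hS, abs_le]
  constructor <;> linarith

theorem d13_num2 (L P Q R S : ℝ) (hL : 0 < L) (hL0 : L ≤ 1 / 10 ^ 24)
    (hR : R ^ 2 ≤ 4 / 100 * L ^ 3) (hQ1 : 11 / 100 * L ≤ Q) (hQ2 : Q ≤ 3 / 10 * L)
    (hS1 : |S| ≤ 50000 * L)
    (h7 : |5 * (R ^ 2 - 4 * P * Q) - L ^ 2 / 4 * (1 + S / 3)| ≤
      40 * (30000 * L) ^ 4 + 10 * L ^ 2 * (30000 * L) ^ 2) :
    -(12 / 100) * L ≤ P ∧ P ≤ -(4 / 100) * L ∧
    L ^ 2 / 4 * (1 + S / 3) - L ^ 3 / 1000 - 5 * R ^ 2 ≤ -(20 * P * Q) := by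
  have hrem : 40 * (30000 * L) ^ 4 + 10 * L ^ 2 * (30000 * L) ^ 2 ≤ L ^ 3 / 1000 := by
    have h1 : 40 * (30000 * L) ^ 4 + 10 * L ^ 2 * (30000 * L) ^ 2 =
      (40 * 30000 ^ 4 + 10 * 30000 ^ 2) * L * L ^ 3 := by ring
    rw [h1]
    have h2 : (40 * 30000 ^ 4 + 10 * 30000 ^ 2) * L ≤ 1 / 1000 := by
      have : (40 * 30000 ^ 4 + 10 * 30000 ^ 2) * L ≤ (40 * 30000 ^ 4 + 10 * 30000 ^ 2) *
        (1 / 10 ^ 24) := by
        apply mul_le_mul_of_nonneg_left hL0 (by norm_num)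
      refine this.trans ?_
      norm_num
    have h3 : 0 ≤ L ^ 3 := by positivity
    have h4 := mul_le_mul_of_nonneg_right h2 h3
    linarith
  obtain ⟨t1, t2⟩ := abs_le.mp (h7.trans hrem)
  have hL2p : 0 < L ^ 2 := by positivity
  have hL3 : L ^ 3 ≤ 1 / 10 ^ 24 * L ^ 2 := by
    have := mul_le_mul_of_nonneg_right hL0 hL2p.le
    have h5 : L * L ^ 2 = L ^ 3 := by ring
    linarith
  have hLS : |L ^ 2 / 4 * (S / 3)| ≤ 5000 * L ^ 3 := by
    have h6 : L ^ 2 / 4 * (S / 3) = L ^ 2 / 12 * S := by ring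
    rw [h6, abs_mul, abs_of_nonneg (by positivity : (0 : ℝ) ≤ L ^ 2 / 12)]
    have h7 := mul_le_mul_of_nonneg_left hS1 (by positivity : (0 : ℝ) ≤ L ^ 2 / 12)
    have h8 : 0 < L ^ 3 := by positivity
    have h9 : L ^ 2 / 12 * (50000 * L) = 50000 / 12 * L ^ 3 := by ring
    rw [h9] at h7
    linarith
  obtain ⟨u1, u2⟩ := abs_le.mp hLS
  have hR0 : 0 ≤ R ^ 2 := by positivity
  have e1 : L ^ 2 / 4 * (1 + S / 3) = L ^ 2 / 4 + L ^ 2 / 4 * (S / 3) := by ring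
  rw [e1] at t1 t2 ⊢
  norm_num at hL3
  have hPQ1 : -(20 * P * Q) ≤ 2501 / 10000 * L ^ 2 := by
    linarith
  have hPQ2 : 2499 / 10000 * L ^ 2 ≤ -(20 * P * Q) := by
    linarith
  have hQpos : 0 < Q := by linarith
  have hPneg : P < 0 := by
    by_contra hcon
    push Not at hcon
    have : 0 ≤ P * Q := mul_nonneg hcon hQpos.le
    linarith
  have hP1 : -(12 / 100) * L ≤ P := by
    have h1 : -P * (11 / 100 * L) ≤ -P * Q := mul_le_mul_of_nonneg_left hQ1 (by linarith)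
    by_contra hcon
    push Not at hcon
    have h2 : 12 / 100 * L * (11 / 100 * L) ≤ -P * (11 / 100 * L) :=
      mul_le_mul_of_nonneg_right (by linarith) (by positivity)
    have h3 : 12 / 100 * L * (11 / 100 * L) = 132 / 10000 * L ^ 2 := by ring
    rw [h3] at h2
    linarith
  have hP2 : P ≤ -(4 / 100) * L := by
    have h1 : -P * Q ≤ -P * (3 / 10 * L) := mul_le_mul_of_nonneg_left hQ2 (by linarith)
    by_contra hcon
    push Not at hcon
    have h2 : -P * (3 / 10 * L) ≤ 4 / 100 * L * (3 / 10 * L) :=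
      mul_le_mul_of_nonneg_right (by linarith) (by positivity)
    have h3 : 4 / 100 * L * (3 / 10 * L) = 12 / 1000 * L ^ 2 := by ring
    rw [h3] at h2
    linarith
  exact ⟨hP1, hP2, by linarith⟩

theorem d13_num3 (L K G P Q R S : ℝ) (hL : 0 < L) (hL0 : L ≤ 1 / 10 ^ 24) (hK1 : 986 / 100 ≤ K)
    (hK2 : K ≤ 987 / 100) (hG1 : 225 / 10000 * L ≤ G) (hG2 : G ≤ 59 / 1000 * L)
    (hQ : |Q - G * (K / 2)| ≤ G * (K / 2) * (181 / 10) * L + 44 / 1000 * L ^ 2)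
    (hR : R ^ 2 ≤ 4 / 100 * L ^ 3) (hR1 : |R| ≤ L / 100) (hQ1 : 11 / 100 * L ≤ Q)
    (c1 c2 : ℝ) (hc1' : c1 ≤ 10473 / 1000) (hc2 : 0 ≤ c2)
    (hS : S = c1 * P + c2 * Q + R) (hP1 : -(12 / 100) * L ≤ P) (hP2 : P ≤ -(4 / 100) * L)
    (hPQ : L ^ 2 / 4 * (1 + S / 3) - L ^ 3 / 1000 - 5 * R ^ 2 ≤ -(20 * P * Q)) :
    ∀ W : ℝ, |W + 10 * P| ≤ 1 / 10 * L ^ 2 → L ^ 2 * (1 - 12 * L) ^ 2 ≤ 4 * K * (G * W) := by
  intro W hW
  have hGpos : 0 < G := by linarith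
  have hL2p : 0 < L ^ 2 := by positivity
  have hL3p : 0 < L ^ 3 := by positivity
  obtain ⟨q1, q2⟩ := abs_le.mp hQ
  obtain ⟨w1, w2⟩ := abs_le.mp hW
  obtain ⟨r1, r2⟩ := abs_le.mp hR1
  -- lower bound for `S`
  have hS3 : -(45 / 100) * L ≤ S / 3 := by
    have h1 : -(10473 / 1000) * (12 / 100 * L) ≤ c1 * P := by
      have h2 : c1 * (-P) ≤ 10473 / 1000 * (12 / 100 * L) := by
        apply mul_le_mul hc1' (by linarith) (by linarith) (by norm_num)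
      linarith
    have h3 : 0 ≤ c2 * Q := mul_nonneg hc2 (by linarith)
    rw [hS]
    linarith
  have hmain : L ^ 2 / 4 * (1 - 13 / 10 * L) ≤ 2 * Q * (-(10 * P)) := by
    have h1 : L ^ 2 / 4 * (-(45 / 100) * L) ≤ L ^ 2 / 4 * (S / 3) :=
      mul_le_mul_of_nonneg_left hS3 (by positivity)
    have e1 : L ^ 2 / 4 * (-(45 / 100) * L) = -(45 / 400) * L ^ 3 := by ring
    have e2 : L ^ 2 / 4 * (1 + S / 3) = L ^ 2 / 4 + L ^ 2 / 4 * (S / 3) := by ring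
    have e3 : L ^ 2 / 4 * (1 - 13 / 10 * L) = L ^ 2 / 4 - 13 / 40 * L ^ 3 := by ring
    have e4 : 2 * Q * (-(10 * P)) = -(20 * P * Q) := by ring
    rw [e1] at h1
    rw [e2] at hPQ
    rw [e3, e4]
    linarith
  have hGK1 : 225 / 10000 * L * (986 / 100) ≤ G * K :=
    mul_le_mul hG1 hK1 (by norm_num) hGpos.le
  have h2Q : 2 * Q ≤ K * G * (1 + 185 / 10 * L) := by
    have h1 : 225 / 10000 * L * (986 / 100) * L ≤ G * K * L :=
      mul_le_mul_of_nonneg_right hGK1 hL.le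
    have e1 : 225 / 10000 * L * (986 / 100) * L = 225 / 10000 * (986 / 100) * L ^ 2 := by ring
    have e2 : K * G * (1 + 185 / 10 * L) = G * K + 185 / 10 * (G * K * L) := by ring
    have e3 : G * (K / 2) * (181 / 10) * L = 181 / 20 * (G * K * L) := by ring
    rw [e1] at h1
    rw [e2]
    rw [e3] at q2
    linarith
  have h10P : 0 < -(10 * P) := by linarith
  have hstep : L ^ 2 / 4 * (1 - 13 / 10 * L) ≤ K * G * (1 + 185 / 10 * L) * (-(10 * P)) :=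
    hmain.trans (mul_le_mul_of_nonneg_right h2Q h10P.le)
  have hKG : 0 < K * G := mul_pos (by linarith) hGpos
  have hLs : L ≤ 1 / 1000 := by
    refine hL0.trans ?_
    norm_num
  have hX : L ^ 2 / 4 * (1 - 13 / 10 * L) * (1 - 185 / 10 * L) ≤ K * G * (-(10 * P)) := by
    have h1 : L ^ 2 / 4 * (1 - 13 / 10 * L) * (1 - 185 / 10 * L) ≤
        K * G * (1 + 185 / 10 * L) * (-(10 * P)) * (1 - 185 / 10 * L) :=
      mul_le_mul_of_nonneg_right hstep (by linarith)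
    have h2 : K * G * (1 + 185 / 10 * L) * (-(10 * P)) * (1 - 185 / 10 * L) =
      K * G * (-(10 * P)) - K * G * (-(10 * P)) * (185 / 10 * L) ^ 2 := by ring
    have h3 : 0 ≤ K * G * (-(10 * P)) * (185 / 10 * L) ^ 2 := by positivity
    linarith
  have hGW : K * G * (-(10 * P)) - K * G * (1 / 10 * L ^ 2) ≤ K * (G * W) := by
    have h1 : K * G * (-(10 * P) - 1 / 10 * L ^ 2) ≤ K * G * W :=
      mul_le_mul_of_nonneg_left (by linarith) hKG.le
    have e1 : K * G * (-(10 * P) - 1 / 10 * L ^ 2) =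
      K * G * (-(10 * P)) - K * G * (1 / 10 * L ^ 2) := by ring
    have e2 : K * G * W = K * (G * W) := by ring
    linarith
  have hKGL : K * G * (1 / 10 * L ^ 2) ≤ 6 / 100 * L ^ 3 := by
    have h1 : K * G ≤ 987 / 100 * (59 / 1000 * L) :=
      mul_le_mul hK2 hG2 hGpos.le (by norm_num)
    have h2 := mul_le_mul_of_nonneg_right h1 (by positivity : (0 : ℝ) ≤ 1 / 10 * L ^ 2)
    have e1 : 987 / 100 * (59 / 1000 * L) * (1 / 10 * L ^ 2) =
      987 / 100 * (59 / 1000) * (1 / 10) * L ^ 3 := by ring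
    rw [e1] at h2
    linarith
  have hfin : L ^ 2 * (1 - 12 * L) ^ 2 ≤
      4 * (L ^ 2 / 4 * (1 - 13 / 10 * L) * (1 - 185 / 10 * L)) - 4 * (6 / 100 * L ^ 3) := by
    have h4 : L ^ 4 ≤ 1 / 1000 * L ^ 3 := by
      have := mul_le_mul_of_nonneg_right hLs hL3p.le
      have e1 : L * L ^ 3 = L ^ 4 := by ring
      linarith
    have e1 : L ^ 2 * (1 - 12 * L) ^ 2 = L ^ 2 - 24 * L ^ 3 + 144 * L ^ 4 := by ring
    have e2 : 4 * (L ^ 2 / 4 * (1 - 13 / 10 * L) * (1 - 185 / 10 * L)) =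
      L ^ 2 - 198 / 10 * L ^ 3 + 13 * 185 / 100 * L ^ 4 := by ring
    have h5 : 0 < L ^ 4 := by positivity
    rw [e1, e2]
    linarith
  linarith

theorem d13_Dpi (h6 : ST_T6) (l E : ℝ) (n : ℕ) (hl : 0 < |l|) (hl1 : |l| ≤ 1 / 100) :
    |D l n E / Real.pi| ≤ Real.sqrt |l| / 3 := by
  have h1 := ((h6 l hl hl1 n).2.2 E).2.1
  have hpi : (303 : ℝ) / 100 ≤ Real.pi := by linarith [Real.pi_gt_d2]
  rw [abs_div, abs_of_pos Real.pi_pos, div_le_div_iff₀ Real.pi_pos (by norm_num)]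
  have h2 : 0 ≤ Real.sqrt |l| := Real.sqrt_nonneg _
  have h3 : Real.sqrt |l| * (303 / 100) ≤ Real.sqrt |l| * Real.pi :=
    mul_le_mul_of_nonneg_left hpi h2
  linarith

theorem d13_ab (h6 : ST_T6) (h1 : ST_D1) (l E : ℝ) (a b : ℤ) (n : ℕ) (hl : 0 < |l|)
    (hl1 : |l| ≤ 1 / 100) (ha : aa l a b n E = 0) (hr : |rr l a b n E| < 1) (k : ℕ) :
    |aa l a b (n + k) E| ≤ Real.sqrt |l| * (phi ^ k - 1) ∧
    |bb l a b (n + k) E| ≤ 3 * gam ^ k + Real.sqrt |l| := by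
  obtain ⟨g1, g2, -, g4, g5, -, p1, p2⟩ := d13_gam
  obtain ⟨s1, s2, -⟩ := d13_sqrt5
  have ht : 0 ≤ Real.sqrt |l| := Real.sqrt_nonneg _
  induction k with
  | zero =>
    refine ⟨by simp [ha], ?_⟩
    have h2 := (h1 l E a b n).2.2.1
    rw [ha, zero_sub] at h2
    have h3 : |bb l a b n E| = Real.sqrt 5 * |rr l a b n E| := by
      have : bb l a b n E = -(Real.sqrt 5 * rr l a b n E) := by linarith
      rw [this, abs_neg, abs_mul, abs_of_pos (by linarith)]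
    simp only [add_zero, pow_zero]
    rw [h3]
    have h4 : Real.sqrt 5 * |rr l a b n E| ≤ 3 * 1 :=
      mul_le_mul (by linarith) hr.le (abs_nonneg _) (by norm_num)
    linarith
  | succ k ih =>
    obtain ⟨ih1, ih2⟩ := ih
    obtain ⟨e1, e2, -, -, -⟩ := h1 l E a b (n + k)
    have hD := d13_Dpi h6 l E (n + k) hl hl1
    rw [← add_assoc, e1, e2]
    constructor
    · have h2 : |phi * aa l a b (n + k) E| ≤ phi * (Real.sqrt |l| * (phi ^ k - 1)) := by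
        rw [abs_mul, abs_of_pos (by linarith : (0 : ℝ) < phi)]
        exact mul_le_mul_of_nonneg_left ih1 (by linarith)
      have h3 := abs_add_le (phi * aa l a b (n + k) E) (D l (n + k) E / Real.pi)
      have h4 : phi * (Real.sqrt |l| * (phi ^ k - 1)) =
          Real.sqrt |l| * (phi ^ (k + 1) - 1) - Real.sqrt |l| * (phi - 1) := by
        rw [pow_succ]; ring
      have h5 : Real.sqrt |l| * (1 / 3) ≤ Real.sqrt |l| * (phi - 1) :=
        mul_le_mul_of_nonneg_left (by linarith) ht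
      linarith
    · have h2 : |-gam * bb l a b (n + k) E| ≤ gam * (3 * gam ^ k + Real.sqrt |l|) := by
        rw [abs_mul, abs_neg, abs_of_pos (by linarith : (0 : ℝ) < gam)]
        exact mul_le_mul_of_nonneg_left ih2 (by linarith)
      have h3 := abs_add_le (-gam * bb l a b (n + k) E) (D l (n + k) E / Real.pi)
      have h4 : gam * (3 * gam ^ k + Real.sqrt |l|) =
          3 * gam ^ (k + 1) + Real.sqrt |l| * gam := by
        rw [pow_succ]; ring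
      have h5 : Real.sqrt |l| * gam ≤ Real.sqrt |l| * (62 / 100) :=
        mul_le_mul_of_nonneg_left (by linarith) ht
      linarith

theorem d13_rr (h6 : ST_T6) (h1 : ST_D1) (l E : ℝ) (a b : ℤ) (n k : ℕ) (hl : 0 < |l|)
    (hl1 : |l| ≤ 1 / 10 ^ 24) (ha : aa l a b n E = 0) (hr : |rr l a b n E| < 1)
    (hn1 : Real.sqrt (Real.sqrt |l|) ≤ |(b : ℝ)| * gam ^ n)
    (hn2 : |(b : ℝ)| * gam ^ n < phi * Real.sqrt (Real.sqrt |l|))
    (hc1 : 15 / 100 * Real.sqrt |l| ≤ |(b : ℝ)| * gam ^ (n + k))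
    (hc2 : |(b : ℝ)| * gam ^ (n + k) < 15 / 100 * phi * Real.sqrt |l|) :
    ∀ j, n + k ≤ j → j ≤ n + k + 2 → |rr l a b j E| < 1 / 4 := by
  obtain ⟨g1, g2, -, g4, g5, -, p1, p2⟩ := d13_gam
  obtain ⟨s1, s2, -⟩ := d13_sqrt5
  have hl2 : |l| ≤ 1 / 100 := hl1.trans (by norm_num)
  have ht0 : 0 < Real.sqrt |l| := Real.sqrt_pos.mpr hl
  have hs0 : 0 < Real.sqrt (Real.sqrt |l|) := Real.sqrt_pos.mpr ht0
  have ht1 : Real.sqrt |l| ≤ 1 / 10 ^ 12 := by
    rw [Real.sqrt_le_iff]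
    refine ⟨by norm_num, hl1.trans (by norm_num)⟩
  have hs1 : Real.sqrt (Real.sqrt |l|) ≤ 1 / 10 ^ 6 := by
    rw [Real.sqrt_le_iff]
    refine ⟨by norm_num, ht1.trans (by norm_num)⟩
  have hs2 : Real.sqrt (Real.sqrt |l|) ^ 2 = Real.sqrt |l| := Real.sq_sqrt ht0.le
  set s := Real.sqrt (Real.sqrt |l|) with hs
  set t := Real.sqrt |l| with ht
  obtain ⟨ha1, hb1⟩ := d13_ab h6 h1 l E a b n hl hl2 ha hr k
  rw [← ht] at ha1 hb1
  have hts : t ≤ s / 1000 := by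
    rw [← hs2, pow_two]
    have : s * s ≤ s * (1 / 10 ^ 6) := mul_le_mul_of_nonneg_left hs1 hs0.le
    norm_num at this
    linarith
  have hk1 : (gam * phi) ^ k = 1 := by rw [g4, one_pow]
  rw [mul_pow] at hk1
  have hphik : 0 < phi ^ k := pow_pos (by linarith) k
  have hgamk : 0 < gam ^ k := pow_pos (by linarith) k
  -- t phi^k
  have h2 : t * phi ^ k ≤ 11 * s := by
    have h3 : 15 / 100 * t * phi ^ k ≤ |(b : ℝ)| * gam ^ (n + k) * phi ^ k :=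
      mul_le_mul_of_nonneg_right hc1 hphik.le
    have h4 : |(b : ℝ)| * gam ^ (n + k) * phi ^ k = |(b : ℝ)| * gam ^ n := by
      rw [pow_add]
      linear_combination (|(b : ℝ)| * gam ^ n) * hk1
    have h5 : phi * s ≤ 165 / 100 * s := mul_le_mul_of_nonneg_right (by linarith) hs0.le
    rw [h4] at h3
    linarith
  have h3 : gam ^ k ≤ s := by
    have h4 : s * gam ^ k ≤ |(b : ℝ)| * gam ^ n * gam ^ k :=
      mul_le_mul_of_nonneg_right hn1 hgamk.le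
    have h5 : |(b : ℝ)| * gam ^ n * gam ^ k = |(b : ℝ)| * gam ^ (n + k) := by
      rw [pow_add]; ring
    have h6 : 15 / 100 * phi * t ≤ 1 * t :=
      mul_le_mul_of_nonneg_right (by linarith) ht0.le
    rw [h5] at h4
    have h7 : s * gam ^ k ≤ s * s := by
      rw [← pow_two, hs2]
      linarith
    exact le_of_mul_le_mul_left h7 hs0
  have ha2 : |aa l a b (n + k) E| ≤ 11 * s := by
    have : t * (phi ^ k - 1) = t * phi ^ k - t := by ring
    linarith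
  have hb2 : |bb l a b (n + k) E| ≤ 4 * s := by linarith
  obtain ⟨a1, a2⟩ := abs_le.mp ha2
  obtain ⟨b1, b2⟩ := abs_le.mp hb2
  obtain ⟨-, -, e3, e4, -⟩ := h1 l E a b (n + k)
  have hs5 : |Real.sqrt 5 * rr l a b (n + k) E| ≤ 15 * s := by
    rw [e3, abs_le]
    constructor <;> linarith
  have hs6 : |Real.sqrt 5 * rr l a b (n + k + 1) E| ≤ 22 * s := by
    rw [e4]
    have h5 : |phi * aa l a b (n + k) E| ≤ 162 / 100 * (11 * s) := by
      rw [abs_mul, abs_of_pos (by linarith : (0 : ℝ) < phi)]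
      exact mul_le_mul (by linarith) ha2 (abs_nonneg _) (by norm_num)
    have h6 : |gam * bb l a b (n + k) E| ≤ 62 / 100 * (4 * s) := by
      rw [abs_mul, abs_of_pos (by linarith : (0 : ℝ) < gam)]
      exact mul_le_mul (by linarith) hb2 (abs_nonneg _) (by norm_num)
    have h7 := abs_add_le (phi * aa l a b (n + k) E) (gam * bb l a b (n + k) E)
    linarith
  rw [abs_mul, abs_of_pos (by linarith : (0 : ℝ) < Real.sqrt 5)] at hs5 hs6
  have hr0 : |rr l a b (n + k) E| ≤ 15 * s := by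
    have : 1 * |rr l a b (n + k) E| ≤ Real.sqrt 5 * |rr l a b (n + k) E| :=
      mul_le_mul_of_nonneg_right (by linarith) (abs_nonneg _)
    linarith
  have hr1 : |rr l a b (n + k + 1) E| ≤ 22 * s := by
    have : 1 * |rr l a b (n + k + 1) E| ≤ Real.sqrt 5 * |rr l a b (n + k + 1) E| :=
      mul_le_mul_of_nonneg_right (by linarith) (abs_nonneg _)
    linarith
  have hr2 : |rr l a b (n + k + 2) E| ≤ 38 * s := by
    have e : rr l a b (n + k + 2) E = rr l a b (n + k + 1) E + rr l a b (n + k) E +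
        D l (n + k) E / Real.pi := by
      have e1 : Th l (n + k + 2) E = Th l (n + k + 1) E + Th l (n + k) E + D l (n + k) E := rfl
      have e2 : pp a b (n + k + 2) = pp a b (n + k + 1) + pp a b (n + k) := rfl
      unfold rr
      rw [e1, e2]
      push_cast
      ring
    rw [e]
    have hD := d13_Dpi h6 l E (n + k) hl hl2
    rw [← ht] at hD
    have h7 := abs_add_three (rr l a b (n + k + 1) E) (rr l a b (n + k) E)
      (D l (n + k) E / Real.pi)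
    linarith
  intro j hj1 hj2
  have hj : j = n + k ∨ j = n + k + 1 ∨ j = n + k + 2 := by omega
  norm_num at hs1
  rcases hj with rfl | rfl | rfl
  · linarith
  · linarith
  · linarith

theorem d13_end (B L y : ℝ) (c : ℕ) (hB : 0 ≤ B) (hL : 0 < L) (hy : 0 ≤ y)
    (hfin : L ^ 2 * (1 - 12 * L) ^ 2 ≤
      4 * Real.pi ^ 2 * ((B * gam ^ c) ^ 2 * (phi ^ (2 * c) * y ^ 2))) :
    L / (2 * Real.pi) * (1 - 12 * L) ≤ B * y := by
  have g4 := d13_gam.2.2.2.1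
  have hGW : (B * gam ^ c) ^ 2 * (phi ^ (2 * c) * y ^ 2) = (B * y) ^ 2 := by
    have h2 : (gam * phi) ^ (2 * c) = 1 := by rw [g4, one_pow]
    rw [mul_pow] at h2
    have h3 : (gam ^ c) ^ 2 = gam ^ (2 * c) := by rw [← pow_mul, mul_comm]
    rw [mul_pow, h3]
    linear_combination (B ^ 2 * y ^ 2) * h2
  rw [hGW] at hfin
  by_contra hcon
  push Not at hcon
  have h2 := pow_lt_pow_left₀ hcon (by positivity) two_ne_zero
  have hpi := Real.pi_pos
  have h3 : (L / (2 * Real.pi) * (1 - 12 * L)) ^ 2 * (4 * Real.pi ^ 2) =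
      L ^ 2 * (1 - 12 * L) ^ 2 := by
    field_simp
    ring
  have h4 := mul_lt_mul_of_pos_right h2 (by positivity : 0 < 4 * Real.pi ^ 2)
  rw [h3] at h4
  linarith

theorem d13_c : 1 + phi ^ 2 + phi ^ 4 ≤ 10473 / 1000 ∧ 1 + gam ^ 2 + gam ^ 4 ≤ 2 ∧
    phi ^ 2 ≤ 686 / 100 ∧ phi ^ 4 ≤ 686 / 100 ∧ gam ^ 2 ≤ 1 ∧ gam ^ 4 ≤ 1 := by
  obtain ⟨g1, g2, g3, g4, g5, g6, p1, p2⟩ := d13_gam
  have hphi4 : phi ^ 4 = 2 + 3 * phi := by
    have : phi ^ 4 = (phi ^ 2) ^ 2 := by ring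
    rw [this, g6]
    linear_combination g6
  have hg4 : gam ^ 4 = 2 - 3 * gam := by
    have : gam ^ 4 = (gam ^ 2) ^ 2 := by ring
    rw [this, g3]
    linear_combination g3
  rw [hphi4, hg4, g6, g3]
  refine ⟨?_, ?_, ?_, ?_, ?_, ?_⟩ <;> linarith

theorem d13_y (P Q R L y0 y1 y2 : ℝ) (hL : 0 < L) (hPc : |P| ≤ 4000 * L) (hR1 : |R| ≤ L / 100)
    (hQ1 : 0 ≤ Q) (hQ2 : Q ≤ 3 / 10 * L) (h0 : y0 = P + Q + R)
    (h1 : y1 = phi ^ 2 * P + gam ^ 2 * Q - R) (h2 : y2 = phi ^ 4 * P + gam ^ 4 * Q + R) :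
    |y0| ≤ 30000 * L ∧ |y1| ≤ 30000 * L ∧ |y2| ≤ 30000 * L := by
  obtain ⟨-, -, c1, c2, c3, c4⟩ := d13_c
  obtain ⟨pa, pb⟩ := abs_le.mp hPc
  obtain ⟨ra, rb⟩ := abs_le.mp hR1
  have hmulP : ∀ x : ℝ, 0 ≤ x → x ≤ 686 / 100 → |x * P| ≤ 686 / 100 * (4000 * L) := by
    intro x hx hx1
    rw [abs_mul, abs_of_nonneg hx]
    exact mul_le_mul hx1 hPc (abs_nonneg _) (by norm_num)
  have hmulQ : ∀ x : ℝ, 0 ≤ x → x ≤ 1 → |x * Q| ≤ 1 * (3 / 10 * L) := by
    intro x hx hx1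
    rw [abs_mul, abs_of_nonneg hx, abs_of_nonneg hQ1]
    exact mul_le_mul hx1 hQ2 hQ1 (by norm_num)
  refine ⟨?_, ?_, ?_⟩
  · rw [h0, abs_le]
    constructor <;> linarith
  · obtain ⟨v1, v2⟩ := abs_le.mp (hmulP (phi ^ 2) (by positivity) c1)
    obtain ⟨v3, v4⟩ := abs_le.mp (hmulQ (gam ^ 2) (by positivity) c3)
    rw [h1, abs_le]
    constructor <;> linarith
  · obtain ⟨v1, v2⟩ := abs_le.mp (hmulP (phi ^ 4) (by positivity) c2)
    obtain ⟨v3, v4⟩ := abs_le.mp (hmulQ (gam ^ 4) (by positivity) c4)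
    rw [h2, abs_le]
    constructor <;> linarith

theorem d13_pi : (986 : ℝ) / 100 ≤ Real.pi ^ 2 ∧ Real.pi ^ 2 ≤ 987 / 100 := by
  have hpi1 := Real.pi_gt_d4
  have hpi2 := Real.pi_lt_d4
  have h1 := pow_le_pow_left₀ (by norm_num) hpi1.le 2
  have h2 := pow_le_pow_left₀ Real.pi_pos.le hpi2.le 2
  norm_num at h1 h2
  constructor <;> linarith

theorem d13_main (h1 : ST_D1) (h7 : ST_D7) (h8 : ST_D8s) (h9 : ST_D9s) (h11 : ST_D11)
    (hT6 : ST_T6) (hT9 : ST_T9) (hT12 : ST_T12) : ST_D13 := by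
  obtain ⟨l8, l8p, H8⟩ := h8
  obtain ⟨l9, l9p, H9⟩ := h9
  obtain ⟨l11, l11p, H11⟩ := h11
  refine ⟨min (min l8 l9) (min l11 (1 / 10 ^ 24)), ?_, ?_⟩
  · refine lt_min (lt_min l8p l9p) (lt_min l11p (by norm_num))
  intro l a b hl hll hb h0 hlt
  have hl8 : |l| ≤ l8 := hll.trans ((min_le_left _ _).trans (min_le_left _ _))
  have hl9 : |l| ≤ l9 := hll.trans ((min_le_left _ _).trans (min_le_right _ _))
  have hl11 : |l| ≤ l11 := hll.trans ((min_le_right _ _).trans (min_le_left _ _))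
  have hl24 : |l| ≤ 1 / 10 ^ 24 := hll.trans ((min_le_right _ _).trans (min_le_right _ _))
  have hl2 : |l| ≤ 1 / 100 := hl24.trans (by norm_num)
  obtain ⟨g1, g2, g3, g4, g5, g6, p1, p2⟩ := d13_gam
  have ht0 : 0 < Real.sqrt |l| := Real.sqrt_pos.mpr hl
  have hs0 : 0 < Real.sqrt (Real.sqrt |l|) := Real.sqrt_pos.mpr ht0
  have ht1 : Real.sqrt |l| ≤ 1 / 10 ^ 12 := by
    rw [Real.sqrt_le_iff]
    refine ⟨by norm_num, hl24.trans (by norm_num)⟩
  have hs1 : Real.sqrt (Real.sqrt |l|) ≤ 1 / 10 ^ 6 := by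
    rw [Real.sqrt_le_iff]
    refine ⟨by norm_num, ht1.trans (by norm_num)⟩
  have hs2 : Real.sqrt (Real.sqrt |l|) ^ 2 = Real.sqrt |l| := Real.sq_sqrt ht0.le
  have ht2 : Real.sqrt |l| ^ 2 = |l| := Real.sq_sqrt hl.le
  obtain ⟨n, hn1, hn2⟩ := d13_level b hb (Real.sqrt (Real.sqrt |l|)) hs0
    (hs1.trans (by norm_num))
  obtain ⟨c, hc1, hc2'⟩ := d13_level b hb (15 / 100 * Real.sqrt |l|) (by positivity)
    (by norm_num at ht1; linarith)
  have hc2 : |(b : ℝ)| * gam ^ c < 15 / 100 * phi * Real.sqrt |l| := by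
    calc _ < _ := hc2'
      _ = _ := by ring
  have hb1 : (1 : ℝ) ≤ |(b : ℝ)| := by
    have := Int.one_le_abs hb
    exact_mod_cast this
  have hts : Real.sqrt |l| ≤ Real.sqrt (Real.sqrt |l|) / 1000 := by
    nth_rewrite 1 [← hs2]
    rw [pow_two]
    have : Real.sqrt (Real.sqrt |l|) * Real.sqrt (Real.sqrt |l|) ≤
      Real.sqrt (Real.sqrt |l|) * (1 / 10 ^ 6) := mul_le_mul_of_nonneg_left hs1 hs0.le
    norm_num at this
    linarith
  have hnc : n ≤ c := by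
    by_contra hcon
    push Not at hcon
    have h2 : gam ^ n ≤ gam ^ c := pow_le_pow_of_le_one (by linarith) (by linarith) hcon.le
    have h3 : |(b : ℝ)| * gam ^ n ≤ |(b : ℝ)| * gam ^ c :=
      mul_le_mul_of_nonneg_left h2 (by linarith)
    have h4 : 15 / 100 * phi * Real.sqrt |l| ≤ 1 * Real.sqrt |l| :=
      mul_le_mul_of_nonneg_right (by linarith) ht0.le
    linarith
  have hc0 : 1 ≤ c := by
    rcases Nat.eq_zero_or_pos c with h | h
    · rw [h, pow_zero, mul_one] at hc2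
      have h4 : 15 / 100 * phi * Real.sqrt |l| ≤ 1 * Real.sqrt |l| :=
        mul_le_mul_of_nonneg_right (by linarith) ht0.le
      norm_num at ht1
      linarith
    · exact h
  obtain ⟨E, hE⟩ := d13_a0 hT6 hT9 l hl hl2 a b n h0 hlt
  obtain ⟨-, -, hPn, hz, hrn⟩ := H8 l E a b n hl hl8 hb hn1 hn2
    (by rw [hE, abs_zero]; positivity)
  obtain ⟨hQn, hRn⟩ := hz hE
  obtain ⟨hK1, hK2⟩ := d13_pi
  have hbg : 0 ≤ (|(b : ℝ)| * gam ^ n) ^ 2 := by positivity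
  have hQn' : |mQ l a b n E| ≤ 10 * (|(b : ℝ)| * gam ^ n) ^ 2 := by
    have h2 := abs_sub_abs_le_abs_sub (mQ l a b n E)
      (Real.pi ^ 2 / 2 * (|(b : ℝ)| * gam ^ n) ^ 2)
    rw [abs_of_nonneg (by positivity : 0 ≤ Real.pi ^ 2 / 2 * (|(b : ℝ)| * gam ^ n) ^ 2)] at h2
    have h3 : Real.pi ^ 2 / 2 * (|(b : ℝ)| * gam ^ n) ^ 2 ≤
        (987 / 200) * (|(b : ℝ)| * gam ^ n) ^ 2 :=
      mul_le_mul_of_nonneg_right (by linarith) hbg
    have h4 : (|(b : ℝ)| * gam ^ n) ^ 2 * (Real.pi ^ 2 / 2) * (181 / 10) * |l| ≤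
        (|(b : ℝ)| * gam ^ n) ^ 2 * 1 := by
      rw [mul_assoc, mul_assoc]
      apply mul_le_mul_of_nonneg_left _ hbg
      have h5 : (181 : ℝ) / 10 * |l| ≤ 1 / 100 := by
        norm_num at hl24
        linarith
      have h6 : Real.pi ^ 2 / 2 * (181 / 10 * |l|) ≤ 5 * (1 / 100) :=
        mul_le_mul (by linarith) h5 (by positivity) (by norm_num)
      linarith
    linarith
  have hLt : |l| * Real.sqrt |l| ≤ |l| * (1 / 10 ^ 12) := mul_le_mul_of_nonneg_left ht1 hl.le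
  have hLt0 : 0 ≤ |l| * Real.sqrt |l| := by positivity
  norm_num at hLt
  have hRn' : |mR l a b n E| ≤ 30 * |l| := by linarith
  obtain ⟨hQc, hRc, hPc, -, -⟩ := H9 l E a b n c hl hl9 hb hnc hn1 hn2 hc1 hc2 hQn' hRn' hPn
  -- the numbers at the centre
  have hG1 : 225 / 10000 * |l| ≤ (|(b : ℝ)| * gam ^ c) ^ 2 := by
    have := pow_le_pow_left₀ (by positivity) hc1 2
    rw [mul_pow, ht2] at this
    linarith
  have hgc : 0 ≤ |(b : ℝ)| * gam ^ c := le_trans (by positivity) hc1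
  have hG2 : (|(b : ℝ)| * gam ^ c) ^ 2 ≤ 59 / 1000 * |l| := by
    have := pow_le_pow_left₀ hgc hc2.le 2
    have h3 : (15 / 100 * phi * Real.sqrt |l|) ^ 2 = (15 / 100) ^ 2 * (1 + phi) * |l| := by
      rw [mul_pow, mul_pow, g6, ht2]
    rw [h3] at this
    have h2 : (15 / 100) ^ 2 * (1 + phi) * |l| ≤ 59 / 1000 * |l| :=
      mul_le_mul_of_nonneg_right (by linarith) hl.le
    linarith
  have hGn : gam ^ (2 * (c - n)) * (|(b : ℝ)| * gam ^ n) ^ 2 = (|(b : ℝ)| * gam ^ c) ^ 2 := by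
    have h2 : gam ^ c = gam ^ (c - n) * gam ^ n := by
      rw [← pow_add]
      congr 1
      omega
    rw [h2, mul_comm 2 (c - n), pow_mul]
    ring
  have hgn0 : 0 ≤ gam ^ (2 * (c - n)) := pow_nonneg (by linarith) _
  have hQ : |mQ l a b c E - (|(b : ℝ)| * gam ^ c) ^ 2 * (Real.pi ^ 2 / 2)| ≤
      (|(b : ℝ)| * gam ^ c) ^ 2 * (Real.pi ^ 2 / 2) * (181 / 10) * |l| + 44 / 1000 * |l| ^ 2 := by
    have h2 := mul_le_mul_of_nonneg_left hQn hgn0
    rw [← abs_of_nonneg hgn0, ← abs_mul, abs_of_nonneg hgn0] at h2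
    have e1 : gam ^ (2 * (c - n)) * (mQ l a b n E - Real.pi ^ 2 / 2 * (|(b : ℝ)| * gam ^ n) ^ 2) =
        gam ^ (2 * (c - n)) * mQ l a b n E - (|(b : ℝ)| * gam ^ c) ^ 2 * (Real.pi ^ 2 / 2) := by
      rw [← hGn]; ring
    have e2 : gam ^ (2 * (c - n)) * ((|(b : ℝ)| * gam ^ n) ^ 2 * (Real.pi ^ 2 / 2) * (181 / 10) *
        |l|) = (|(b : ℝ)| * gam ^ c) ^ 2 * (Real.pi ^ 2 / 2) * (181 / 10) * |l| := by
      rw [← hGn]; ring
    rw [e1, e2] at h2
    have h3 := abs_sub_le (mQ l a b c E) (gam ^ (2 * (c - n)) * mQ l a b n E)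
      ((|(b : ℝ)| * gam ^ c) ^ 2 * (Real.pi ^ 2 / 2))
    rw [sq_abs]
    linarith
  have hRR : |mR l a b c E| ≤ 2 / 10 * (|l| * Real.sqrt |l|) := by linarith
  have hR : mR l a b c E ^ 2 ≤ 4 / 100 * |l| ^ 3 := by
    have h2 := pow_le_pow_left₀ (abs_nonneg _) hRR 2
    rw [sq_abs, mul_pow, mul_pow, ht2] at h2
    calc _ ≤ _ := h2
      _ = _ := by ring
  have hR1 : |mR l a b c E| ≤ |l| / 100 := by linarith
  obtain ⟨hc11, hc12, -⟩ := d13_c
  obtain ⟨y0, y1, y2, -, -, -, h7m⟩ := h7 l E a b c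
  obtain ⟨hQ1, hQ2, hS1⟩ := d13_num1 |l| (Real.pi ^ 2) ((|(b : ℝ)| * gam ^ c) ^ 2) (mP l a b c E)
    (mQ l a b c E) (mR l a b c E)
    ((1 + phi ^ 2 + phi ^ 4) * mP l a b c E + (1 + gam ^ 2 + gam ^ 4) * mQ l a b c E +
      mR l a b c E) hl hl24 hK1 hK2 hG1 hG2 hQ hR1 hPc (1 + phi ^ 2 + phi ^ 4)
    (1 + gam ^ 2 + gam ^ 4) (by positivity) hc11 (by positivity)
    hc12 rfl
  obtain ⟨hy0, hy1, hy2⟩ := d13_y (mP l a b c E) (mQ l a b c E) (mR l a b c E) |l| _ _ _ hl hPc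
    hR1 (by linarith) hQ2 y0 y1 y2
  have h7c := h7m (30000 * |l|) (by norm_num at hl24; linarith) hl2 hy0 hy1 hy2
  have h7d : |5 * (mR l a b c E ^ 2 - 4 * mP l a b c E * mQ l a b c E) -
      |l| ^ 2 / 4 * (1 + ((1 + phi ^ 2 + phi ^ 4) * mP l a b c E +
        (1 + gam ^ 2 + gam ^ 4) * mQ l a b c E + mR l a b c E) / 3)| ≤
      40 * (30000 * |l|) ^ 4 + 10 * |l| ^ 2 * (30000 * |l|) ^ 2 := by
    have e1 : yy l a b c E + yy l a b (c + 1) E + yy l a b (c + 2) E =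
        (1 + phi ^ 2 + phi ^ 4) * mP l a b c E + (1 + gam ^ 2 + gam ^ 4) * mQ l a b c E +
          mR l a b c E := by
      rw [y0, y1, y2]; ring
    rw [e1] at h7c
    rw [sq_abs]
    exact h7c
  obtain ⟨hP1, hP2, hPQ⟩ := d13_num2 |l| (mP l a b c E) (mQ l a b c E) (mR l a b c E) _ hl hl24
    hR hQ1 hQ2 hS1 h7d
  have hrr : ∀ j, c ≤ j → j ≤ c + 2 → |rr l a b j E| < 1 / 4 := by
    have e : n + (c - n) = c := by omega
    have := d13_rr hT6 h1 l E a b n (c - n) hl hl24 hE (hrn n le_rfl (by omega)) hn1 hn2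
      (by rw [e]; exact hc1) (by rw [e]; exact hc2)
    rw [e] at this
    exact this
  obtain ⟨hLy, hlab, hEC⟩ := H11 l E a b c hl hl11 hc0 hrr (by linarith) (by linarith)
    (by linarith) (by rw [abs_of_nonneg (by linarith : 0 ≤ mQ l a b c E)]; linarith)
  refine ⟨E, hEC, hlab, ?_⟩
  have hfin := d13_num3 |l| (Real.pi ^ 2) ((|(b : ℝ)| * gam ^ c) ^ 2) (mP l a b c E)
    (mQ l a b c E) (mR l a b c E) _ hl hl24 hK1 hK2 hG1 hG2 hQ hR hR1 hQ1 (1 + phi ^ 2 + phi ^ 4)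
    (1 + gam ^ 2 + gam ^ 4) hc11 (by positivity) rfl hP1 hP2 hPQ (phi ^ (2 * c) * Ly l E ^ 2)
    (by rw [sq_abs]; exact hLy)
  have hLy0 : 0 ≤ Ly l E := ((hT12 l hl hl2).2.2.2.1 E).2.2
  exact d13_end |(b : ℝ)| |l| (Ly l E) c (by linarith) hl hLy0 hfin

/-- D13 (the inputs D8, D9 are used in their strong forms, proved from D1, D2, D3, D5, D6, D7, T6) -/
theorem st_D13 (h1 : ST_D1) (h2 : ST_D2) (h3 : ST_D3) (h5 : ST_D5) (h6 : ST_D6) (h7 : ST_D7)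
    (h11 : ST_D11) (hT6 : ST_T6) (hT9 : ST_T9) (hT12 : ST_T12) : ST_D13 :=
  d13_main h1 h7 (st_D8s h1 h2 h3 h5 hT6) (st_D9s h6 h7) h11 hT6 hT9 hT12

end Pool.Agent.Helper36.CV
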