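import Pool.Agent.Helper36.CV.StmtsK

set_option autoImplicit false

namespace Pool.Agent.Helper36.CV

/-! Module K0: point lemma in the large coupling regime. -/

theorem k0_inv (l E : ℝ) (k : ℕ) :
    X l k E ^ 2 + X l (k + 1) E ^ 2 + X l (k + 2) E ^ 2
      - 2 * X l k E * X l (k + 1) E * X l (k + 2) E - 1 = l ^ 2 / 4 := by
  induction k with
  | zero => simp only [X]; ring
  | succ k ih =>
    have h3 : X l (k + 1 + 2) E = 2 * X l (k + 2) E * X l (k + 1) E - X l k E := rfl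
    have h2 : X l (k + 1 + 1) E = X l (k + 2) E := rfl
    rw [h3, h2]
    rw [← ih]
    ring

theorem k0_root (l u P z s : ℝ) (hs : s = 1 ∨ s = -1) (hl : 2000 ≤ l) (hu : |u| ≤ 1) (hz : |z| ≤ 1)
    (hP : |P - s * l / 2| ≤ 3)
    (inv : u ^ 2 + P ^ 2 + z ^ 2 - 2 * u * P * z - 1 = l ^ 2 / 4) :
    |P - u * z - s * l / 2| ≤ 1 / l := by
  have hl0 : 0 < l := by linarith
  have hss : s * s = 1 := by rcases hs with h | h <;> rw [h] <;> norm_num
  have hsabs : |s| = 1 := by rcases hs with h | h <;> rw [h] <;> norm_num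
  have huz : |u * z| ≤ 1 := by
    rw [abs_mul]
    calc |u| * |z| ≤ 1 * 1 := mul_le_mul hu hz (abs_nonneg _) (by norm_num)
      _ = 1 := by norm_num
  have h1 : |P - u * z - s * l / 2| ≤ 4 := by
    calc |P - u * z - s * l / 2| = |(P - s * l / 2) - u * z| := by ring_nf
      _ ≤ |P - s * l / 2| + |u * z| := abs_sub _ _
      _ ≤ 3 + 1 := add_le_add hP huz
      _ = 4 := by norm_num
  obtain ⟨Q, hQ⟩ : ∃ Q, Q = s * (P - u * z) := ⟨_, rfl⟩
  have hQl : Q - l / 2 = s * (P - u * z - s * l / 2) := by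
    rw [hQ]
    have : s * (P - u * z - s * l / 2) = s * (P - u * z) - (s * s) * l / 2 := by ring
    rw [this, hss]; ring
  have habs : |Q - l / 2| = |P - u * z - s * l / 2| := by
    rw [hQl, abs_mul, hsabs, one_mul]
  have hQ4 : |Q - l / 2| ≤ 4 := by rw [habs]; exact h1
  have hQpos : 0 < Q := by have := (abs_le.mp hQ4).1; linarith
  have hQ2 : Q ^ 2 = (1 - u ^ 2) * (1 - z ^ 2) + l ^ 2 / 4 := by
    have : Q ^ 2 = (s * s) * (P - u * z) ^ 2 := by rw [hQ]; ring
    rw [this, hss, ← inv]; ring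
  have hu2 : u ^ 2 ≤ 1 := by
    have := sq_le_sq' (neg_le_of_abs_le hu) (le_of_abs_le hu); simpa using this
  have hz2 : z ^ 2 ≤ 1 := by
    have := sq_le_sq' (neg_le_of_abs_le hz) (le_of_abs_le hz); simpa using this
  have hp0 : 0 ≤ (1 - u ^ 2) * (1 - z ^ 2) := mul_nonneg (by linarith) (by linarith)
  have hp1 : (1 - u ^ 2) * (1 - z ^ 2) ≤ 1 := by
    calc (1 - u ^ 2) * (1 - z ^ 2) ≤ 1 * 1 :=
          mul_le_mul (by linarith [sq_nonneg u]) (by linarith [sq_nonneg z]) (by linarith) (by norm_num)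
      _ = 1 := by norm_num
  have hge : l / 2 ≤ Q := by
    by_contra hlt
    push Not at hlt
    have : Q ^ 2 < (l / 2) ^ 2 := by
      exact pow_lt_pow_left₀ hlt hQpos.le (by norm_num)
    have h2 : (l / 2) ^ 2 = l ^ 2 / 4 := by ring
    rw [h2, hQ2] at this
    linarith
  have hle : (Q - l / 2) * l ≤ 1 := by
    have h3 : (Q - l / 2) * (Q + l / 2) ≤ 1 := by
      have : (Q - l / 2) * (Q + l / 2) = Q ^ 2 - l ^ 2 / 4 := by ring
      rw [this, hQ2]; linarith
    have h4 : (Q - l / 2) * l ≤ (Q - l / 2) * (Q + l / 2) :=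
      mul_le_mul_of_nonneg_left (by linarith) (by linarith)
    linarith
  rw [← habs, abs_of_nonneg (by linarith), le_div_iff₀ hl0]
  exact hle

/-- large coordinate: bounds -/
theorem k0_big (l P s : ℝ) (hs : s = 1 ∨ s = -1) (hl : 2000 ≤ l) (hP : |P - s * l / 2| ≤ 3) :
    l / 4 ≤ |P| ∧ |P| ≤ l := by
  have h := abs_le.mp hP
  have e : |s * l / 2| = l / 2 := by
    rcases hs with h | h <;> rw [h]
    · rw [abs_of_nonneg] <;> linarith
    · rw [abs_of_nonpos] <;> linarith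
  constructor
  · have : |s * l / 2| ≤ |s * l / 2 - P| + |P| := by
      calc |s * l / 2| = |(s * l / 2 - P) + P| := by ring_nf
        _ ≤ _ := abs_add_le _ _
    rw [abs_sub_comm, e] at this
    linarith
  · have : |P| ≤ |P - s * l / 2| + |s * l / 2| := by
      calc |P| = |(P - s * l / 2) + s * l / 2| := by ring_nf
        _ ≤ _ := abs_add_le _ _
    rw [e] at this
    linarith

/-- sign of a number -/
theorem k0_sgn (z : ℝ) : ∃ r : ℝ, (r = 1 ∨ r = -1) ∧ 0 ≤ r * z := by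
  rcases le_total 0 z with h | h
  · exact ⟨1, Or.inl rfl, by linarith⟩
  · exact ⟨-1, Or.inr rfl, by linarith⟩

/-- case A: the coordinate two levels up is small -/
theorem k0_caseA (l u P z b s : ℝ) (hs : s = 1 ∨ s = -1) (hl : 2000 ≤ l) (hu : |u| ≤ 1) (hz : |z| ≤ 1)
    (hP : |P - s * l / 2| ≤ 3) (hb : |b| ≤ 1) (eb : b = 2 * (2 * z * P - u) * z - P)
    (inv : z ^ 2 + (2 * z * P - u) ^ 2 + b ^ 2 - 2 * z * (2 * z * P - u) * b - 1 = l ^ 2 / 4) :
    ∃ r : ℝ, (r = 1 ∨ r = -1) ∧ |z - r / 2| ≤ 6 / l ∧ |2 * z * P - u - r * s * l / 2| ≤ 3 ∧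
      |z - r / 2 - (b + r * u) / (4 * r * P)| ≤ 200 / l ^ 2 := by
  have hl0 : 0 < l := by linarith
  obtain ⟨hPl, hPu⟩ := k0_big l P s hs hl hP
  have hPpos : 0 < |P| := by linarith
  have hP0 : P ≠ 0 := abs_pos.mp hPpos
  obtain ⟨r, hr, hrz⟩ := k0_sgn z
  have hrr : r * r = 1 := by rcases hr with h | h <;> rw [h] <;> norm_num
  have hrabs : |r| = 1 := by rcases hr with h | h <;> rw [h] <;> norm_num
  have hr0 : r ≠ 0 := by rcases hr with h | h <;> rw [h] <;> norm_num
  have huz : |u * z| ≤ 1 := by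
    rw [abs_mul]
    calc |u| * |z| ≤ 1 * 1 := mul_le_mul hu hz (abs_nonneg _) (by norm_num)
      _ = 1 := by norm_num
  have e1 : (2 * z - r) * (2 * z + r) * P = b + 2 * (u * z) := by
    have : (2 * z - r) * (2 * z + r) * P = 4 * z ^ 2 * P - (r * r) * P := by ring
    rw [this, hrr, eb]; ring
  have e2 : |2 * z - r| * |2 * z + r| * |P| ≤ 3 := by
    rw [← abs_mul, ← abs_mul, e1]
    calc |b + 2 * (u * z)| ≤ |b| + |2 * (u * z)| := abs_add_le _ _
      _ = |b| + 2 * |u * z| := by rw [abs_mul, abs_two]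
      _ ≤ 1 + 2 * 1 := by linarith
      _ = 3 := by norm_num
  have e3 : 1 ≤ |2 * z + r| := by
    have : |2 * z + r| = |r * (2 * z + r)| := by rw [abs_mul, hrabs, one_mul]
    rw [this]
    have : r * (2 * z + r) = 2 * (r * z) + r * r := by ring
    rw [this, hrr]
    calc (1 : ℝ) ≤ 2 * (r * z) + 1 := by linarith
      _ ≤ _ := le_abs_self _
  have hd : |z - r / 2| ≤ 6 / l := by
    rw [le_div_iff₀ hl0]
    have h5 : |2 * z - r| * 1 * (l / 4) ≤ |2 * z - r| * |2 * z + r| * |P| :=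
      mul_le_mul (mul_le_mul_of_nonneg_left e3 (abs_nonneg _)) hPl (by linarith) (by positivity)
    have h6 : |z - r / 2| = |2 * z - r| / 2 := by
      have : z - r / 2 = (2 * z - r) / 2 := by ring
      rw [this, abs_div, abs_two]
    rw [h6]
    linarith
  -- the new large coordinate
  have hd1 : |z - r / 2| ≤ 1 / 100 := by
    refine hd.trans ?_
    rw [div_le_div_iff₀ hl0 (by norm_num)]
    linarith
  have hbig : |2 * z * P - u - r * s * l / 2| ≤ 30 := by
    have e : 2 * z * P - u - r * s * l / 2 = 2 * ((z - r / 2) * P) + r * (P - s * l / 2) - u := by ring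
    rw [e]
    have h7 : |(z - r / 2) * P| ≤ 6 := by
      rw [abs_mul]
      calc |z - r / 2| * |P| ≤ 6 / l * l := mul_le_mul hd hPu (abs_nonneg _) (by positivity)
        _ = 6 := by field_simp
    calc |2 * ((z - r / 2) * P) + r * (P - s * l / 2) - u|
        ≤ |2 * ((z - r / 2) * P) + r * (P - s * l / 2)| + |u| := abs_sub _ _
      _ ≤ |2 * ((z - r / 2) * P)| + |r * (P - s * l / 2)| + |u| := by
          gcongr; exact abs_add_le _ _
      _ = 2 * |(z - r / 2) * P| + |P - s * l / 2| + |u| := by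
          rw [abs_mul 2, abs_two, abs_mul r, hrabs, one_mul]
      _ ≤ 2 * 6 + 3 + 1 := by linarith
      _ ≤ 30 := by norm_num
  have hrs : r * s = 1 ∨ r * s = -1 := by
    rcases hr with h | h <;> rcases hs with h' | h' <;> rw [h, h'] <;> norm_num
  have hbd : |2 * z * P - u - r * s * l / 2| ≤ 3 := by
    have hzb : |z * b| ≤ 1 := by
      rw [abs_mul]
      calc |z| * |b| ≤ 1 * 1 := mul_le_mul hz hb (abs_nonneg _) (by norm_num)
        _ = 1 := by norm_num
    obtain ⟨a, ha⟩ : ∃ a, a = 2 * z * P - u := ⟨_, rfl⟩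
    rw [← ha] at hbig inv ⊢
    obtain ⟨t, ht⟩ : ∃ t, t = r * s := ⟨_, rfl⟩
    rw [← ht] at hbig hrs ⊢
    have htt : t * t = 1 := by rcases hrs with h | h <;> rw [h] <;> norm_num
    have htabs : |t| = 1 := by rcases hrs with h | h <;> rw [h] <;> norm_num
    obtain ⟨Q, hQ⟩ : ∃ Q, Q = t * (a - z * b) := ⟨_, rfl⟩
    have hQl : Q - l / 2 = t * (a - z * b - t * l / 2) := by
      rw [hQ]
      have : t * (a - z * b - t * l / 2) = t * (a - z * b) - (t * t) * l / 2 := by ring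
      rw [this, htt]; ring
    have hQ31 : |Q - l / 2| ≤ 31 := by
      rw [hQl, abs_mul, htabs, one_mul]
      calc |a - z * b - t * l / 2| = |(a - t * l / 2) - z * b| := by ring_nf
        _ ≤ |a - t * l / 2| + |z * b| := abs_sub _ _
        _ ≤ 30 + 1 := add_le_add hbig hzb
        _ = 31 := by norm_num
    have hQpos : 0 < Q := by have := (abs_le.mp hQ31).1; linarith
    have hQ2 : Q ^ 2 = (1 - z ^ 2) * (1 - b ^ 2) + l ^ 2 / 4 := by
      have : Q ^ 2 = (t * t) * (a - z * b) ^ 2 := by rw [hQ]; ring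
      rw [this, htt, ← inv]; ring
    have hz2 : z ^ 2 ≤ 1 := by
      have := sq_le_sq' (neg_le_of_abs_le hz) (le_of_abs_le hz); simpa using this
    have hb2 : b ^ 2 ≤ 1 := by
      have := sq_le_sq' (neg_le_of_abs_le hb) (le_of_abs_le hb); simpa using this
    have hp0 : 0 ≤ (1 - z ^ 2) * (1 - b ^ 2) := mul_nonneg (by linarith) (by linarith)
    have hp1 : (1 - z ^ 2) * (1 - b ^ 2) ≤ 1 := by
      calc (1 - z ^ 2) * (1 - b ^ 2) ≤ 1 * 1 :=
            mul_le_mul (by linarith [sq_nonneg z]) (by linarith [sq_nonneg b]) (by linarith)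
              (by norm_num)
        _ = 1 := by norm_num
    have hge : l / 2 ≤ Q := by
      by_contra hlt
      push Not at hlt
      have : Q ^ 2 < (l / 2) ^ 2 := pow_lt_pow_left₀ hlt hQpos.le (by norm_num)
      have h2 : (l / 2) ^ 2 = l ^ 2 / 4 := by ring
      rw [h2, hQ2] at this
      linarith
    have hle : Q - l / 2 ≤ 1 := by
      have h3 : (Q - l / 2) * (Q + l / 2) ≤ 1 := by
        have : (Q - l / 2) * (Q + l / 2) = Q ^ 2 - l ^ 2 / 4 := by ring
        rw [this, hQ2]; linarith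
      have h4 : (Q - l / 2) * 1 ≤ (Q - l / 2) * (Q + l / 2) :=
        mul_le_mul_of_nonneg_left (by linarith) (by linarith)
      linarith
    have hfin : |a - z * b - t * l / 2| ≤ 1 := by
      have : |Q - l / 2| = |a - z * b - t * l / 2| := by rw [hQl, abs_mul, htabs, one_mul]
      rw [← this, abs_of_nonneg (by linarith)]
      exact hle
    calc |a - t * l / 2| = |(a - z * b - t * l / 2) + z * b| := by ring_nf
      _ ≤ |a - z * b - t * l / 2| + |z * b| := abs_add_le _ _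
      _ ≤ 1 + 1 := add_le_add hfin hzb
      _ ≤ 3 := by norm_num
  refine ⟨r, hr, hd, hbd, ?_⟩
  -- refined position
  obtain ⟨d, hdd⟩ : ∃ d, d = z - r / 2 := ⟨_, rfl⟩
  have hz' : z = r / 2 + d := by rw [hdd]; ring
  rw [← hdd] at hd ⊢
  have e5 : 4 * r * d * P = b + r * u + 2 * u * d - 4 * P * d ^ 2 := by
    have h8 : b + 2 * (u * z) = 4 * z ^ 2 * P - P := by rw [eb]; ring
    rw [hz'] at h8
    have h9 : 4 * (r / 2 + d) ^ 2 * P - P = (r * r - 1) * P + 4 * r * d * P + 4 * P * d ^ 2 := by ring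
    rw [h9, hrr] at h8
    linarith
  have e6 : d - (b + r * u) / (4 * r * P) = (2 * u * d - 4 * P * d ^ 2) / (4 * r * P) := by
    field_simp
    linarith
  rw [e6, abs_div]
  have hden : |4 * r * P| = 4 * |P| := by
    rw [abs_mul, abs_mul, hrabs, mul_one]
    norm_num
  rw [hden]
  have hnum : |2 * u * d - 4 * P * d ^ 2| ≤ 156 / l := by
    have h10 : |2 * u * d| ≤ 12 / l := by
      rw [abs_mul, abs_mul, abs_two]
      calc 2 * |u| * |d| ≤ 2 * 1 * (6 / l) := by gcongr
        _ = 12 / l := by ring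
    have h11 : |4 * P * d ^ 2| ≤ 144 / l := by
      rw [abs_mul, abs_mul, abs_pow]
      have : |(4 : ℝ)| = 4 := by norm_num
      rw [this]
      calc 4 * |P| * |d| ^ 2 ≤ 4 * l * (6 / l) ^ 2 := by gcongr
        _ = 144 / l := by field_simp; norm_num
    calc |2 * u * d - 4 * P * d ^ 2| ≤ |2 * u * d| + |4 * P * d ^ 2| := abs_sub _ _
      _ ≤ 12 / l + 144 / l := add_le_add h10 h11
      _ = 156 / l := by ring
  calc |2 * u * d - 4 * P * d ^ 2| / (4 * |P|) ≤ (156 / l) / (4 * (l / 4)) := by gcongr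
    _ = 156 / l ^ 2 := by field_simp
    _ ≤ 200 / l ^ 2 := by gcongr; norm_num

/-- case B: the next coordinate is small -/
theorem k0_caseB (l u P z a b c s : ℝ) (hs : s = 1 ∨ s = -1) (hl : 2000 ≤ l) (hu : |u| ≤ 1) (hz : |z| ≤ 1)
    (hP : |P - s * l / 2| ≤ 3) (ha : |a| ≤ 1) (hc : |c| ≤ 1)
    (ea : a = 2 * z * P - u) (eb : b = 2 * a * z - P) (ec : c = 2 * b * a - z)
    (inv : u ^ 2 + P ^ 2 + z ^ 2 - 2 * u * P * z - 1 = l ^ 2 / 4) :
    |z| ≤ 4 / l ∧ |z - u / (2 * P)| ≤ 200 / l ^ 2 ∧ |a| ≤ 4 / l ∧ |b + s * l / 2| ≤ 3 := by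
  have hl0 : 0 < l := by linarith
  obtain ⟨hPl, hPu⟩ := k0_big l P s hs hl hP
  have hPpos : 0 < |P| := by linarith
  have hP0 : P ≠ 0 := abs_pos.mp hPpos
  have hzl : |z| ≤ 4 / l := by
    have h1 : 2 * |z| * |P| ≤ 2 := by
      have : |2 * z * P| = 2 * |z| * |P| := by rw [abs_mul, abs_mul, abs_two]
      rw [← this]
      have : 2 * z * P = a + u := by rw [ea]; ring
      rw [this]
      calc |a + u| ≤ |a| + |u| := abs_add_le _ _
        _ ≤ 1 + 1 := add_le_add ha hu
        _ = 2 := by norm_num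
    rw [le_div_iff₀ hl0]
    have h2 : 2 * |z| * (l / 4) ≤ 2 * |z| * |P| := mul_le_mul_of_nonneg_left hPl (by positivity)
    linarith
  have hr := k0_root l u P z s hs hl hu hz hP inv
  have hz1 : |z| ≤ 1 / 100 := by
    refine hzl.trans ?_
    rw [div_le_div_iff₀ hl0 (by norm_num)]; linarith
  have h1l : 1 / l ≤ 1 := by rw [div_le_one hl0]; linarith
  have hb3 : |b + s * l / 2| ≤ 3 := by
    have e : b + s * l / 2 = 2 * (a * z) - u * z - (P - u * z - s * l / 2) := by rw [eb]; ring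
    rw [e]
    have haz : |a * z| ≤ 1 / 100 := by
      rw [abs_mul]
      calc |a| * |z| ≤ 1 * (1 / 100) := mul_le_mul ha hz1 (abs_nonneg _) (by norm_num)
        _ = 1 / 100 := by norm_num
    have huz : |u * z| ≤ 1 / 100 := by
      rw [abs_mul]
      calc |u| * |z| ≤ 1 * (1 / 100) := mul_le_mul hu hz1 (abs_nonneg _) (by norm_num)
        _ = 1 / 100 := by norm_num
    calc |2 * (a * z) - u * z - (P - u * z - s * l / 2)|
        ≤ |2 * (a * z) - u * z| + |P - u * z - s * l / 2| := abs_sub _ _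
      _ ≤ |2 * (a * z)| + |u * z| + |P - u * z - s * l / 2| := by gcongr; exact abs_sub _ _
      _ = 2 * |a * z| + |u * z| + |P - u * z - s * l / 2| := by rw [abs_mul 2, abs_two]
      _ ≤ 2 * (1 / 100) + 1 / 100 + 1 := by linarith
      _ ≤ 3 := by norm_num
  have hms : -s = 1 ∨ -s = -1 := by rcases hs with h | h <;> rw [h] <;> norm_num
  have hb' : |b - (-s) * l / 2| ≤ 3 := by
    have : b - (-s) * l / 2 = b + s * l / 2 := by ring
    rw [this]; exact hb3
  obtain ⟨hbl, hbu⟩ := k0_big l b (-s) hms hl hb'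
  have hal : |a| ≤ 4 / l := by
    have h1 : 2 * |b| * |a| ≤ 2 := by
      have : |2 * b * a| = 2 * |b| * |a| := by rw [abs_mul, abs_mul, abs_two]
      rw [← this]
      have : 2 * b * a = c + z := by rw [ec]; ring
      rw [this]
      calc |c + z| ≤ |c| + |z| := abs_add_le _ _
        _ ≤ 1 + 1 := add_le_add hc hz
        _ = 2 := by norm_num
    rw [le_div_iff₀ hl0]
    have h2 : 2 * (l / 4) * |a| ≤ 2 * |b| * |a| := by gcongr
    linarith
  refine ⟨hzl, ?_, hal, hb3⟩
  have e7 : z - u / (2 * P) = a / (2 * P) := by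
    rw [ea]; field_simp
  rw [e7, abs_div, abs_mul, abs_two]
  calc |a| / (2 * |P|) ≤ (4 / l) / (2 * (l / 4)) := by gcongr
    _ = 8 / l ^ 2 := by field_simp; norm_num
    _ ≤ 200 / l ^ 2 := by gcongr; norm_num

/-- the general step -/
theorem k0_step (l x : ℝ) (hl : 2000 ≤ l) (hx : x ∈ Cs l) (k : ℕ) (s : ℝ) (hs : s = 1 ∨ s = -1)
    (hu : |X l k x| ≤ 1) (hP : |X l (k + 1) x - s * l / 2| ≤ 3) (hz : |X l (k + 2) x| ≤ 1) :
    |X l (k + 2) x| ≤ 1 / 2 + 200 / l ∧
    ((∃ r : ℝ, (r = 1 ∨ r = -1) ∧ |X l (k + 2) x - r / 2| ≤ 200 / l ∧ |X l (k + 4) x| ≤ 1 ∧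
        |X l (k + 3) x - r * s * l / 2| ≤ 3 ∧
        |X l (k + 2) x - r / 2 - (X l (k + 4) x + r * X l k x) / (4 * r * X l (k + 1) x)| ≤ 200 / l ^ 2) ∨
     (|X l (k + 2) x - X l k x / (2 * X l (k + 1) x)| ≤ 200 / l ^ 2 ∧ |X l (k + 3) x| ≤ 200 / l ∧
        |X l (k + 4) x + s * l / 2| ≤ 3 ∧ |X l (k + 5) x| ≤ 1)) := by
  have hl0 : 0 < l := by linarith
  have e3 : X l (k + 3) x = 2 * X l (k + 2) x * X l (k + 1) x - X l k x := rfl
  have e4 : X l (k + 4) x = 2 * X l (k + 3) x * X l (k + 2) x - X l (k + 1) x := rfl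
  have e5 : X l (k + 5) x = 2 * X l (k + 4) x * X l (k + 3) x - X l (k + 2) x := rfl
  have inv0 := k0_inv l x k
  have inv2 := k0_inv l x (k + 2)
  have hC3 := hx (k + 3)
  have hC4 := hx (k + 4)
  have i1 : k + 2 + 1 = k + 3 := rfl
  have i2 : k + 2 + 2 = k + 4 := rfl
  have i3 : k + 3 + 1 = k + 4 := rfl
  have i4 : k + 4 + 1 = k + 5 := rfl
  rw [i1, i2] at inv2
  rw [i3] at hC3
  rw [i4] at hC4
  have h6 : 6 / l ≤ 200 / l := by gcongr; norm_num
  have h4 : 4 / l ≤ 200 / l := by gcongr; norm_num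
  by_cases hb : |X l (k + 4) x| ≤ 1
  · rw [e3] at e4 inv2
    obtain ⟨r, hr, h1, h2, h3⟩ := k0_caseA l (X l k x) (X l (k + 1) x) (X l (k + 2) x) (X l (k + 4) x) s
      hs hl hu hz hP hb e4 inv2
    refine ⟨?_, Or.inl ⟨r, hr, h1.trans h6, hb, ?_, h3⟩⟩
    · have : |X l (k + 2) x| ≤ |X l (k + 2) x - r / 2| + |r / 2| := by
        calc |X l (k + 2) x| = |(X l (k + 2) x - r / 2) + r / 2| := by ring_nf
          _ ≤ _ := abs_add_le _ _
      have hr2 : |r / 2| = 1 / 2 := by
        rcases hr with h | h <;> rw [h] <;> norm_num [abs_div]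
      rw [hr2] at this
      linarith
    · rw [e3]; exact h2
  · have ha : |X l (k + 3) x| ≤ 1 := hC3.resolve_right hb
    have hc : |X l (k + 5) x| ≤ 1 := hC4.resolve_left hb
    obtain ⟨h1, h2, h3, h5⟩ := k0_caseB l (X l k x) (X l (k + 1) x) (X l (k + 2) x) (X l (k + 3) x)
      (X l (k + 4) x) (X l (k + 5) x) s hs hl hu hz hP ha hc e3 e4 e5 inv0
    refine ⟨?_, Or.inr ⟨h2, h3.trans h4, h5, hc⟩⟩
    linarith

theorem st_K0 : ST_K0 := by
  refine ⟨200, 2000, by norm_num, by norm_num, ?_⟩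
  intro l hl x hx
  have hl0 : 0 < l := by linarith
  have x0 : X l 0 x = 1 := rfl
  have x1 : X l 1 x = x / 2 := rfl
  have x2 : X l 2 x = (x - l) / 2 := rfl
  have x3 : X l 3 x = 2 * X l 2 x * X l 1 x - X l 0 x := rfl
  refine ⟨?_, ?_, fun k s hs hu hP hz => k0_step l x hl hx k s hs hu hP hz⟩
  · by_cases h2 : |X l 2 x| ≤ 1
    · right
      have hx1 : |X l (0 + 1) x - 1 * l / 2| ≤ 3 := by
        have : X l (0 + 1) x - 1 * l / 2 = X l 2 x := by
          rw [x2]; show X l 1 x - 1 * l / 2 = _; rw [x1]; ring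
        rw [this]; linarith
      have hx0 : |X l 0 x| ≤ 1 := by rw [x0]; norm_num
      obtain ⟨-, h⟩ := k0_step l x hl hx 0 1 (Or.inl rfl) hx0 hx1 h2
      have hq : 200 / l ≤ 1 / 10 := by rw [div_le_div_iff₀ hl0 (by norm_num)]; linarith
      rcases h with ⟨r, hr, h1, -⟩ | ⟨h1, -⟩
      · have h1' : |X l 2 x - r / 2| ≤ 1 / 10 := le_trans h1 hq
        have h1'' := abs_le.mp h1'
        rw [x2] at h1''
        rcases hr with h | h
        · refine ⟨2, ?_⟩
          rw [h] at h1''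
          have : (((2 : Fin 3) : ℕ) : ℝ) = 2 := by norm_num
          rw [this, abs_le]
          constructor <;> linarith [h1''.1, h1''.2]
        · refine ⟨0, ?_⟩
          rw [h] at h1''
          have : (((0 : Fin 3) : ℕ) : ℝ) = 0 := by norm_num
          rw [this, abs_le]
          constructor <;> linarith [h1''.1, h1''.2]
      · refine ⟨1, ?_⟩
        have : (((1 : Fin 3) : ℕ) : ℝ) = 1 := by norm_num
        rw [this]
        have hPb := (k0_big l (X l 1 x) 1 (Or.inl rfl) hl hx1).1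
        have h3 : |X l 0 x / (2 * X l 1 x)| ≤ 1 / 100 := by
          rw [x0, abs_div, abs_mul, abs_two, abs_one]
          rw [div_le_div_iff₀ (by linarith) (by norm_num)]
          linarith
        have h4 : 200 / l ^ 2 ≤ 1 / 100 := by
          rw [div_le_div_iff₀ (by positivity) (by norm_num)]
          have : l ^ 2 ≥ 2000 * 2000 := by
            calc (2000 : ℝ) * 2000 ≤ l * l := mul_le_mul hl hl (by norm_num) hl0.le
              _ = l ^ 2 := by ring
          linarith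
        have h5 : |X l 2 x| ≤ 1 / 50 := by
          have h6 : |X l 2 x - X l 0 x / (2 * X l 1 x)| ≤ 1 / 100 := le_trans h1 h4
          calc |X l 2 x| = |(X l 2 x - X l 0 x / (2 * X l 1 x)) + X l 0 x / (2 * X l 1 x)| := by ring_nf
            _ ≤ |X l 2 x - X l 0 x / (2 * X l 1 x)| + |X l 0 x / (2 * X l 1 x)| := abs_add_le _ _
            _ ≤ 1 / 100 + 1 / 100 := add_le_add h6 h3
            _ = 1 / 50 := by norm_num
        have h7 := abs_le.mp h5
        rw [x2] at h7
        rw [abs_le]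
        constructor <;> linarith [h7.1, h7.2]
    · left
      have hX1 : |X l 1 x| ≤ 1 := (hx 1).resolve_right h2
      have hX3 : |X l 3 x| ≤ 1 := (hx 2).resolve_left h2
      rw [x1, abs_div, abs_two] at hX1
      have hx2 : |x| ≤ 2 := by linarith
      have hxx := abs_le.mp hx2
      have e : x * (x - l) = 2 * (X l 3 x + 1) := by rw [x3, x2, x1, x0]; ring
      have h8 : |x| * |x - l| ≤ 4 := by
        rw [← abs_mul, e, abs_mul, abs_two]
        have : |X l 3 x + 1| ≤ |X l 3 x| + |(1 : ℝ)| := abs_add_le _ _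
        rw [abs_one] at this
        linarith
      have h9 : 1000 ≤ |x - l| := by
        rw [abs_sub_comm]
        calc (1000 : ℝ) ≤ l - x := by linarith [hxx.2]
          _ ≤ _ := le_abs_self _
      have h10 : |x| * 1000 ≤ |x| * |x - l| := mul_le_mul_of_nonneg_left h9 (abs_nonneg _)
      linarith
  · intro h34
    have h1 : ¬ |X l 1 x| ≤ 1 := by
      rw [x1]
      intro h
      have := (abs_le.mp h).2
      linarith
    have h2 : |X l 2 x| ≤ 1 := (hx 1).resolve_left h1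
    refine ⟨h2, ?_⟩
    have : X l 1 x - l / 2 = X l 2 x := by rw [x1, x2]; ring
    rw [this]; linarith

end Pool.Agent.Helper36.CV
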