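import Pool.Agent.Helper36.CV.StmtsQ

set_option autoImplicit false

namespace Pool.Agent.Helper57.CV.Q2

open Pool.Agent.Helper36.CV Complex Filter Topology MeasureTheory Set

noncomputable section

variable {Hm Hp : ℝ} {C : Set ℝ}

lemma vf_cont (cd : CD Hm Hp C) : Continuous (vf cd) := by
  unfold vf
  have h1 : Continuous (fun t : ℝ => cd.f (t : ℂ)) :=
    cd.cont.comp_continuous Complex.continuous_ofReal (fun t => by simp)
  exact Complex.continuous_im.comp h1

lemma count_le {ι : Type*} (F : Finset ι) (L : ι → ℝ) (α δ T : ℝ) (hδ : 0 < δ) (hT : 0 ≤ T)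
    (h1 : ∀ i ∈ F, α ≤ L i ∧ L i ≤ α + T)
    (h2 : ∀ i ∈ F, ∀ j ∈ F, i ≠ j → δ ≤ |L i - L j|) :
    (F.card : ℝ) ≤ 1 + T / δ := by
  classical
  have hinj : Set.InjOn (fun i => ⌊(L i - α) / δ⌋₊) (F : Set ι) := by
    intro i hi j hj hij
    by_contra hne
    have h3 := h2 i hi j hj hne
    have hi0 : 0 ≤ (L i - α) / δ := div_nonneg (by linarith [(h1 i hi).1]) hδ.le
    have hj0 : 0 ≤ (L j - α) / δ := div_nonneg (by linarith [(h1 j hj).1]) hδ.le
    have e1 := Nat.floor_le hi0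
    have e2 := Nat.floor_le hj0
    have e3 := Nat.lt_floor_add_one ((L i - α) / δ)
    have e4 := Nat.lt_floor_add_one ((L j - α) / δ)
    simp only at hij
    rw [hij] at e1 e3
    have e5 : |(L i - α) / δ - (L j - α) / δ| < 1 := by
      rw [abs_lt]; constructor <;> linarith
    have e6 : (L i - α) / δ - (L j - α) / δ = (L i - L j) / δ := by ring
    rw [e6, abs_div, abs_of_pos hδ, div_lt_one hδ] at e5
    linarith
  have hmap : Set.MapsTo (fun i => ⌊(L i - α) / δ⌋₊) (F : Set ι)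
      (Finset.range (⌊T / δ⌋₊ + 1) : Finset ℕ) := by
    intro i hi
    simp only [Finset.coe_range, Set.mem_Iio]
    apply Nat.lt_succ_of_le
    apply Nat.floor_le_floor
    apply div_le_div_of_nonneg_right _ hδ.le
    linarith [(h1 i hi).2]
  have h4 := Finset.card_le_card_of_injOn _ hmap hinj
  rw [Finset.card_range] at h4
  have h5 : (F.card : ℝ) ≤ (⌊T / δ⌋₊ : ℝ) + 1 := by exact_mod_cast h4
  have h6 := Nat.floor_le (div_nonneg hT hδ.le)
  linarith

theorem st_Q2 (hP1 : ST_P1) (hP2 : ST_P2) (hQ1 : ST_Q1) : ST_Q2 := by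
  classical
  intro ε Hm Hp C cd hPar hε x d M E0 hd hM hE0 hN hW hY
  obtain ⟨hε0, hHm, hHp⟩ := hPar
  obtain ⟨-, -, p3, -, -, p6⟩ := hP1 Hm Hp C cd
  obtain ⟨g1, g2, -, g4, g5, -, -, g8, -, -, g11, -⟩ := hP2 Hm Hp C cd hHm
  have hvc := vf_cont cd
  set Y := Yf cd x d with hYdef
  have hYpos : 0 < Y := (p3 x d d hd le_rfl).1
  have hMpos : 0 < M := by linarith
  set e1 := ε * (1 + 98 * ε) with he1
  have he1pos : 0 < e1 := by positivity
  have he1le : e1 ≤ 101 / 100 * ε := by rw [he1]; nlinarith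
  have hs5 : 0 < Real.sqrt 5 := by positivity
  -- heights
  have hgt : ∀ V : Gap cd, ∀ t ∈ Icc V.a V.b, |V.mu| * vf cd t ≤ e1 / 4 := by
    intro V t ht
    have h1 := (g4 V).2.2.2.1 t ht
    have h2 : |V.mu| = Real.sqrt 5 * |(V.m : ℝ)| := by
      unfold Gap.mu; rw [abs_mul, abs_of_pos hs5]
    rw [h2]
    have h3 : Real.sqrt 5 * (|(V.m : ℝ)| * vf cd t) ≤ Real.sqrt 5 * Hp :=
      mul_le_mul_of_nonneg_left h1 hs5.le
    nlinarith
  refine ⟨hvc.integrableOn_Icc, ?_⟩
  -- classes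
  let Fs : ℕ → Set (Gap cd) := fun k =>
    {W | W.Meets x d ∧ M * 2 ^ k ≤ |W.mu| ∧ |W.mu| < M * 2 ^ (k + 1)}
  have hFfin : ∀ k, (Fs k).Finite := fun k =>
    (g11 (M * 2 ^ (k + 1))).subset (fun W hW => hW.2.2.le)
  let F : ℕ → Finset (Gap cd) := fun k => (hFfin k).toFinset
  have hF : ∀ k W, W ∈ F k ↔ (W.Meets x d ∧ M * 2 ^ k ≤ |W.mu| ∧ |W.mu| < M * 2 ^ (k + 1)) := by
    intro k W
    simp only [F, Set.Finite.mem_toFinset, Fs]; exact Iff.rfl
  -- cardinality
  have hcard : ∀ k, ((F k).card : ℝ) ≤ 1 + 60 * Y * M * 2 ^ k := by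
    intro k
    have h2k : (1 : ℝ) ≤ 2 ^ k := one_le_pow₀ (by norm_num)
    have hMk : 1 ≤ M * 2 ^ k := by nlinarith
    have hlab : ∀ W ∈ F k, ∃ t, |t - x| ≤ d ∧ Nf cd t = W.N := by
      intro W hWF
      have hm := ((hF k W).1 hWF).1
      have hlt := W.lt
      refine ⟨max W.a (x - d), ?_, ?_⟩
      · rw [abs_le]
        constructor
        · have := le_max_right W.a (x - d); linarith
        · have : max W.a (x - d) ≤ x + d := max_le hm.1 (by linarith)
          linarith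
      · apply W.lab
        exact ⟨le_max_left _ _, max_le hlt.le hm.2⟩
    have hmono : ∀ s t : ℝ, s ≤ t → Nf cd s ≤ Nf cd t := fun s t hst => cd.re_mono s t hst
    have hT : Nf cd (x + d) ≤ Nf cd (x - d) + 12 * Y := by
      have := p6 x d (x + d) (x - d) hd (by simp [abs_of_pos hd]) (by simp [abs_of_pos hd])
      have h2 := le_abs_self (Nf cd (x + d) - Nf cd (x - d))
      linarith
    have hc := count_le (F k) (fun W => W.N) (Nf cd (x - d)) (1 / (5 * M * 2 ^ k)) (12 * Y)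
      (by positivity) (by positivity) (by
        intro W hWF
        obtain ⟨t, ht, hNt⟩ := hlab W hWF
        rw [abs_le] at ht
        rw [← hNt]
        exact ⟨hmono _ _ (by linarith), (hmono _ _ (by linarith)).trans hT⟩) (by
        intro V hV W hW' hne
        have h8 := g8 V W hne
        have hV' := (hF k V).1 hV
        have hW'' := (hF k W).1 hW'
        have hab : |V.mu - W.mu| ≤ 4 * (M * 2 ^ k) := by
          have h1 := abs_sub (V.mu) (W.mu)
          have h2 : M * 2 ^ (k + 1) = 2 * (M * 2 ^ k) := by ring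
          rw [h2] at hV' hW''
          linarith [hV'.2.2, hW''.2.2]
        have hV1 := (g4 V).2.1
        have hV2 := (g4 V).2.2.1
        have hW1 := (g4 W).2.1
        have hW2 := (g4 W).2.2.1
        have hdN : |V.N - W.N| ≤ 1 := by rw [abs_le]; constructor <;> linarith
        have hdN0 : 0 ≤ |V.N - W.N| := abs_nonneg _
        rw [div_le_iff₀ (by positivity)]
        have h9 : |V.N - W.N| * (|V.N - W.N| + |V.mu - W.mu|) ≤ |V.N - W.N| * (5 * M * 2 ^ k) := by
          apply mul_le_mul_of_nonneg_left _ hdN0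
          nlinarith
        linarith)
    have : 12 * Y / (1 / (5 * M * 2 ^ k)) = 60 * Y * M * 2 ^ k := by
      field_simp
      ring
    rw [this] at hc
    exact hc
  -- masses
  let H : ℕ → ℝ := fun k => e1 / (4 * M * 2 ^ k)
  have hHpos : ∀ k, 0 < H k := fun k => by simp only [H]; positivity
  have hmass : ∀ k, ∀ W ∈ F k,
      ∫⁻ t in Icc W.a W.b, ENNReal.ofReal (vf cd t) ≤ ENNReal.ofReal (21 / 2 * (d / Y) * H k ^ 2) := by
    intro k W hWF
    have hWF' := (hF k W).1 hWF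
    have h2k : (1 : ℝ) ≤ 2 ^ k := one_le_pow₀ (by norm_num)
    have hvH : ∀ t ∈ Icc W.a W.b, vf cd t ≤ H k := by
      intro t ht
      have h1 := hgt W t ht
      have h2 : M * 2 ^ k * vf cd t ≤ |W.mu| * vf cd t :=
        mul_le_mul_of_nonneg_right hWF'.2.1 (g1 t).1
      simp only [H]
      rw [le_div_iff₀ (by positivity)]
      nlinarith
    have h12 : 12 * H k ≤ Y := by
      simp only [H]
      have h3 : 12 * (e1 / (4 * M * 2 ^ k)) = 3 * e1 / (M * 2 ^ k) := by field_simp; ring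
      rw [h3, div_le_iff₀ (by positivity)]
      have h4 : 3 * e1 ≤ 31 / 10 * ε := by nlinarith
      have h5 : M * Y ≤ M * Y * 2 ^ k := by
        have : 0 ≤ M * Y := by positivity
        nlinarith
      nlinarith
    have hq := (hQ1 Hm Hp C cd hHm W x d (H k) hd hWF'.1 hvH h12).1
    have hs : W.s * H k ≤ 21 / 2 * (d / Y) * H k ^ 2 := by
      have h6 : W.s ≤ 21 / 2 * d * H k / Y := by
        rw [le_div_iff₀ hYpos]; exact hq
      calc W.s * H k ≤ (21 / 2 * d * H k / Y) * H k := mul_le_mul_of_nonneg_right h6 (hHpos k).le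
        _ = _ := by ring
    calc ∫⁻ t in Icc W.a W.b, ENNReal.ofReal (vf cd t)
        ≤ ∫⁻ t in Icc W.a W.b, ENNReal.ofReal (H k) := by
          apply setLIntegral_mono measurable_const
          intro t ht
          exact ENNReal.ofReal_le_ofReal (hvH t ht)
      _ = ENNReal.ofReal (H k) * volume (Icc W.a W.b) := by rw [setLIntegral_const]
      _ = ENNReal.ofReal (W.s * H k) := by
          rw [Real.volume_Icc, ← ENNReal.ofReal_mul (hHpos k).le]
          congr 1
          unfold Gap.s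
          ring
      _ ≤ _ := ENNReal.ofReal_le_ofReal hs
  -- the cover
  have hcover : Icc (x - d) (x + d) \ E0 ⊆
      (vf cd ⁻¹' {0}) ∪ ⋃ k : ℕ, ⋃ W : {W // W ∈ F k}, Icc W.1.a W.1.b := by
    intro t ht
    by_cases hv : vf cd t = 0
    · left; exact hv
    · right
      have htC : t ∉ C := fun h => hv (((g1 t).2.2.2).1 h)
      obtain ⟨V, hV1, hV2⟩ := g2 t htC (hN t ht.1).1 (hN t ht.1).2
      have hmeets : V.Meets x d := ⟨by linarith [ht.1.2], by linarith [ht.1.1]⟩
      have hMV : M ≤ |V.mu| := by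
        rcases hW V hmeets with h | h
        · exact absurd (h ⟨hV1.le, hV2.le⟩) ht.2
        · exact h
      obtain ⟨k, hk1, hk2⟩ := exists_nat_pow_near (x := |V.mu| / M) (y := 2)
        (by rw [le_div_iff₀ hMpos]; linarith) (by norm_num)
      rw [le_div_iff₀ hMpos] at hk1
      rw [div_lt_iff₀ hMpos] at hk2
      rw [Set.mem_iUnion]
      refine ⟨k, ?_⟩
      rw [Set.mem_iUnion]
      exact ⟨⟨V, (hF k V).2 ⟨hmeets, by linarith, by linarith⟩⟩, hV1.le, hV2.le⟩
  have hzero : ∫⁻ t in (vf cd ⁻¹' {0}), ENNReal.ofReal (vf cd t) = 0 := by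
    rw [setLIntegral_eq_zero_iff (hvc.measurable (measurableSet_singleton 0))
      (hvc.measurable.ennreal_ofReal)]
    filter_upwards with t ht
    have h0 : vf cd t = 0 := ht
    simp [h0]
  -- the sum
  let ck : ℕ → ℝ := fun k => (1 + 60 * Y * M * 2 ^ k) * (21 / 2 * (d / Y) * H k ^ 2)
  have hck0 : ∀ k, 0 ≤ ck k := fun k => by
    simp only [ck]
    have := hHpos k
    positivity
  have hckeq : ∀ k, ck k = 21 / 2 * (d / Y) * (e1 ^ 2 / (16 * M ^ 2)) * (1 / 4) ^ k +
      (21 / 2 * (d / Y) * (e1 ^ 2 / (16 * M ^ 2)) * (60 * Y * M)) * (1 / 2) ^ k := by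
    intro k
    simp only [ck, H]
    have h4 : ((1 : ℝ) / 4) ^ k = 1 / (2 ^ k) ^ 2 := by
      rw [one_div_pow, ← pow_mul, mul_comm k 2, pow_mul]; norm_num
    have h2 : ((1 : ℝ) / 2) ^ k = 1 / 2 ^ k := by rw [one_div_pow]
    rw [h4, h2]
    have h2k : (2 : ℝ) ^ k ≠ 0 := by positivity
    generalize (2 : ℝ) ^ k = z at h2k
    field_simp
    ring
  have hs4 : HasSum (fun k : ℕ => ((1 : ℝ) / 4) ^ k) (4 / 3) := by
    have := hasSum_geometric_of_lt_one (r := (1 : ℝ) / 4) (by norm_num) (by norm_num)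
    norm_num at this
    exact this
  have hs2 : HasSum (fun k : ℕ => ((1 : ℝ) / 2) ^ k) 2 := by
    have := hasSum_geometric_of_lt_one (r := (1 : ℝ) / 2) (by norm_num) (by norm_num)
    norm_num at this
    exact this
  have hcksum : HasSum ck (21 / 2 * (d / Y) * (e1 ^ 2 / (16 * M ^ 2)) * (4 / 3) +
      (21 / 2 * (d / Y) * (e1 ^ 2 / (16 * M ^ 2)) * (60 * Y * M)) * 2) := by
    have := (hs4.mul_left (21 / 2 * (d / Y) * (e1 ^ 2 / (16 * M ^ 2)))).add
      (hs2.mul_left (21 / 2 * (d / Y) * (e1 ^ 2 / (16 * M ^ 2)) * (60 * Y * M)))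
    have hfun : ck = fun k => 21 / 2 * (d / Y) * (e1 ^ 2 / (16 * M ^ 2)) * (1 / 4) ^ k +
      (21 / 2 * (d / Y) * (e1 ^ 2 / (16 * M ^ 2)) * (60 * Y * M)) * (1 / 2) ^ k := funext hckeq
    rw [hfun]
    exact this
  have hlin : ∫⁻ t in Icc (x - d) (x + d) \ E0, ENNReal.ofReal (vf cd t) ≤
      ENNReal.ofReal (∑' k, ck k) := by
    calc ∫⁻ t in Icc (x - d) (x + d) \ E0, ENNReal.ofReal (vf cd t)
        ≤ ∫⁻ t in ((vf cd ⁻¹' {0}) ∪ ⋃ k : ℕ, ⋃ W : {W // W ∈ F k}, Icc W.1.a W.1.b),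
            ENNReal.ofReal (vf cd t) := lintegral_mono_set hcover
      _ ≤ (∫⁻ t in (vf cd ⁻¹' {0}), ENNReal.ofReal (vf cd t)) +
            ∫⁻ t in ⋃ k : ℕ, ⋃ W : {W // W ∈ F k}, Icc W.1.a W.1.b, ENNReal.ofReal (vf cd t) :=
          lintegral_union_le _ _ _
      _ = ∫⁻ t in ⋃ k : ℕ, ⋃ W : {W // W ∈ F k}, Icc W.1.a W.1.b, ENNReal.ofReal (vf cd t) := by
          rw [hzero, zero_add]
      _ ≤ ∑' k : ℕ, ∫⁻ t in ⋃ W : {W // W ∈ F k}, Icc W.1.a W.1.b, ENNReal.ofReal (vf cd t) :=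
          lintegral_iUnion_le _ _
      _ ≤ ∑' k : ℕ, ENNReal.ofReal (ck k) := by
          apply ENNReal.tsum_le_tsum
          intro k
          calc ∫⁻ t in ⋃ W : {W // W ∈ F k}, Icc W.1.a W.1.b, ENNReal.ofReal (vf cd t)
              ≤ ∑' W : {W // W ∈ F k}, ∫⁻ t in Icc W.1.a W.1.b, ENNReal.ofReal (vf cd t) :=
                lintegral_iUnion_le _ _
            _ ≤ ∑' W : {W // W ∈ F k}, ENNReal.ofReal (21 / 2 * (d / Y) * H k ^ 2) :=
                ENNReal.tsum_le_tsum (fun W => hmass k W.1 W.2)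
            _ = ((F k).card : ENNReal) * ENNReal.ofReal (21 / 2 * (d / Y) * H k ^ 2) := by
                rw [tsum_fintype, Finset.sum_const, nsmul_eq_mul]
                congr 2
                simp
            _ = ENNReal.ofReal (((F k).card : ℝ) * (21 / 2 * (d / Y) * H k ^ 2)) := by
                rw [ENNReal.ofReal_mul (Nat.cast_nonneg _), ENNReal.ofReal_natCast]
            _ ≤ ENNReal.ofReal (ck k) := by
                apply ENNReal.ofReal_le_ofReal
                simp only [ck]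
                apply mul_le_mul_of_nonneg_right (hcard k)
                have := hHpos k
                positivity
      _ = ENNReal.ofReal (∑' k, ck k) := by
          rw [ENNReal.ofReal_tsum_of_nonneg hck0 hcksum.summable]
  have hint : ∫ t in Icc (x - d) (x + d) \ E0, vf cd t ≤ ∑' k, ck k := by
    rw [integral_eq_lintegral_of_nonneg_ae (Filter.Eventually.of_forall (fun t => (g1 t).1))
      hvc.aestronglyMeasurable]
    exact ENNReal.toReal_le_of_le_ofReal (tsum_nonneg hck0) hlin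
  refine hint.trans ?_
  rw [hcksum.tsum_eq]
  have he2 : e1 ^ 2 ≤ 10202 / 10000 * ε ^ 2 := by nlinarith
  have hk : 21 / 2 * (d / Y) * (e1 ^ 2 / (16 * M ^ 2)) * (4 / 3) +
      (21 / 2 * (d / Y) * (e1 ^ 2 / (16 * M ^ 2)) * (60 * Y * M)) * 2 =
      e1 ^ 2 * (7 / 8 * (d / (Y * M ^ 2)) + 315 / 4 * (d / M)) := by
    field_simp
    ring
  rw [hk]
  have hA : 0 ≤ d / (Y * M ^ 2) := by positivity
  have hB : 0 ≤ d / M := by positivity
  calc e1 ^ 2 * (7 / 8 * (d / (Y * M ^ 2)) + 315 / 4 * (d / M))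
      ≤ (10202 / 10000 * ε ^ 2) * (7 / 8 * (d / (Y * M ^ 2)) + 315 / 4 * (d / M)) := by
        apply mul_le_mul_of_nonneg_right he2
        positivity
    _ = ε ^ 2 * (10202 / 10000 * (7 / 8) * (d / (Y * M ^ 2)) + 10202 / 10000 * (315 / 4) * (d / M)) := by
        ring
    _ ≤ ε ^ 2 * (d / (Y * M ^ 2) + 81 * d / M) := by
        apply mul_le_mul_of_nonneg_left _ (by positivity)
        have : 81 * d / M = 81 * (d / M) := by ring
        rw [this]
        nlinarith

end

end Pool.Agent.Helper57.CV.Q2
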