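import Pool.Agent.Helper36.CV.StmtsR

set_option autoImplicit false


namespace Pool.Agent.Helper57.CV.R5

open Pool.Agent.Helper36.CV Complex Filter Topology MeasureTheory Set

noncomputable section

variable {Hm Hp : ℝ} {C : Set ℝ}

lemma vf_cont (cd : CD Hm Hp C) : Continuous (vf cd) := by
  unfold vf
  have h1 : Continuous (fun t : ℝ => cd.f (t : ℂ)) :=
    cd.cont.comp_continuous Complex.continuous_ofReal (fun t => by simp)
  exact Complex.continuous_im.comp h1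

/-- summing over dyadic shells -/
lemma shells (F : ℝ → ENNReal) (c r I0 : ℝ) (S : ℕ → ℝ) (hI0 : 0 ≤ I0) (hS : ∀ k, 0 ≤ S k)
    (h0 : ∫⁻ t in Icc (c - r) (c + r), F t ≤ ENNReal.ofReal I0) (n : ℕ)
    (h1 : ∀ k < n, ∫⁻ t in Icc (c - 2 * (2 ^ k * r)) (c + 2 * (2 ^ k * r)) \
      Ioo (c - 2 ^ k * r) (c + 2 ^ k * r), F t ≤ ENNReal.ofReal (S k)) :
    ∫⁻ t in Icc (c - 2 ^ n * r) (c + 2 ^ n * r), F t ≤
      ENNReal.ofReal (I0 + ∑ k ∈ Finset.range n, S k) := by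
  induction n with
  | zero => simpa using h0
  | succ n ih =>
    have ih' := ih (fun k hk => h1 k (by omega))
    have hsub : Icc (c - 2 ^ (n + 1) * r) (c + 2 ^ (n + 1) * r) ⊆
        Icc (c - 2 ^ n * r) (c + 2 ^ n * r) ∪ (Icc (c - 2 * (2 ^ n * r)) (c + 2 * (2 ^ n * r)) \
          Ioo (c - 2 ^ n * r) (c + 2 ^ n * r)) := by
      intro t ht
      by_cases h : t ∈ Ioo (c - 2 ^ n * r) (c + 2 ^ n * r)
      · left; exact Ioo_subset_Icc_self h
      · right
        refine ⟨?_, h⟩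
        have h2 : (2 : ℝ) ^ (n + 1) * r = 2 * (2 ^ n * r) := by ring
        rwa [h2] at ht
    have hsum : 0 ≤ ∑ k ∈ Finset.range n, S k := Finset.sum_nonneg (fun k _ => hS k)
    calc ∫⁻ t in Icc (c - 2 ^ (n + 1) * r) (c + 2 ^ (n + 1) * r), F t
        ≤ ∫⁻ t in (Icc (c - 2 ^ n * r) (c + 2 ^ n * r) ∪ (Icc (c - 2 * (2 ^ n * r)) (c + 2 * (2 ^ n * r)) \
          Ioo (c - 2 ^ n * r) (c + 2 ^ n * r))), F t := lintegral_mono_set hsub
      _ ≤ (∫⁻ t in Icc (c - 2 ^ n * r) (c + 2 ^ n * r), F t) +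
          ∫⁻ t in (Icc (c - 2 * (2 ^ n * r)) (c + 2 * (2 ^ n * r)) \
          Ioo (c - 2 ^ n * r) (c + 2 ^ n * r)), F t := lintegral_union_le _ _ _
      _ ≤ ENNReal.ofReal (I0 + ∑ k ∈ Finset.range n, S k) + ENNReal.ofReal (S n) :=
          add_le_add ih' (h1 n (by omega))
      _ = ENNReal.ofReal (I0 + ∑ k ∈ Finset.range (n + 1), S k) := by
          rw [← ENNReal.ofReal_add (by positivity) (hS n), Finset.sum_range_succ, add_assoc]

lemma abs_qr (a b t : ℝ) : |qr a b t| = Real.sqrt ((t - a) * (t - b)) := by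
  unfold qr
  split_ifs
  · exact abs_of_nonneg (Real.sqrt_nonneg _)
  · rw [abs_neg]; exact abs_of_nonneg (Real.sqrt_nonneg _)

lemma four_le (n : ℕ) : (n : ℝ) ^ 4 ≤ 21 * 2 ^ n := by
  have h : ∀ n : ℕ, n ^ 4 ≤ 21 * 2 ^ n := by
    intro n
    rcases Nat.lt_or_ge n 16 with h | h
    · interval_cases n <;> norm_num
    · induction n, h using Nat.le_induction with
      | base => norm_num
      | succ m hm ih =>
        have : (m + 1) ^ 4 ≤ 2 * m ^ 4 := by
          have e1 : (m + 1) ^ 4 = m ^ 4 + 4 * m ^ 3 + 6 * m ^ 2 + 4 * m + 1 := by ring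
          have e2 : 16 * m ^ 3 ≤ m ^ 4 := by
            have : m ^ 4 = m * m ^ 3 := by ring
            rw [this]
            exact Nat.mul_le_mul_right _ hm
          have e3 : 16 * m ^ 2 ≤ m ^ 3 := by
            have : m ^ 3 = m * m ^ 2 := by ring
            rw [this]
            exact Nat.mul_le_mul_right _ hm
          have e4 : 16 * m ≤ m ^ 2 := by
            have : m ^ 2 = m * m := by ring
            rw [this]
            exact Nat.mul_le_mul_right _ hm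
          omega
        calc (m + 1) ^ 4 ≤ 2 * m ^ 4 := this
          _ ≤ 2 * (21 * 2 ^ m) := Nat.mul_le_mul_left _ ih
          _ = 21 * 2 ^ (m + 1) := by ring
  exact_mod_cast h n

/-- upper bound for Y at 60 ε ρ -/
lemma Y_up (hP1 : ST_P1) (hv0 : ∀ (cd : CD Hm Hp C) (t : ℝ), 0 ≤ vf cd t) (cd : CD Hm Hp C) (c ρ p ε : ℝ)
    (hε : 0 < ε) (hρ : 0 < ρ) (hp : 0 < p)
    (hm : ∫ t in Icc (c - ρ / 10) (c + ρ / 10), vf cd t ≤ 70 * ε ^ 2 * p * ρ)
    (hY : Yf cd c ρ ≤ 556 / 100 * p) :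
    Yf cd c (60 * ε * ρ) ≤ 33720 * ε * p := by
  obtain ⟨p1, -, -, -, -, -⟩ := hP1 Hm Hp C cd
  have hr0 : 0 < 60 * ε * ρ := by positivity
  obtain ⟨hi1, hf1⟩ := p1 c (60 * ε * ρ) hr0
  obtain ⟨hi2, hf2⟩ := p1 c ρ hρ
  set r0 := 60 * ε * ρ with hr0def
  have hvc := vf_cont cd
  have hind : Integrable (fun t => (Icc (c - ρ / 10) (c + ρ / 10)).indicator (vf cd) t) :=
    (hvc.integrableOn_Icc).integrable_indicator measurableSet_Icc
  have hbd : ∀ t, vf cd t * (r0 / ((t - c) ^ 2 + r0 ^ 2)) ≤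
      1 / r0 * (Icc (c - ρ / 10) (c + ρ / 10)).indicator (vf cd) t +
        101 * (r0 / ρ) * (vf cd t * (ρ / ((t - c) ^ 2 + ρ ^ 2))) := by
    intro t
    have hv := hv0 cd t
    by_cases ht : t ∈ Icc (c - ρ / 10) (c + ρ / 10)
    · rw [indicator_of_mem ht]
      have h1 : r0 / ((t - c) ^ 2 + r0 ^ 2) ≤ 1 / r0 := by
        rw [div_le_div_iff₀ (by positivity) hr0]
        nlinarith [sq_nonneg (t - c)]
      have h2 : 0 ≤ 101 * (r0 / ρ) * (vf cd t * (ρ / ((t - c) ^ 2 + ρ ^ 2))) := by positivity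
      have h3 := mul_le_mul_of_nonneg_left h1 hv
      linarith [h3, mul_comm (vf cd t) (1 / r0)]
    · rw [indicator_of_notMem ht, mul_zero, zero_add]
      have hts : ρ ^ 2 ≤ 100 * (t - c) ^ 2 := by
        rw [mem_Icc, not_and_or, not_le, not_le] at ht
        rcases ht with h | h
        · nlinarith
        · nlinarith
      have hpos : 0 < (t - c) ^ 2 := by nlinarith
      have h1 : r0 / ((t - c) ^ 2 + r0 ^ 2) ≤ 101 * (r0 / ρ) * (ρ / ((t - c) ^ 2 + ρ ^ 2)) := by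
        have h4 : 101 * (r0 / ρ) * (ρ / ((t - c) ^ 2 + ρ ^ 2)) = 101 * r0 / ((t - c) ^ 2 + ρ ^ 2) := by
          field_simp
        rw [h4, div_le_div_iff₀ (by positivity) (by positivity)]
        nlinarith [sq_nonneg r0]
      have h3 := mul_le_mul_of_nonneg_left h1 hv
      calc _ ≤ _ := h3
        _ = _ := by ring
  have hint : ∫ t, vf cd t * (r0 / ((t - c) ^ 2 + r0 ^ 2)) ≤
      ∫ t, (1 / r0 * (Icc (c - ρ / 10) (c + ρ / 10)).indicator (vf cd) t +
        101 * (r0 / ρ) * (vf cd t * (ρ / ((t - c) ^ 2 + ρ ^ 2)))) :=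
    integral_mono hi1 ((hind.const_mul _).add (hi2.const_mul _)) hbd
  rw [integral_add (hind.const_mul _) (hi2.const_mul _), integral_const_mul, integral_const_mul,
    integral_indicator measurableSet_Icc] at hint
  have hpi : 0 < Real.pi := Real.pi_pos
  have hpi3 : 3 < Real.pi := Real.pi_gt_three
  have hJ : ∫ t, vf cd t * (ρ / ((t - c) ^ 2 + ρ ^ 2)) = Real.pi * Yf cd c ρ := by
    rw [hf2, ← mul_assoc, mul_one_div_cancel hpi.ne', one_mul]
  rw [hJ] at hint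
  have h5 : 1 / r0 * ∫ t in Icc (c - ρ / 10) (c + ρ / 10), vf cd t ≤ 70 / 60 * ε * p := by
    calc 1 / r0 * ∫ t in Icc (c - ρ / 10) (c + ρ / 10), vf cd t
        ≤ 1 / r0 * (70 * ε ^ 2 * p * ρ) := mul_le_mul_of_nonneg_left hm (by positivity)
      _ = 70 / 60 * ε * p := by rw [hr0def]; field_simp
  have h6 : 101 * (r0 / ρ) * (Real.pi * Yf cd c ρ) ≤ Real.pi * (101 * 60 * (556 / 100) * ε * p) := by
    have : r0 / ρ = 60 * ε := by rw [hr0def]; field_simp
    rw [this]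
    have h7 : 0 ≤ 101 * (60 * ε) * Real.pi := by positivity
    nlinarith [mul_le_mul_of_nonneg_left hY h7]
  rw [hf1]
  have h8 : ∫ t, vf cd t * (r0 / ((t - c) ^ 2 + r0 ^ 2)) ≤ Real.pi * (33720 * ε * p) := by
    have h9 : 70 / 60 * ε * p ≤ Real.pi * (1 * ε * p) := by
      have : 0 ≤ ε * p := by positivity
      nlinarith
    have h10 : 0 ≤ Real.pi * (ε * p) := by positivity
    nlinarith
  rw [one_div, inv_mul_le_iff₀ hpi]
  exact h8

/-- the number of shells -/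
lemma count_shells (ω ε ρ r : ℝ) (n : ℕ) (hω : 0 < ω) (hω20 : ω ^ 20 = ε) (hρ : 0 < ρ)
    (hrl : 975 / 1000 * ε * ρ ≤ r) (hn : ∀ k < n, 2 ^ k * r < ρ / 20) :
    (n : ℝ) * ω ^ 5 ≤ 2 := by
  have hε : 0 < ε := by rw [← hω20]; positivity
  rcases Nat.eq_zero_or_pos n with h | h
  · subst h; simp
  · obtain ⟨m, rfl⟩ : ∃ m, n = m + 1 := ⟨n - 1, by omega⟩
    have h1 := hn m (by omega)
    have h2 : (2 : ℝ) ^ m * (975 / 1000 * ε * ρ) ≤ 2 ^ m * r :=
      mul_le_mul_of_nonneg_left hrl (by positivity)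
    have h3 : (2 : ℝ) ^ m * ε * (975 / 1000) * ρ < 1 / 20 * ρ := by
      calc (2 : ℝ) ^ m * ε * (975 / 1000) * ρ = 2 ^ m * (975 / 1000 * ε * ρ) := by ring
        _ ≤ 2 ^ m * r := h2
        _ < 1 / 20 * ρ := by linarith
    have h4 := lt_of_mul_lt_mul_right h3 hρ.le
    have h5 := four_le (m + 1)
    have h6 : (((m + 1 : ℕ) : ℝ) * ω ^ 5) ^ 4 ≤ 2 ^ 4 := by
      calc (((m + 1 : ℕ) : ℝ) * ω ^ 5) ^ 4 = ((m + 1 : ℕ) : ℝ) ^ 4 * ε := by rw [← hω20]; ring
        _ ≤ (21 * 2 ^ (m + 1)) * ε := mul_le_mul_of_nonneg_right h5 hε.le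
        _ = 42 * (2 ^ m * ε) := by ring
        _ ≤ 2 ^ 4 := by linarith
    exact le_of_pow_le_pow_left₀ (by norm_num) (by norm_num) h6

/-- the final numerical estimate -/
lemma final_num (ω ε p ρ r K bG b : ℝ) (n : ℕ) (hω : 0 < ω) (hω1 : ω < 1) (hω20 : ω ^ 20 = ε) (hp : 0 < p)
    (hρ : 0 < ρ) (hr : 0 < r) (hrl : 975 / 1000 * ε * ρ ≤ r) (hK : 1 ≤ K)
    (hω2 : ω ^ 2 * (2 * K + 2 * 10 ^ 10) ≤ 1) (hω10 : ω ^ 10 ≤ 32 / 10 ^ 10)
    (hn : (n : ℝ) * ω ^ 5 ≤ 2) (hbG0 : 0 ≤ bG) (hbG : bG ≤ 1 / 25) (hb : b = bG + 13488 * ω ^ 10) :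
    (14 / 10 * K * ε ^ 2 * p + ∑ k ∈ Finset.range n,
      ε ^ 2 * p * (256 / 10 * b ^ 2 * ρ / (2 ^ k * r) + 90 / ω ^ 10 + 440) / (99 / 100)) + 162 * ω ^ 24 * p ≤
    60 * ε * bG ^ 2 * p + ω ^ 22 * p := by
  have hε : 0 < ε := by rw [← hω20]; positivity
  have hgeo : ∑ k ∈ Finset.range n, (1 / 2 : ℝ) ^ k ≤ 2 := by
    have h1 : Summable (fun k : ℕ => (1 / 2 : ℝ) ^ k) := summable_geometric_two
    have h2 := h1.sum_le_tsum (Finset.range n) (fun k _ => by positivity)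
    rw [tsum_geometric_two] at h2
    exact h2
  have hsum : ∑ k ∈ Finset.range n,
      ε ^ 2 * p * (256 / 10 * b ^ 2 * ρ / (2 ^ k * r) + 90 / ω ^ 10 + 440) / (99 / 100) =
      ε ^ 2 * p * (256 / 10) * b ^ 2 * (ρ / r) / (99 / 100) * ∑ k ∈ Finset.range n, (1 / 2 : ℝ) ^ k +
      n * (ε ^ 2 * p * (90 / ω ^ 10 + 440) / (99 / 100)) := by
    rw [Finset.mul_sum, ← nsmul_eq_mul, ← Finset.card_range n, ← Finset.sum_const, Finset.card_range,
      ← Finset.sum_add_distrib]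
    apply Finset.sum_congr rfl
    intro k _
    rw [one_div_pow]
    have h2k : (2 : ℝ) ^ k ≠ 0 := by positivity
    field_simp
    ring
  rw [hsum]
  have hb0 : 0 ≤ b := by rw [hb]; positivity
  have hρr : ε * (ρ / r) ≤ 1000 / 975 := by
    rw [← mul_div_assoc, div_le_iff₀ hr]
    linarith
  have hA : ε ^ 2 * p * (256 / 10) * b ^ 2 * (ρ / r) / (99 / 100) * ∑ k ∈ Finset.range n, (1 / 2 : ℝ) ^ k ≤
      531 / 10 * ε * p * b ^ 2 := by
    have h1 : 0 ≤ ε ^ 2 * p * (256 / 10) * b ^ 2 * (ρ / r) / (99 / 100) := by positivity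
    calc _ ≤ ε ^ 2 * p * (256 / 10) * b ^ 2 * (ρ / r) / (99 / 100) * 2 := mul_le_mul_of_nonneg_left hgeo h1
      _ = (ε * (ρ / r)) * (ε * p * b ^ 2 * (512 / 10 / (99 / 100))) := by ring
      _ ≤ (1000 / 975) * (ε * p * b ^ 2 * (512 / 10 / (99 / 100))) :=
          mul_le_mul_of_nonneg_right hρr (by positivity)
      _ ≤ 531 / 10 * ε * p * b ^ 2 := by
          have h2 : 0 ≤ ε * p * b ^ 2 := by positivity
          linarith
  have hb2 : b ^ 2 ≤ bG ^ 2 + 1700 * ω ^ 10 := by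
    rw [hb]
    have h1 : 0 ≤ ω ^ 10 := by positivity
    have h2 : ω ^ 10 * ω ^ 10 ≤ 32 / 10 ^ 10 * ω ^ 10 := mul_le_mul_of_nonneg_right hω10 h1
    have h3 : bG * ω ^ 10 ≤ 1 / 25 * ω ^ 10 := mul_le_mul_of_nonneg_right hbG h1
    norm_num at h2
    nlinarith
  have hB : 531 / 10 * ε * p * b ^ 2 ≤ 60 * ε * bG ^ 2 * p + 100000 * ω ^ 24 * p := by
    have h1 : 531 / 10 * ε * p * b ^ 2 ≤ 531 / 10 * ε * p * (bG ^ 2 + 1700 * ω ^ 10) :=
      mul_le_mul_of_nonneg_left hb2 (by positivity)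
    have h2 : ε * ω ^ 10 ≤ ω ^ 24 := by
      rw [← hω20]
      calc ω ^ 20 * ω ^ 10 = ω ^ 6 * ω ^ 24 := by ring
        _ ≤ 1 * ω ^ 24 := mul_le_mul_of_nonneg_right (pow_le_one₀ hω.le hω1.le) (by positivity)
        _ = ω ^ 24 := one_mul _
    have h3 : ε * ω ^ 10 * p ≤ ω ^ 24 * p := mul_le_mul_of_nonneg_right h2 hp.le
    have h4 : 0 ≤ ε * bG ^ 2 * p := by positivity
    have h5 : 0 ≤ ω ^ 24 * p := by positivity
    calc _ ≤ _ := h1
      _ = 531 / 10 * (ε * bG ^ 2 * p) + 531 / 10 * 1700 * (ε * ω ^ 10 * p) := by ring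
      _ ≤ 60 * (ε * bG ^ 2 * p) + 100000 * (ω ^ 24 * p) := by linarith
      _ = _ := by ring
  have hCc : (n : ℝ) * (ε ^ 2 * p * (90 / ω ^ 10 + 440) / (99 / 100)) ≤ 1100 * ω ^ 24 * p := by
    have h1 : ε ^ 2 * p * (90 / ω ^ 10 + 440) = p * ω ^ 30 * (90 + 440 * ω ^ 10) := by
      rw [← hω20]; field_simp
    have h2 : ω ^ 10 ≤ 1 := pow_le_one₀ hω.le hω1.le
    have h3 : p * ω ^ 30 * (90 + 440 * ω ^ 10) ≤ p * ω ^ 30 * 530 :=
      mul_le_mul_of_nonneg_left (by linarith) (by positivity)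
    rw [h1]
    calc (n : ℝ) * (p * ω ^ 30 * (90 + 440 * ω ^ 10) / (99 / 100))
        ≤ n * (p * ω ^ 30 * 530 / (99 / 100)) := by
          apply mul_le_mul_of_nonneg_left _ (Nat.cast_nonneg _)
          apply div_le_div_of_nonneg_right h3 (by norm_num)
      _ = (n * ω ^ 5) * (p * ω ^ 25 * (530 / (99 / 100))) := by ring
      _ ≤ 2 * (p * ω ^ 25 * (530 / (99 / 100))) := mul_le_mul_of_nonneg_right hn (by positivity)
      _ = (p * ω ^ 24 * (1060 / (99 / 100))) * ω := by ring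
      _ ≤ (p * ω ^ 24 * (1060 / (99 / 100))) * 1 := mul_le_mul_of_nonneg_left hω1.le (by positivity)
      _ ≤ 1100 * ω ^ 24 * p := by
          have : 0 ≤ p * ω ^ 24 := by positivity
          linarith
  have hD : 14 / 10 * K * ε ^ 2 * p ≤ 14 / 10 * K * ω ^ 24 * p := by
    have h1 : ε ^ 2 ≤ ω ^ 24 := by
      rw [← hω20]
      calc (ω ^ 20) ^ 2 = ω ^ 16 * ω ^ 24 := by ring
        _ ≤ 1 * ω ^ 24 := mul_le_mul_of_nonneg_right (pow_le_one₀ hω.le hω1.le) (by positivity)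
        _ = ω ^ 24 := one_mul _
    apply mul_le_mul_of_nonneg_right _ hp.le
    exact mul_le_mul_of_nonneg_left h1 (by positivity)
  have hE : (14 / 10 * K + 100000 + 1100 + 162) * ω ^ 24 * p ≤ ω ^ 22 * p := by
    have h1 : (14 / 10 * K + 100000 + 1100 + 162) * ω ^ 2 ≤ 1 := by
      have h2 : 0 ≤ ω ^ 2 := by positivity
      have h3 : (14 / 10 * K + 100000 + 1100 + 162) * ω ^ 2 ≤ (2 * K + 2 * 10 ^ 10) * ω ^ 2 := by
        apply mul_le_mul_of_nonneg_right _ h2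
        norm_num
        linarith
      linarith
    calc (14 / 10 * K + 100000 + 1100 + 162) * ω ^ 24 * p =
        ((14 / 10 * K + 100000 + 1100 + 162) * ω ^ 2) * (ω ^ 22 * p) := by ring
      _ ≤ 1 * (ω ^ 22 * p) := mul_le_mul_of_nonneg_right h1 (by positivity)
      _ = _ := one_mul _
  have hE' : (14 / 10 * K + 100000 + 1100 + 162) * ω ^ 24 * p = 14 / 10 * K * ω ^ 24 * p + 100000 * ω ^ 24 * p +
    1100 * ω ^ 24 * p + 162 * ω ^ 24 * p := by ring
  rw [hE'] at hE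
  linarith

/-- masses of the balls of radius 2δ around c -/
lemma ball_mass (cd : CD Hm Hp C) (c ρ p ε ω Nc δ b : ℝ) (G : Gap cd) (hω : 0 < ω) (hω20 : ω ^ 20 = ε)
    (hρ : 0 < ρ) (hp0 : 0 < p) (hω10 : ω ^ 10 ≤ 32 / 10 ^ 10) (hp1 : p ≤ 1 / 10 ^ 4)
    (hcG : c ∈ Icc G.a G.b)
    (hbG : |2 * (G.N - Nc) / p| ≤ 1 / 25) (hb : b = |2 * (G.N - Nc) / p| + 13488 * ω ^ 10)
    (p6 : ∀ (x r x₁ x₂ : ℝ), 0 < r → |x₁ - x| ≤ r → |x₂ - x| ≤ r → |Nf cd x₁ - Nf cd x₂| ≤ 12 * Yf cd x r)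
    (hWW : ∀ W : Gap cd, W.Meets c (ρ / 10) → |2 * (W.N - Nc) / p| ≤ 1 ∧
      1 ≤ |2 * (W.N - Nc) / p| * (2 * p * |W.mu| + 1 / 4))
    (hmuC : ∀ W : Gap cd, W.Meets c (ρ / 10) → 375 / 1000 / p ≤ |W.mu|)
    (hmass2 : ∀ d m : ℝ, 0 < d → d ≤ ρ / 10 → 0 < m → m * p ≤ 1 →
      (∀ W : Gap cd, W.Meets c d → 1 ≤ m * p * |W.mu|) →
      31 / 10 * ε * m * 624 / 100 * ρ ≤ d →
      ∫ t in Icc (c - d) (c + d), vf cd t ≤ ε ^ 2 * p * (624 / 100 * ρ * m ^ 2 + 81 * d * m))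
    (hYup : ∀ d, 60 * ε * ρ ≤ d → Yf cd c d * ρ ≤ 562 * p * d)
    (hδ1 : 975 / 1000 * ε * ρ ≤ δ) (hδ2 : δ ≤ ρ / 20) :
    ∫ t in Icc (c - 2 * δ) (c + 2 * δ), vf cd t ≤
      δ * (ε ^ 2 * p * (256 / 10 * b ^ 2 * ρ / δ + 90 / ω ^ 10 + 440)) := by
  have hε : 0 < ε := by rw [← hω20]; positivity
  have hω10p : 0 < ω ^ 10 := by positivity
  have hεω : ε = ω ^ 10 * ω ^ 10 := by rw [← hω20]; ring
  have hεω' : ε ≤ 32 / 10 ^ 10 * ω ^ 10 := by
    rw [hεω]; exact mul_le_mul_of_nonneg_right hω10 hω10p.le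
  have hδ : 0 < δ := lt_of_lt_of_le (by positivity) hδ1
  have hbG0 : 0 ≤ |2 * (G.N - Nc) / p| := abs_nonneg _
  have hb0 : 0 < b := by rw [hb]; positivity
  have hb1 : b ≤ 401 / 10000 := by
    rw [hb]
    norm_num at hω10
    linarith
  rcases le_or_gt (2 * δ) (ω ^ 10 * ρ) with hcase | hcase
  · -- small shells
    have hbW : ∀ W : Gap cd, W.Meets c (2 * δ) → |2 * (W.N - Nc) / p| ≤ b := by
      intro W hW
      have hlt := W.lt
      have hD : 0 < ω ^ 10 * ρ := by positivity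
      have hw1 : W.a ≤ c + ω ^ 10 * ρ := by linarith [hW.1]
      have hw2 : c - ω ^ 10 * ρ ≤ W.b := by linarith [hW.2]
      have h1 : |Nf cd (max W.a (c - ω ^ 10 * ρ)) - Nf cd c| ≤ 12 * Yf cd c (ω ^ 10 * ρ) := by
        apply p6 c (ω ^ 10 * ρ) _ _ hD
        · rw [abs_le]
          constructor
          · have := le_max_right W.a (c - ω ^ 10 * ρ); linarith
          · have : max W.a (c - ω ^ 10 * ρ) ≤ c + ω ^ 10 * ρ := max_le hw1 (by linarith)
            linarith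
        · simp only [sub_self, abs_zero]; positivity
      have h2 : Nf cd (max W.a (c - ω ^ 10 * ρ)) = W.N :=
        W.lab _ ⟨le_max_left _ _, max_le hlt.le hw2⟩
      have h3 : Nf cd c = G.N := G.lab c hcG
      rw [h2, h3] at h1
      have h4 : Yf cd c (ω ^ 10 * ρ) ≤ 562 * p * ω ^ 10 := by
        have h5 := hYup (ω ^ 10 * ρ) (by
          apply mul_le_mul_of_nonneg_right _ hρ.le
          norm_num at hεω' ⊢
          linarith)
        have h6 : Yf cd c (ω ^ 10 * ρ) * ρ ≤ (562 * p * ω ^ 10) * ρ := by linarith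
        exact le_of_mul_le_mul_right h6 hρ
      have h7 : |2 * (W.N - Nc) / p - 2 * (G.N - Nc) / p| ≤ 13488 * ω ^ 10 := by
        have h8 : 2 * (W.N - Nc) / p - 2 * (G.N - Nc) / p = 2 * (W.N - G.N) / p := by ring
        rw [h8, abs_div, abs_of_pos hp0, div_le_iff₀ hp0, abs_mul]
        norm_num
        linarith
      have h9 := abs_sub_abs_le_abs_sub (2 * (W.N - Nc) / p) (2 * (G.N - Nc) / p)
      rw [hb]
      linarith
    have h10 := hmass2 (2 * δ) (2 * b / (989 / 1000)) (by linarith) (by linarith) (by positivity) (by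
        have h11 : 2 * b / (989 / 1000) ≤ 1 := by
          rw [div_le_one (by norm_num)]; linarith
        calc 2 * b / (989 / 1000) * p ≤ 1 * 1 := by
              apply mul_le_mul h11 (by norm_num at hp1; linarith) hp0.le (by norm_num)
          _ = 1 := by norm_num) (by
        intro W hW
        have h11 := (hWW W ⟨by linarith [hW.1], by linarith [hW.2]⟩).2
        have h12 := hbW W hW
        have h13 : 0 ≤ 2 * p * |W.mu| + 1 / 4 := by positivity
        have h14 : 1 ≤ b * (2 * p * |W.mu| + 1 / 4) := h11.trans (mul_le_mul_of_nonneg_right h12 h13)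
        have h15 : 2 * b / (989 / 1000) * p * |W.mu| = (b * (2 * p * |W.mu|)) / (989 / 1000) := by ring
        rw [h15, le_div_iff₀ (by norm_num)]
        linarith) (by
        have h16 : 31 / 10 * ε * (2 * b / (989 / 1000)) * 624 / 100 * ρ = (ε * ρ) * (b * (31 / 10 * 2 / (989 / 1000) * 624 / 100)) := by ring
        rw [h16]
        have h17 : b * (31 / 10 * 2 / (989 / 1000) * 624 / 100) ≤ 195 / 100 := by norm_num; linarith
        have h18 : (ε * ρ) * (b * (31 / 10 * 2 / (989 / 1000) * 624 / 100)) ≤ (ε * ρ) * (195 / 100) :=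
          mul_le_mul_of_nonneg_left h17 (by positivity)
        linarith)
    refine h10.trans ?_
    have h19 : δ * (ε ^ 2 * p * (256 / 10 * b ^ 2 * ρ / δ + 90 / ω ^ 10 + 440)) =
      ε ^ 2 * p * (256 / 10 * b ^ 2 * ρ + δ * (90 / ω ^ 10 + 440)) := by
      field_simp
      ring
    rw [h19]
    apply mul_le_mul_of_nonneg_left _ (by positivity)
    have h20 : 624 / 100 * ρ * (2 * b / (989 / 1000)) ^ 2 ≤ 256 / 10 * b ^ 2 * ρ := by
      have : 0 ≤ b ^ 2 * ρ := by positivity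
      have e1 : 624 / 100 * ρ * (2 * b / (989 / 1000)) ^ 2 = (b ^ 2 * ρ) * (624 / 100 * 4 / (989 / 1000) ^ 2) := by ring
      rw [e1]
      have e2 : (b ^ 2 * ρ) * (624 / 100 * 4 / (989 / 1000) ^ 2) ≤ (b ^ 2 * ρ) * (256 / 10) :=
        mul_le_mul_of_nonneg_left (by norm_num) this
      linarith
    have h21 : 81 * (2 * δ) * (2 * b / (989 / 1000)) ≤ δ * (90 / ω ^ 10 + 440) := by
      have e1 : 81 * (2 * δ) * (2 * b / (989 / 1000)) = δ * (b * (324 / (989 / 1000))) := by ring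
      rw [e1]
      apply mul_le_mul_of_nonneg_left _ hδ.le
      have e2 : 0 ≤ 90 / ω ^ 10 := by positivity
      have e3 : b * (324 / (989 / 1000)) ≤ 440 := by norm_num; linarith
      linarith
    linarith
  · -- large shells
    have h10 := hmass2 (2 * δ) (1000 / 375) (by linarith) (by linarith) (by norm_num) (by norm_num at hp1 ⊢; linarith) (by
        intro W hW
        have := hmuC W ⟨by linarith [hW.1], by linarith [hW.2]⟩
        rw [div_le_iff₀ hp0] at this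
        linarith) (by
        have h11 : 31 / 10 * ε * (1000 / 375) * 624 / 100 * ρ = (ε * ρ) * (31 / 10 * (1000 / 375) * 624 / 100) := by ring
        rw [h11]
        have h12 : ε * ρ ≤ (32 / 10 ^ 10 * ω ^ 10) * ρ := mul_le_mul_of_nonneg_right hεω' hρ.le
        have h13 : 0 < ω ^ 10 * ρ := by positivity
        norm_num at h12 ⊢
        linarith)
    refine h10.trans ?_
    have h19 : δ * (ε ^ 2 * p * (256 / 10 * b ^ 2 * ρ / δ + 90 / ω ^ 10 + 440)) =
      ε ^ 2 * p * (256 / 10 * b ^ 2 * ρ + δ * (90 / ω ^ 10) + 440 * δ) := by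
      field_simp
    rw [h19]
    apply mul_le_mul_of_nonneg_left _ (by positivity)
    have h20 : 0 ≤ 256 / 10 * b ^ 2 * ρ := by positivity
    have h21 : 45 * ρ ≤ δ * (90 / ω ^ 10) := by
      rw [← mul_div_assoc, le_div_iff₀ hω10p]
      linarith
    linarith

theorem st_R5 (hP1 : ST_P1) (hP2 : ST_P2) (hP3 : ST_P3) (hQ2 : ST_Q2) (hQ6 : ST_Q6) (hQ8 : ST_Q8) : ST_R5 := by
  obtain ⟨K, e6, hK, he6, hQ6⟩ := hQ6
  obtain ⟨e8, he8, hQ8⟩ := hQ8
  have hKpos : 0 < 2 * K + 2 * 10 ^ 10 := by positivity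
  refine ⟨min (min e6 e8) (min (1 / 10 ^ 17) ((1 / (2 * K + 2 * 10 ^ 10)) ^ 10)),
    lt_min (lt_min he6 he8) (lt_min (by norm_num) (by positivity)), ?_⟩
  intro ε Hm Hp C cd hPar hεle x ρ p Nc G hρ hReg hp0 hp1 hYx hYc hcx hsl hsu hbG hWW
  have hε6 : ε ≤ e6 := hεle.trans ((min_le_left _ _).trans (min_le_left _ _))
  have hε8 : ε ≤ e8 := hεle.trans ((min_le_left _ _).trans (min_le_right _ _))
  have hε17 : ε ≤ 1 / 10 ^ 17 := hεle.trans ((min_le_right _ _).trans (min_le_left _ _))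
  have hεK : ε ≤ (1 / (2 * K + 2 * 10 ^ 10)) ^ 10 := hεle.trans ((min_le_right _ _).trans (min_le_right _ _))
  clear hεle
  have hPar' := hPar
  obtain ⟨hε, hHm, hHp⟩ := hPar'
  obtain ⟨g1, g2, -, g4, g5, -, -, g8, -, -, g11, -⟩ := hP2 Hm Hp C cd hHm
  have hvc := vf_cont cd
  have hv0 : ∀ t, 0 ≤ vf cd t := fun t => (g1 t).1
  -- powers
  obtain ⟨ω, hω, hω20⟩ : ∃ ω : ℝ, 0 < ω ∧ ω ^ 20 = ε := by
    refine ⟨ε ^ (1 / 20 : ℝ), Real.rpow_pos_of_pos hε _, ?_⟩
    rw [← Real.rpow_natCast, ← Real.rpow_mul hε.le]; norm_num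
  have hωp : ∀ (q : ℝ) (k : ℕ), q = (k : ℝ) / 20 → ε ^ q = ω ^ k := by
    intro q k hq
    rw [hq, ← hω20, ← Real.rpow_natCast ω 20, ← Real.rpow_mul hω.le, ← Real.rpow_natCast ω k]
    congr 1
    push_cast
    ring
  have h65 : ε ^ (6 / 5 : ℝ) = ω ^ 24 := hωp _ 24 (by norm_num)
  have h1110 : ε ^ (11 / 10 : ℝ) = ω ^ 22 := hωp _ 22 (by norm_num)
  have hω1 : ω < 1 := by
    by_contra h
    push Not at h
    have : 1 ≤ ω ^ 20 := one_le_pow₀ h
    rw [hω20] at this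
    norm_num at hε17
    linarith
  have hω2 : ω ^ 2 * (2 * K + 2 * 10 ^ 10) ≤ 1 := by
    have h1 : (ω ^ 2) ^ 10 ≤ (1 / (2 * K + 2 * 10 ^ 10)) ^ 10 := by
      have e1 : (ω ^ 2) ^ 10 = ω ^ 20 := by rw [← pow_mul]
      rw [e1, hω20]
      exact hεK
    have h2 : ω ^ 2 ≤ 1 / (2 * K + 2 * 10 ^ 10) := le_of_pow_le_pow_left₀ (by norm_num) (by positivity) h1
    rwa [le_div_iff₀ hKpos] at h2
  have hω10 : ω ^ 10 ≤ 32 / 10 ^ 10 := by
    have h1 : (ω ^ 10) ^ 2 ≤ (32 / 10 ^ 10) ^ 2 := by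
      have e1 : (ω ^ 10) ^ 2 = ω ^ 20 := by rw [← pow_mul]
      rw [e1, hω20]
      exact hε17.trans (by norm_num)
    exact le_of_pow_le_pow_left₀ (by norm_num) (by positivity) h1
  have hω10pos : 0 < ω ^ 10 := by positivity
  have hεω : ε = ω ^ 10 * ω ^ 10 := by rw [← hω20]; ring
  -- the centre
  set c := G.c with hc
  set s := G.s with hs
  have hspos : 0 < s := by rw [hs]; unfold Gap.s; linarith [G.lt]
  have hGa : G.a = c - s / 2 := by rw [hc, hs]; unfold Gap.c Gap.s; ring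
  have hGb : G.b = c + s / 2 := by rw [hc, hs]; unfold Gap.c Gap.s; ring
  rw [abs_le] at hcx
  obtain ⟨p1, -, p3, p4, -, p6⟩ := hP1 Hm Hp C cd
  have hY0 : ∀ d, 0 < d → 0 < Yf cd c d := fun d hd => (p3 c d d hd le_rfl).1
  -- lower bound for Y
  have hYlow : ∀ d, 0 < d → d ≤ 52 / 100 * ρ → d * p ≤ 624 / 100 * ρ * Yf cd c d := by
    intro d hd hd2
    have h1 := (p3 c d (52 / 100 * ρ) hd hd2).2.2
    rw [div_le_div_iff₀ (by positivity) hd] at h1
    have h2 : d * p ≤ d * (12 * Yf cd c (52 / 100 * ρ)) := mul_le_mul_of_nonneg_left hYc hd.le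
    linarith
  -- balls
  have hin : ∀ d, d ≤ ρ / 10 → ∀ t ∈ Icc (c - d) (c + d), 0 < Nf cd t ∧ Nf cd t < 1 := by
    intro d hd t ht
    apply hReg.inn
    constructor
    · linarith [ht.1, hcx.1]
    · linarith [ht.2, hcx.2]
  have hmeet : ∀ (W : Gap cd) (d : ℝ), d ≤ ρ / 10 → W.Meets c d → W.Meets c (ρ / 10) := by
    intro W d hd hW
    exact ⟨by linarith [hW.1], by linarith [hW.2]⟩
  -- crude label bound
  have hmuC : ∀ W : Gap cd, W.Meets c (ρ / 10) → 375 / 1000 / p ≤ |W.mu| := by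
    intro W hW
    obtain ⟨h1, h2⟩ := hWW W hW
    have h3 : 1 ≤ 2 * p * |W.mu| + 1 / 4 := by
      have h4 : 0 ≤ 2 * p * |W.mu| + 1 / 4 := by positivity
      exact h2.trans (mul_le_of_le_one_left h4 h1)
    rw [div_le_iff₀ hp0]
    linarith
  -- mass lemma at c
  have hmass : ∀ d M : ℝ, 0 < d → d ≤ ρ / 10 → 1 ≤ M → (∀ W : Gap cd, W.Meets c d → M ≤ |W.mu|) →
      31 / 10 * ε ≤ M * Yf cd c d →
      ∫ t in Icc (c - d) (c + d), vf cd t ≤ ε ^ 2 * (d / (Yf cd c d * M ^ 2) + 81 * d / M) := by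
    intro d M hd hd2 hM hW hMY
    have := (hQ2 ε Hm Hp C cd hPar (by norm_num at hε17 ⊢; linarith) c d M ∅ hd hM MeasurableSet.empty
      (hin d hd2) (fun W hW' => Or.inr (hW W hW')) hMY).2
    rwa [sdiff_empty] at this
  have hMc : 1 ≤ 375 / 1000 / p := by
    rw [le_div_iff₀ hp0]; norm_num at hp1; linarith
  -- general mass bound from a lower bound on labels: 1/M and Y
  have hmass2 : ∀ d m : ℝ, 0 < d → d ≤ ρ / 10 → 0 < m → m * p ≤ 1 →
      (∀ W : Gap cd, W.Meets c d → 1 ≤ m * p * |W.mu|) →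
      31 / 10 * ε * m * 624 / 100 * ρ ≤ d →
      ∫ t in Icc (c - d) (c + d), vf cd t ≤ ε ^ 2 * p * (624 / 100 * ρ * m ^ 2 + 81 * d * m) := by
    intro d m hd hd2 hm hmp hW hcond
    have hYd := hYlow d hd (by linarith)
    have hYpos := hY0 d hd
    have hmp0 : 0 < m * p := by positivity
    have hb := hmass d (1 / (m * p)) hd hd2 (by rw [le_div_iff₀ hmp0]; linarith)
      (fun W hW' => by rw [div_le_iff₀ hmp0]; linarith [hW W hW']) (by
        rw [one_div_mul_eq_div, le_div_iff₀ hmp0]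
        have h1 : 31 / 10 * ε * m * 624 / 100 * ρ * p ≤ d * p := mul_le_mul_of_nonneg_right hcond hp0.le
        have h2 : 31 / 10 * ε * (m * p) * (624 / 100 * ρ) ≤ Yf cd c d * (624 / 100 * ρ) := by linarith
        exact le_of_mul_le_mul_right h2 (by positivity))
    refine hb.trans ?_
    have h3 : d / (Yf cd c d * (1 / (m * p)) ^ 2) = (d * p / Yf cd c d) * (p * m ^ 2) := by
      field_simp
    have h4 : d * p / Yf cd c d ≤ 624 / 100 * ρ := by
      rw [div_le_iff₀ hYpos]; linarith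
    have h5 : 81 * d / (1 / (m * p)) = p * (81 * d * m) := by field_simp
    rw [h3, h5]
    have h6 : d * p / Yf cd c d * (p * m ^ 2) ≤ 624 / 100 * ρ * (p * m ^ 2) :=
      mul_le_mul_of_nonneg_right h4 (by positivity)
    have h7 : ε ^ 2 * (d * p / Yf cd c d * (p * m ^ 2) + p * (81 * d * m)) ≤
        ε ^ 2 * (624 / 100 * ρ * (p * m ^ 2) + p * (81 * d * m)) :=
      mul_le_mul_of_nonneg_left (by linarith) (by positivity)
    refine h7.trans (le_of_eq ?_)
    ring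
  -- upper bound for Y
  have hYρ : Yf cd c ρ ≤ 556 / 100 * p := by
    have h1 : |x - c| / ρ ≤ 3 / 10 := by
      rw [div_le_iff₀ hρ, abs_le]; constructor <;> linarith [hcx.1, hcx.2]
    have h0 : 0 ≤ |x - c| / ρ := by positivity
    have h2 := p4 x c ρ hρ (by
      rw [div_le_iff₀ hρ] at h1; linarith)
    have h3 : 1 + |x - c| / ρ + (|x - c| / ρ) ^ 2 ≤ 139 / 100 := by
      have h5 := pow_le_pow_left₀ h0 h1 2
      norm_num at h5 ⊢
      linarith
    have h4 : 0 ≤ Yf cd x ρ := (p3 x ρ ρ hρ le_rfl).1.le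
    calc Yf cd c ρ ≤ _ := h2
      _ ≤ 139 / 100 * Yf cd x ρ := mul_le_mul_of_nonneg_right h3 h4
      _ ≤ 139 / 100 * (4 * p) := by linarith
      _ = _ := by ring
  have hm10 : ∫ t in Icc (c - ρ / 10) (c + ρ / 10), vf cd t ≤ 70 * ε ^ 2 * p * ρ := by
    have h1 := hmass2 (ρ / 10) (1000 / 375) (by positivity) le_rfl (by norm_num) (by norm_num at hp1 ⊢; linarith)
      (fun W hW => by
        have := hmuC W hW
        rw [div_le_iff₀ hp0] at this
        linarith) (by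
          have h5 : ε * ρ ≤ 1 / 10 ^ 17 * ρ := mul_le_mul_of_nonneg_right hε17 hρ.le
          norm_num at h5 ⊢
          linarith)
    refine h1.trans ?_
    have h2 : 0 ≤ ε ^ 2 * p * ρ := by positivity
    have h6 : ε ^ 2 * p * (624 / 100 * ρ * (1000 / 375) ^ 2 + 81 * (ρ / 10) * (1000 / 375)) =
      (ε ^ 2 * p * ρ) * (624 / 100 * (1000 / 375) ^ 2 + 81 / 10 * (1000 / 375)) := by ring
    rw [h6]
    have h7 : (ε ^ 2 * p * ρ) * (624 / 100 * (1000 / 375) ^ 2 + 81 / 10 * (1000 / 375)) ≤ (ε ^ 2 * p * ρ) * 70 :=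
      mul_le_mul_of_nonneg_left (by norm_num) h2
    linarith
  have hYr0 : Yf cd c (60 * ε * ρ) ≤ 33720 * ε * p :=
    Y_up hP1 (fun cd' t => (hP2 Hm Hp C cd' hHm).1 t |>.1) cd c ρ p ε hε hρ hp0 hm10 hYρ
  have hYup : ∀ d, 60 * ε * ρ ≤ d → Yf cd c d * ρ ≤ 562 * p * d := by
    intro d hd
    have hr0 : 0 < 60 * ε * ρ := by positivity
    have h1 := (p3 c (60 * ε * ρ) d hr0 hd).2.2
    have hdpos : 0 < d := lt_of_lt_of_le hr0 hd
    rw [div_le_div_iff₀ hdpos hr0] at h1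
    have h2 : Yf cd c d * (60 * ε * ρ) ≤ 33720 * ε * p * d :=
      h1.trans (mul_le_mul_of_nonneg_right hYr0 hdpos.le)
    have h3 : (Yf cd c d * ρ) * (60 * ε) ≤ (562 * p * d) * (60 * ε) := by linarith
    exact le_of_mul_le_mul_right h3 (by positivity)
  -- sizes
  set r := s / (4 * ε) with hr
  have hrpos : 0 < r := by positivity
  have hrl : 975 / 1000 * ε * ρ ≤ r := by
    rw [hr, le_div_iff₀ (by positivity)]
    refine le_trans (le_of_eq ?_) hsl
    ring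
  have hsr : s = 4 * ε * r := by rw [hr]; field_simp
  have hGmeet : ∀ d, 0 ≤ d → G.Meets c d := fun d hd => by
    constructor
    · rw [hGa]; linarith
    · rw [hGb]; linarith
  have hG1000 : 1000 ≤ |G.mu| := by
    apply hReg.big G
    constructor
    · rw [hGa]; linarith [hcx.1, hcx.2]
    · rw [hGb]; linarith [hcx.1, hcx.2]
  have hGmu := hmuC G (hGmeet (ρ / 10) (by positivity))
  have hs5 : 0 < Real.sqrt 5 := by positivity
  have hcG : c ∈ Icc G.a G.b := by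
    constructor
    · rw [hGa]; linarith
    · rw [hGb]; linarith
  have hvcG : |G.mu| * vf cd c ≤ 26 / 100 * ε := by
    have h1 := (g4 G).2.2.2.1 c hcG
    have h2 : |G.mu| = Real.sqrt 5 * |(G.m : ℝ)| := by
      unfold Gap.mu; rw [abs_mul, abs_of_pos hs5]
    rw [h2]
    have h3 : Real.sqrt 5 * (|(G.m : ℝ)| * vf cd c) ≤ Real.sqrt 5 * Hp :=
      mul_le_mul_of_nonneg_left h1 hs5.le
    have h4 : ε * (1 + 98 * ε) ≤ ε * (104 / 100) := by
      apply mul_le_mul_of_nonneg_left _ hε.le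
      norm_num at hε17 ⊢; linarith
    linarith
  have hvcp : vf cd c ≤ 7 / 10 * ε * p := by
    have h1 : 375 / 1000 / p * vf cd c ≤ 26 / 100 * ε :=
      (mul_le_mul_of_nonneg_right hGmu (hv0 c)).trans hvcG
    have h2 : 375 / 1000 / p * vf cd c = 375 / 1000 * vf cd c / p := by ring
    rw [h2, div_le_iff₀ hp0] at h1
    have h3 : 0 ≤ ε * p := by positivity
    linarith
  have hI0 : ∫ t in Icc (c - r) (c + r), vf cd t / |G.q t| ≤ 14 / 10 * K * ε ^ 2 * p := by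
    have h1 := (hQ6 ε Hm Hp C cd hPar hε6 G hG1000).1
    rw [← hc, ← hs, ← hr] at h1
    have h2 : G.kk = 2 * vf cd c / s := (g4 G).2.2.2.2.1
    refine h1.trans ?_
    have h3 : K * ε * s * G.kk = K * ε * (2 * vf cd c) := by
      rw [h2]; field_simp
    rw [h3]
    have h4 : K * ε * (2 * vf cd c) ≤ K * ε * (2 * (7 / 10 * ε * p)) :=
      mul_le_mul_of_nonneg_left (by linarith) (by positivity)
    refine h4.trans (le_of_eq ?_)
    ring
  -- the integrand
  have hqm : Measurable (fun t => |G.q t|) := by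
    have : (fun t => |G.q t|) = fun t => Real.sqrt ((t - G.a) * (t - G.b)) := by
      funext t; exact abs_qr _ _ _
    rw [this]
    fun_prop
  have hfm : Measurable (fun t => vf cd t / |G.q t|) := hvc.measurable.div hqm
  have hf0 : ∀ t, 0 ≤ vf cd t / |G.q t| := fun t => div_nonneg (hv0 t) (abs_nonneg _)
  have hint0 : IntegrableOn (fun t => vf cd t / |G.q t|) (Icc (c - r) (c + r)) := by
    have h1 := ((hP3 Hm Hp C cd G.a G.b G.N G.lt G.lab).1 c
      ⟨by rw [hGa]; linarith, by rw [hGb]; linarith⟩).1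
    have h2 : IntegrableOn (fun t => r * (vf cd t / (|qr G.a G.b t| * |t - c|))) (Icc (c - r) (c + r)) :=
      (h1.const_mul r).integrableOn
    refine Integrable.mono' h2 hfm.aestronglyMeasurable ?_
    have h3 : ∀ᵐ t ∂(volume.restrict (Icc (c - r) (c + r))), t ≠ c := by
      have : ∀ᵐ t ∂(volume : Measure ℝ), t ≠ c := by
        have := (Set.countable_singleton c).ae_notMem (volume : Measure ℝ)
        filter_upwards [this] with t ht
        simpa using ht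
      exact ae_restrict_of_ae this
    filter_upwards [h3, ae_restrict_mem measurableSet_Icc] with t ht htI
    rw [Real.norm_of_nonneg (hf0 t)]
    have h4 : 0 < |t - c| := abs_pos.2 (sub_ne_zero.2 ht)
    have h5 : |t - c| ≤ r := by rw [abs_le]; constructor <;> linarith [htI.1, htI.2]
    have h6 : vf cd t / |G.q t| = |t - c| * (vf cd t / (|qr G.a G.b t| * |t - c|)) := by
      have : G.q t = qr G.a G.b t := rfl
      rw [this]
      field_simp
    rw [h6]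
    exact mul_le_mul_of_nonneg_right h5 (by
      have := hv0 t
      positivity)
  have hlin0 : ∫⁻ t in Icc (c - r) (c + r), ENNReal.ofReal (vf cd t / |G.q t|) ≤
      ENNReal.ofReal (14 / 10 * K * ε ^ 2 * p) := by
    rw [← ofReal_integral_eq_lintegral_ofReal hint0 (Filter.Eventually.of_forall hf0)]
    exact ENNReal.ofReal_le_ofReal hI0
  -- shells, general
  have hshell : ∀ u w δ Ms : ℝ, r ≤ δ → ∫ t in Icc u w, vf cd t ≤ Ms →
      ∫⁻ t in Icc u w \ Ioo (c - δ) (c + δ), ENNReal.ofReal (vf cd t / |G.q t|) ≤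
        ENNReal.ofReal (Ms / (99 / 100 * δ)) := by
    intro u w δ Ms hrδ hMs
    have hδ : 0 < δ := lt_of_lt_of_le hrpos hrδ
    have h1 : ∀ t ∈ Icc u w \ Ioo (c - δ) (c + δ), ENNReal.ofReal (vf cd t / |G.q t|) ≤
        ENNReal.ofReal (1 / (99 / 100 * δ) * vf cd t) := by
      intro t ht
      apply ENNReal.ofReal_le_ofReal
      have h2 : δ ^ 2 ≤ (t - c) ^ 2 := by
        have h3 := ht.2
        rw [mem_Ioo, not_and_or, not_lt, not_lt] at h3
        rcases h3 with h | h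
        · have h4 : δ ≤ c - t := by linarith
          have h5 := pow_le_pow_left₀ hδ.le h4 2
          have h6 : (c - t) ^ 2 = (t - c) ^ 2 := by ring
          linarith
        · have h4 : δ ≤ t - c := by linarith
          exact pow_le_pow_left₀ hδ.le h4 2
      have h4 : 99 / 100 * δ ≤ |G.q t| := by
        have : |G.q t| = Real.sqrt ((t - G.a) * (t - G.b)) := abs_qr _ _ _
        rw [this]
        apply Real.le_sqrt_of_sq_le
        rw [hGa, hGb]
        have h5 : (t - (c - s / 2)) * (t - (c + s / 2)) = (t - c) ^ 2 - s ^ 2 / 4 := by ring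
        rw [h5]
        have h6 : s ≤ 4 * ε * δ := by rw [hsr]; exact mul_le_mul_of_nonneg_left hrδ (by positivity)
        have h7 : s ^ 2 ≤ (4 * ε * δ) ^ 2 := pow_le_pow_left₀ hspos.le h6 2
        have h8 : (4 * ε * δ) ^ 2 ≤ 1 / 100 * δ ^ 2 := by
          have : (4 * ε * δ) ^ 2 = (4 * ε) ^ 2 * δ ^ 2 := by ring
          rw [this]
          apply mul_le_mul_of_nonneg_right _ (by positivity)
          have h9 : 4 * ε ≤ 1 / 10 := by norm_num at hε17 ⊢; linarith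
          have h10 : 0 ≤ 4 * ε := by positivity
          have h12 := pow_le_pow_left₀ h10 h9 2
          norm_num at h12 ⊢
          linarith
        have h11 : (99 / 100 * δ) ^ 2 = 9801 / 10000 * δ ^ 2 := by ring
        rw [h11]
        linarith [sq_nonneg δ]
      rw [one_div_mul_eq_div]
      exact div_le_div_of_nonneg_left (hv0 t) (by positivity) h4
    have hint : IntegrableOn (fun t => 1 / (99 / 100 * δ) * vf cd t) (Icc u w) :=
      (hvc.integrableOn_Icc).const_mul _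
    calc ∫⁻ t in Icc u w \ Ioo (c - δ) (c + δ), ENNReal.ofReal (vf cd t / |G.q t|)
        ≤ ∫⁻ t in Icc u w \ Ioo (c - δ) (c + δ), ENNReal.ofReal (1 / (99 / 100 * δ) * vf cd t) := by
          apply setLIntegral_mono' (measurableSet_Icc.diff measurableSet_Ioo)
          exact h1
      _ ≤ ∫⁻ t in Icc u w, ENNReal.ofReal (1 / (99 / 100 * δ) * vf cd t) :=
          lintegral_mono_set sdiff_subset
      _ = ENNReal.ofReal (∫ t in Icc u w, 1 / (99 / 100 * δ) * vf cd t) := by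
          rw [ofReal_integral_eq_lintegral_ofReal hint (Filter.Eventually.of_forall (fun t => by
            have := hv0 t
            positivity))]
      _ ≤ _ := by
          apply ENNReal.ofReal_le_ofReal
          rw [integral_const_mul, one_div_mul_eq_div]
          exact div_le_div_of_nonneg_right hMs (by positivity)
  -- number of shells
  have hex : ∃ n : ℕ, ρ / 20 ≤ 2 ^ n * r := by
    obtain ⟨n, hn⟩ := pow_unbounded_of_one_lt (ρ / 20 / r) (by norm_num : (1 : ℝ) < 2)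
    refine ⟨n, ?_⟩
    rw [div_lt_iff₀ hrpos] at hn
    exact hn.le
  classical
  obtain ⟨n, hn1, hn2⟩ : ∃ n : ℕ, ρ / 20 ≤ 2 ^ n * r ∧ ∀ k < n, 2 ^ k * r < ρ / 20 :=
    ⟨Nat.find hex, Nat.find_spec hex, fun k hk => not_le.1 (Nat.find_min hex hk)⟩
  have hnω := count_shells ω ε ρ r n hω hω20 hρ hrl hn2
  obtain ⟨b, hb⟩ : ∃ b, b = |2 * (G.N - Nc) / p| + 13488 * ω ^ 10 := ⟨_, rfl⟩
  have hδr : ∀ k : ℕ, r ≤ 2 ^ k * r := by
    intro k
    have h1 : (1 : ℝ) ≤ 2 ^ k := one_le_pow₀ (by norm_num)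
    have h2 := mul_le_mul_of_nonneg_right h1 hrpos.le
    linarith
  have hS : ∀ k < n, ∫⁻ t in Icc (c - 2 * (2 ^ k * r)) (c + 2 * (2 ^ k * r)) \
      Ioo (c - 2 ^ k * r) (c + 2 ^ k * r), ENNReal.ofReal (vf cd t / |G.q t|) ≤
      ENNReal.ofReal (ε ^ 2 * p * (256 / 10 * b ^ 2 * ρ / (2 ^ k * r) + 90 / ω ^ 10 + 440) / (99 / 100)) := by
    intro k hk
    have h1 := ball_mass cd c ρ p ε ω Nc (2 ^ k * r) b G hω hω20 hρ hp0 hω10 hp1 hcG hbG hb p6 hWW hmuC hmass2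
      hYup (hrl.trans (hδr k)) (hn2 k hk).le
    have h2 := hshell _ _ (2 ^ k * r) _ (hδr k) h1
    refine h2.trans (le_of_eq ?_)
    congr 1
    have h3 : (0 : ℝ) < 2 ^ k * r := by positivity
    rw [mul_comm (99 / 100 : ℝ) (2 ^ k * r), mul_div_mul_left _ _ h3.ne']
  have hlin1 := shells (fun t => ENNReal.ofReal (vf cd t / |G.q t|)) c r (14 / 10 * K * ε ^ 2 * p)
    (fun k => ε ^ 2 * p * (256 / 10 * b ^ 2 * ρ / (2 ^ k * r) + 90 / ω ^ 10 + 440) / (99 / 100))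
    (by positivity) (by intro k; positivity) hlin0 n hS
  -- outer part
  have hout : ∫⁻ t in Icc (x - ρ) (x + ρ) \ Ioo (c - 2 ^ n * r) (c + 2 ^ n * r),
      ENNReal.ofReal (vf cd t / |G.q t|) ≤ ENNReal.ofReal (162 * ω ^ 24 * p) := by
    have h0 : ρ ≤ ε ^ (-(21 / 20) : ℝ) * ρ := by
      have h1 : 1 ≤ ε ^ (-(21 / 20) : ℝ) := by
        apply Real.one_le_rpow_of_pos_of_le_one_of_nonpos hε _ (by norm_num)
        norm_num at hε17 ⊢; linarith
      have h2 := mul_le_mul_of_nonneg_right h1 hρ.le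
      linarith
    have h1 := (hQ8 ε Hm Hp C cd hPar hε8 x ρ ρ ρ hρ le_rfl le_rfl h0 hReg).1
    rw [h65, div_self hρ.ne', mul_one] at h1
    have h2 : ∫ t in Icc (x - ρ) (x + ρ), vf cd t ≤ 8 * ω ^ 24 * ρ * p := by
      refine h1.trans ?_
      have h3 : 0 ≤ 2 * ω ^ 24 * ρ := by positivity
      have h4 := mul_le_mul_of_nonneg_left hYx h3
      linarith
    have h3 := hshell _ _ (2 ^ n * r) _ (hδr n) h2
    refine h3.trans (ENNReal.ofReal_le_ofReal ?_)
    rw [div_le_iff₀ (by positivity)]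
    have h5 : 0 ≤ ω ^ 24 * p := by positivity
    have h6 := mul_le_mul_of_nonneg_left hn1 h5
    have h7 : 0 ≤ ω ^ 24 * p * ρ := by positivity
    linarith
  have hfin : ∫⁻ t in Icc (x - ρ) (x + ρ), ENNReal.ofReal (vf cd t / |G.q t|) ≤
      ENNReal.ofReal ((14 / 10 * K * ε ^ 2 * p + ∑ k ∈ Finset.range n,
        ε ^ 2 * p * (256 / 10 * b ^ 2 * ρ / (2 ^ k * r) + 90 / ω ^ 10 + 440) / (99 / 100)) + 162 * ω ^ 24 * p) := by
    have hsub : Icc (x - ρ) (x + ρ) ⊆ Icc (c - 2 ^ n * r) (c + 2 ^ n * r) ∪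
        (Icc (x - ρ) (x + ρ) \ Ioo (c - 2 ^ n * r) (c + 2 ^ n * r)) := by
      intro t ht
      by_cases h : t ∈ Ioo (c - 2 ^ n * r) (c + 2 ^ n * r)
      · left; exact Ioo_subset_Icc_self h
      · right; exact ⟨ht, h⟩
    have hSk : ∀ k : ℕ, 0 ≤ ε ^ 2 * p * (256 / 10 * b ^ 2 * ρ / (2 ^ k * r) + 90 / ω ^ 10 + 440) / (99 / 100) := by
      intro k; positivity
    have hSs : 0 ≤ 14 / 10 * K * ε ^ 2 * p + ∑ k ∈ Finset.range n,
        ε ^ 2 * p * (256 / 10 * b ^ 2 * ρ / (2 ^ k * r) + 90 / ω ^ 10 + 440) / (99 / 100) :=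
      add_nonneg (by positivity) (Finset.sum_nonneg (fun k _ => hSk k))
    rw [ENNReal.ofReal_add hSs (by positivity)]
    refine (lintegral_mono_set hsub).trans ((lintegral_union_le _ _ _).trans ?_)
    exact add_le_add hlin1 hout
  unfold nn
  rw [integral_eq_lintegral_of_nonneg_ae (Filter.Eventually.of_forall hf0) hfm.aestronglyMeasurable, h1110]
  have hpos : 0 ≤ 60 * ε * (2 * (G.N - Nc) / p) ^ 2 * p + ω ^ 22 * p := by positivity
  refine ENNReal.toReal_le_of_le_ofReal hpos (hfin.trans (ENNReal.ofReal_le_ofReal ?_))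
  have h9 := final_num ω ε p ρ r K |2 * (G.N - Nc) / p| b n hω hω1 hω20 hp0 hρ hrpos hrl hK hω2 hω10 hnω
    (abs_nonneg _) hbG hb
  rw [sq_abs] at h9
  exact h9

end

end Pool.Agent.Helper57.CV.R5
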