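import Pool.Agent.Helper71.CV.D8

/-!
# MP_e5aeaf_mp: D8 with the constant 1/10 in the clause `aa = 0` (proof of helper71, unchanged)
-/

set_option autoImplicit false

namespace Pool.Agent.Helper36.CV

/-- `ST_D8` with `|l| * sqrt |l| / 10` in the clause `aa = 0` -/
def ST_D8s : Prop := ∃ l0 : ℝ, 0 < l0 ∧ ∀ (l E : ℝ) (a b : ℤ) (n : ℕ), 0 < |l| → |l| ≤ l0 → b ≠ 0 →
  Real.sqrt (Real.sqrt |l|) ≤ |(b : ℝ)| * gam ^ n →
  |(b : ℝ)| * gam ^ n < phi * Real.sqrt (Real.sqrt |l|) →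
  |aa l a b n E| ≤ 3 * (Real.sqrt |l| * Real.sqrt (Real.sqrt |l|)) →
  |mQ l a b n E - Real.pi ^ 2 / 2 * (|(b : ℝ)| * gam ^ n) ^ 2| ≤
      (|(b : ℝ)| * gam ^ n) ^ 2 * (Real.pi ^ 2 / 2) * (194 / 10) * |l| ∧
  |mR l a b n E| ≤ 30 * |l| ∧ |mP l a b n E| ≤ 20 * |l| * Real.sqrt |l| ∧
  (aa l a b n E = 0 → |mQ l a b n E - Real.pi ^ 2 / 2 * (|(b : ℝ)| * gam ^ n) ^ 2| ≤
      (|(b : ℝ)| * gam ^ n) ^ 2 * (Real.pi ^ 2 / 2) * (181 / 10) * |l| ∧
    |mR l a b n E| ≤ |l| * Real.sqrt |l| / 10) ∧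
  (∀ j, n ≤ j → j ≤ n + 2 → |rr l a b j E| < 1)

theorem st_D8s (h1 : ST_D1) (h2 : ST_D2) (h3 : ST_D3) (h5 : ST_D5) (h6 : ST_T6) : ST_D8s := by
  obtain ⟨l1, hl1, H3⟩ := h3
  refine ⟨min l1 (1 / 10 ^ 20), lt_min hl1 (by norm_num), ?_⟩
  intro l E a b n hl0 hl hb hg1 hg2 hA
  have hll1 : |l| ≤ l1 := hl.trans (min_le_left _ _)
  have hll2 : |l| ≤ 1 / 10 ^ 20 := hl.trans (min_le_right _ _)
  have hll3 : |l| ≤ 1 / 100 := hll2.trans (by norm_num)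
  obtain ⟨s, hsd⟩ : ∃ s, s = Real.sqrt (Real.sqrt |l|) := ⟨_, rfl⟩
  have hs2 : Real.sqrt |l| = s ^ 2 := by rw [hsd, Real.sq_sqrt (Real.sqrt_nonneg _)]
  have hs4 : |l| = s ^ 4 := by
    have : s ^ 4 = (s ^ 2) ^ 2 := by ring
    rw [this, ← hs2, Real.sq_sqrt (abs_nonneg _)]
  have hs0 : 0 < s := by rw [hsd]; exact Real.sqrt_pos.2 (Real.sqrt_pos.2 hl0)
  have hs5 : s ≤ 1 / 10 ^ 5 := by
    by_contra hcon
    push Not at hcon
    have h7 : (1 / 10 ^ 5 : ℝ) ^ 4 < s ^ 4 := pow_lt_pow_left₀ hcon (by norm_num) (by norm_num)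
    rw [← hs4] at h7
    have h8 : (1 / 10 ^ 5 : ℝ) ^ 4 = 1 / 10 ^ 20 := by norm_num
    rw [h8] at h7
    exact absurd h7 (not_lt.2 hll2)
  have hl8 : l ^ 2 = s ^ 8 := by
    rw [← sq_abs, hs4]; ring
  have HD3 := H3 l E a b n hl0 hll1 hb hg1
  rw [← hsd] at hg1 hg2 hA
  rw [hs2] at hA HD3
  rw [hs2, hs4]
  -- notation
  have hγ := d8_gg
  have hφ := d8_phi
  have hq := d8_q
  have hγ1 := d8_glo
  have hγ2 := d8_ghi
  have hq1 := d8_qlo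
  have hq2 := d8_qhi
  have hqq : Real.sqrt 5 ^ 2 = 5 := Real.sq_sqrt (by norm_num)
  have hq0 : 0 < Real.sqrt 5 := by linarith
  have hγ0 : 0 < gam := by linarith
  obtain ⟨d1, d2, d3, d4, d5⟩ := h1 l E a b n
  obtain ⟨-, -, -, e4, -⟩ := h1 l E a b (n + 1)
  have hA3 : |aa l a b n E| ≤ 6 / 10 * s ^ 2 := by
    refine hA.trans ?_
    have h7 : s ^ 2 * s ≤ s ^ 2 * (1 / 10 ^ 5) := mul_le_mul_of_nonneg_left hs5 (by positivity)
    have h8 : 0 < s ^ 2 := by positivity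
    linarith
  obtain ⟨HW1, HW2⟩ := HD3 hA3 n le_rfl
  rw [hs4] at HW1 HW2
  obtain ⟨A, hAd⟩ : ∃ A, A = aa l a b n E := ⟨_, rfl⟩
  obtain ⟨B, hBd⟩ : ∃ B, B = bb l a b n E := ⟨_, rfl⟩
  obtain ⟨W, hWd⟩ : ∃ W, W = WS l n E := ⟨_, rfl⟩
  obtain ⟨Dn, hDd⟩ : ∃ Dn, Dn = D l n E := ⟨_, rfl⟩
  obtain ⟨G, hGd⟩ : ∃ G, G = gam ^ n := ⟨_, rfl⟩
  obtain ⟨bt, hbt⟩ : ∃ bt, bt = |(b : ℝ)| := ⟨_, rfl⟩
  rw [← hAd] at d1 d3 d4 d5 hA
  rw [← hBd] at d2 d3 d4 d5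
  rw [← hWd] at d5 HW1 HW2
  rw [← hDd] at d1 d2
  rw [← hGd] at hg1 hg2
  rw [← hbt] at hg1 hg2 HW1 HW2
  rw [← hAd, ← hGd, ← hbt]
  have hG0 : 0 < G := by rw [hGd]; positivity
  have hbt1 : 1 ≤ bt := by
    rw [hbt, ← Int.cast_abs]
    exact_mod_cast Int.one_le_abs hb
  have hbt10 : bt ≤ 10 ∨ 11 ≤ bt := by
    rw [hbt, ← Int.cast_abs]
    rcases le_or_gt |b| 10 with h | h
    · left; exact_mod_cast h
    · right; exact_mod_cast h
  -- delta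
  obtain ⟨dl, hdl⟩ : ∃ dl, dl = G * A - W := ⟨_, rfl⟩
  have hBG : |B| = |G * (Real.sqrt 5 * b + dl)| ∧ B ^ 2 = (G * (Real.sqrt 5 * b + dl)) ^ 2 := by
    have h7 : B = (-1) ^ n * (G * (Real.sqrt 5 * b + dl)) := by
      rw [d5, hdl, hGd, neg_pow]; ring
    constructor
    · rw [h7, abs_mul, abs_pow, abs_neg, abs_one, one_pow, one_mul]
    · rw [h7, mul_pow, ← pow_mul, mul_comm n 2, pow_mul]; norm_num
  have hGA : |G * A| ≤ G * (3 * (s ^ 2 * s)) := by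
    rw [abs_mul, abs_of_pos hG0]
    exact mul_le_mul_of_nonneg_left hA hG0.le
  have hbG : bt * G ≤ 16181 / 10000 * s := by
    refine hg2.le.trans ?_
    apply mul_le_mul_of_nonneg_right _ hs0.le
    linarith
  have hdl1 : |dl| ≤ 902 / 100 * Real.sqrt 5 * |(b : ℝ)| * s ^ 4 := by
    rw [← hbt]
    have h7 : |dl| ≤ |G * A| + |W| := by rw [hdl]; exact abs_sub _ _
    have h8 : 0 < s ^ 4 := by positivity
    rcases hbt10 with h | h
    · have h9 := HW2 h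
      have h10 : G ≤ 16181 / 10000 * s := by nlinarith
      have h11 : G * (3 * (s ^ 2 * s)) ≤ (16181 / 10000 * s) * (3 * (s ^ 2 * s)) :=
        mul_le_mul_of_nonneg_right h10 (by positivity)
      have h12 : (16181 / 10000 * s) * (3 * (s ^ 2 * s)) = 48543 / 10000 * s ^ 4 := by ring
      have h13 : 2236 / 1000 * 1 ≤ Real.sqrt 5 * bt :=
        mul_le_mul hq1.le hbt1 (by norm_num) hq0.le
      have h14 : 2236 / 1000 * s ^ 4 ≤ (Real.sqrt 5 * bt) * s ^ 4 :=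
        mul_le_mul_of_nonneg_right (by linarith) h8.le
      linarith
    · have h10 : G * 11 ≤ 16181 / 10000 * s := by nlinarith
      have h11 : G * (3 * (s ^ 2 * s)) ≤ (16181 / 110000 * s) * (3 * (s ^ 2 * s)) :=
        mul_le_mul_of_nonneg_right (by linarith) (by positivity)
      have h12 : (16181 / 110000 * s) * (3 * (s ^ 2 * s)) = 48543 / 110000 * s ^ 4 := by ring
      have h13 : 2236 / 1000 * 11 ≤ Real.sqrt 5 * bt :=
        mul_le_mul hq1.le h (by norm_num) hq0.le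
      have h14 : 2236 / 1000 * 11 * s ^ 4 ≤ (Real.sqrt 5 * bt) * s ^ 4 :=
        mul_le_mul_of_nonneg_right (by linarith) h8.le
      linarith
  have hdl2 : A = 0 → |dl| ≤ 9 * Real.sqrt 5 * |(b : ℝ)| * s ^ 4 := by
    intro h7
    rw [← hbt, hdl, h7, mul_zero, zero_sub, abs_neg]
    exact HW1
  -- pi
  have hp1 := Real.pi_gt_d4
  have hp2 := Real.pi_lt_d4
  have hp0 := Real.pi_pos
  have hpp : (986 / 100 : ℝ) ≤ Real.pi ^ 2 := by nlinarith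
  have hs4' : s ^ 4 ≤ 1 / 10 ^ 10 := by
    rw [← hs4]; refine hll2.trans (by norm_num)
  have hs40 : 0 ≤ s ^ 4 := by positivity
  obtain ⟨b1, b2, b3⟩ := d8_B (Real.sqrt 5) b G dl (902 / 100) (s ^ 4) hqq hq0 hG0 hdl1
    (by norm_num) (by norm_num) hs40 hs4'
  rw [← hBG.2] at b1
  rw [← hBG.1] at b2 b3
  rw [← hbt] at b1 b2 b3
  have hg0 : 0 < bt * G := by positivity
  have ha' : |Real.pi * A| ≤ 943 / 100 * s ^ 3 := by
    rw [abs_mul, abs_of_pos hp0]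
    have h7 : Real.pi * |A| ≤ 31416 / 10000 * (3 * (s ^ 2 * s)) :=
      mul_le_mul (by linarith) hA (abs_nonneg _) (by norm_num)
    have h8 : 0 < s ^ 3 := by positivity
    have h9 : 31416 / 10000 * (3 * (s ^ 2 * s)) = 94248 / 10000 * s ^ 3 := by ring
    linarith
  have hb1' : 702 / 100 * (bt * G) ≤ |Real.pi * B| := by
    rw [abs_mul, abs_of_pos hp0]
    have h7 : 2236 / 1000 * (bt * G) * (1 - 1 / 10000) ≤ |B| := by
      refine le_trans ?_ b3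
      apply mul_le_mul_of_nonneg_right _ (by norm_num)
      exact mul_le_mul_of_nonneg_right hq1.le hg0.le
    have h8 : 31415 / 10000 * (2236 / 1000 * (bt * G) * (1 - 1 / 10000)) ≤ Real.pi * |B| :=
      mul_le_mul (by linarith) h7 (by positivity) hp0.le
    linarith
  have hb2' : |Real.pi * B| ≤ 703 / 100 * (bt * G) := by
    rw [abs_mul, abs_of_pos hp0]
    have h7 : |B| ≤ 22362 / 10000 * (bt * G) * (1 + 1 / 10000) := by
      refine le_trans b2 ?_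
      apply mul_le_mul_of_nonneg_right _ (by norm_num)
      exact mul_le_mul_of_nonneg_right hq2.le hg0.le
    have h8 : Real.pi * |B| ≤ 31416 / 10000 * (22362 / 10000 * (bt * G) * (1 + 1 / 10000)) :=
      mul_le_mul (by linarith) h7 (abs_nonneg _) (by norm_num)
    linarith
  -- the phases
  obtain ⟨R0, hR0⟩ : ∃ R, R = Real.pi * rr l a b n E := ⟨_, rfl⟩
  obtain ⟨R1, hR1⟩ : ∃ R, R = Real.pi * rr l a b (n + 1) E := ⟨_, rfl⟩
  obtain ⟨R2, hR2⟩ : ∃ R, R = Real.pi * rr l a b (n + 2) E := ⟨_, rfl⟩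
  have E0 : Real.sqrt 5 * R0 = Real.pi * A - Real.pi * B := by
    rw [hR0]; linear_combination Real.pi * d3
  have E1 : Real.sqrt 5 * R1 = phi * (Real.pi * A) + gam * (Real.pi * B) := by
    rw [hR1]; linear_combination Real.pi * d4
  have E2 : Real.sqrt 5 * R2 = phi ^ 2 * (Real.pi * A) - gam ^ 2 * (Real.pi * B) +
      Real.sqrt 5 * Dn := by
    rw [d1, d2] at e4
    have h7 : n + 2 = n + 1 + 1 := rfl
    rw [hR2, h7]
    have h8 : Real.pi * (Real.sqrt 5 * rr l a b (n + 1 + 1) E) =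
        Real.pi * (phi * (phi * A + Dn / Real.pi) + gam * (-gam * B + Dn / Real.pi)) := by rw [e4]
    have h9 : Real.pi * (phi * (phi * A + Dn / Real.pi) + gam * (-gam * B + Dn / Real.pi)) =
        phi ^ 2 * (Real.pi * A) - gam ^ 2 * (Real.pi * B) +
          (phi + gam) * (Real.pi * (Dn / Real.pi)) := by ring
    rw [h9, mul_div_cancel₀ _ hp0.ne'] at h8
    have h10 : phi + gam = Real.sqrt 5 := by rw [hφ, hq]; ring
    rw [h10] at h8
    rw [← h8]; ring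
  obtain ⟨-, -, HT⟩ := h6 l hl0 hll3 n
  obtain ⟨-, hDT, -⟩ := HT E
  rw [hs2, ← hDd] at hDT
  obtain ⟨⟨L0, L1, L2⟩, U0, U1, U2⟩ := d8_A gam phi (Real.sqrt 5) (Real.pi * A) (Real.pi * B)
    (bt * G) s Dn R0 R1 R2 hγ hφ hq hγ1 hγ2 hs0 hs5 hg1 hg2 ha' hb1' hb2' E0 E1 E2 hDT
  have h6s : 6 * s ≤ 1 := by
    have : (6 : ℝ) * s ≤ 6 * (1 / 10 ^ 5) := by linarith
    refine this.trans (by norm_num)
  have S0 := d8_sin R0 s 3 (U0.trans h6s) L0
  have S1 := d8_sin R1 s (19 / 10) (U1.trans h6s) L1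
  have S2 := d8_sin R2 s (115 / 100) (U2.trans h6s) L2
  rw [hR0, ← d8_sinTh] at S0
  rw [hR1, ← d8_sinTh] at S1
  rw [hR2, ← d8_sinTh] at S2
  have hDb : |Dn| ≤ s ^ 5 / 10 := by
    have h7 := (h2 l hl0 hll3 n E n (n + 1) (n + 2) rfl).2
    rw [hs2, hl8, ← hDd] at h7
    refine d8_D Dn s |Real.sin (Th l n E)| |Real.sin (Th l (n + 1) E)| |Real.sin (Th l (n + 2) E)|
      hs0 hs5 (by linarith) (by linarith) (by linarith) h7
  have T0 : yy l a b n E = Pol (1 - Real.cos R0) := by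
    unfold yy
    rw [d8_tt l E a b n ((h6 l hl0 hll3 n).2.2 E).2.2 (by linarith), hR0]
  have T1 : yy l a b (n + 1) E = Pol (1 - Real.cos R1) := by
    unfold yy
    rw [d8_tt l E a b (n + 1) ((h6 l hl0 hll3 (n + 1)).2.2 E).2.2 (by linarith), hR1]
  have T2 : yy l a b (n + 2) E = Pol (1 - Real.cos R2) := by
    unfold yy
    rw [d8_tt l E a b (n + 2) ((h6 l hl0 hll3 (n + 2)).2.2 E).2.2 (by linarith), hR2]
  have y0 := d8_eps h5 R0 s hs0 hs5 U0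
  have y1 := d8_eps h5 R1 s hs0 hs5 U1
  have y2 := d8_eps h5 R2 s hs0 hs5 U2
  rw [← T0] at y0
  rw [← T1] at y1
  rw [← T2] at y2
  have key : ∀ c : ℝ, 0 ≤ c → c ≤ 10 → |dl| ≤ c * Real.sqrt 5 * |(b : ℝ)| * s ^ 4 →
      |mQ l a b n E - Real.pi ^ 2 / 2 * (bt * G) ^ 2| ≤
        (bt * G) ^ 2 * (Real.pi ^ 2 / 2) * ((2 * c + 1 / 100) * s ^ 4) ∧
      |mR l a b n E| ≤ 30 * s ^ 4 ∧ |mP l a b n E| ≤ 20 * s ^ 6 ∧
      (Real.pi * A = 0 → |mR l a b n E| ≤ s ^ 6 / 10) := by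
    intro c hc0 hc1 hc2
    obtain ⟨c1, -, -⟩ := d8_B (Real.sqrt 5) b G dl c (s ^ 4) hqq hq0 hG0 hc2 hc0 hc1 hs40 hs4'
    rw [← hBG.2, ← hbt] at c1
    have c2 : |(Real.pi * B) ^ 2 - 5 * Real.pi ^ 2 * (bt * G) ^ 2| ≤
        5 * Real.pi ^ 2 * (bt * G) ^ 2 * (s ^ 4 * (2 * c + 1 / 1000)) := by
      have e1 : (Real.pi * B) ^ 2 - 5 * Real.pi ^ 2 * (bt * G) ^ 2 =
        Real.pi ^ 2 * (B ^ 2 - 5 * (bt * G) ^ 2) := by ring
      rw [e1, abs_mul, abs_of_pos (by positivity : 0 < Real.pi ^ 2)]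
      have e2 := mul_le_mul_of_nonneg_left c1 (by positivity : 0 ≤ Real.pi ^ 2)
      refine e2.trans (le_of_eq ?_)
      ring
    have := d8_alg gam phi (Real.sqrt 5) Real.pi (Real.pi * A) (Real.pi * B) (bt * G) s Dn R0 R1 R2
      (yy l a b n E) (yy l a b (n + 1) E) (yy l a b (n + 2) E) c hγ hφ hq hγ1 hγ2 hs0 hs5 hg1 hg2
      ha' hb2' hpp c2 E0 E1 E2 hDb y0 y1 y2
    exact this
  have hg4 : 0 ≤ (bt * G) ^ 2 * (Real.pi ^ 2 / 2) := by positivity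
  obtain ⟨k1, k2, k3, -⟩ := key (902 / 100) (by norm_num) (by norm_num) hdl1
  refine ⟨?_, k2, ?_, ?_, ?_⟩
  · refine k1.trans ?_
    have e1 : (2 * (902 / 100) + 1 / 100) * s ^ 4 ≤ 194 / 10 * s ^ 4 :=
      mul_le_mul_of_nonneg_right (by norm_num) hs40
    have e2 := mul_le_mul_of_nonneg_left e1 hg4
    refine e2.trans (le_of_eq ?_)
    ring
  · refine k3.trans (le_of_eq ?_)
    ring
  · intro hA0
    obtain ⟨m1, -, -, m4⟩ := key 9 (by norm_num) (by norm_num) (hdl2 hA0)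
    constructor
    · refine m1.trans ?_
      have e1 : (2 * 9 + 1 / 100) * s ^ 4 ≤ 181 / 10 * s ^ 4 :=
        mul_le_mul_of_nonneg_right (by norm_num) hs40
      have e2 := mul_le_mul_of_nonneg_left e1 hg4
      refine e2.trans (le_of_eq ?_)
      ring
    · have hm := m4 (by rw [hA0, mul_zero])
      have hs6 : 0 < s ^ 6 := by positivity
      have e3 : s ^ 4 * s ^ 2 = s ^ 6 := by ring
      linarith
  · intro j hj1 hj2
    have hlt : ∀ R r : ℝ, R = Real.pi * r → |R| ≤ 6 * s → |r| < 1 := by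
      intro R r hRr hRs
      rw [hRr, abs_mul, abs_of_pos hp0] at hRs
      have h7 : 3 * |r| ≤ Real.pi * |r| := mul_le_mul_of_nonneg_right (by linarith) (abs_nonneg _)
      linarith
    have : j = n ∨ j = n + 1 ∨ j = n + 2 := by omega
    rcases this with h | h | h
    · rw [h]; exact hlt R0 _ hR0 U0
    · rw [h]; exact hlt R1 _ hR1 U1
    · rw [h]; exact hlt R2 _ hR2 U2

end Pool.Agent.Helper36.CV
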